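import Pool.Agent.Helper234.BrownDefs

open scoped BoundedContinuousFunction ComplexOrder Topology InnerProductSpace
open Filter

namespace Pool.Agent.Helper234.Brown

universe u v w

/-- GNS data for a tracial state. -/
structure GNSData (A : Type u) [CStarAlgebra A] (t : PTr A) where
  H : Type u
  [i1 : NormedAddCommGroup H]
  [i2 : InnerProductSpace ℂ H]
  [i3 : CompleteSpace H]
  π : A →⋆ₐ[ℂ] (H →L[ℂ] H)
  ξ : H
  inner_eq : ∀ x y, inner ℂ (π x ξ) (π y ξ) = t.tr (star x * y)
  dense : DenseRange fun x => π x ξ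

attribute [instance] GNSData.i1 GNSData.i2 GNSData.i3

theorem exists_gns {A : Type u} [CStarAlgebra A] (t : PTr A) : Nonempty (GNSData A t) := by
  let _ : PartialOrder A := CStarAlgebra.spectralOrder A
  have _ : StarOrderedRing A := CStarAlgebra.spectralOrderedRing A
  let f : A →ₚ[ℂ] ℂ := PositiveLinearMap.mk₀ t.tr (by
    intro x hx
    rw [CStarAlgebra.nonneg_iff_eq_star_mul_self] at hx
    obtain ⟨b, rfl⟩ := hx
    exact t.tr_nonneg b)
  refine ⟨⟨f.GNS, f.gnsStarAlgHom, ((f.toPreGNS 1 : f.PreGNS) : f.GNS), ?_, ?_⟩⟩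
  · intro x y
    simp [PositiveLinearMap.preGNS_inner_def]
    rfl
  · have : (fun x => (f.gnsStarAlgHom x) ((f.toPreGNS 1 : f.PreGNS) : f.GNS)) =
      fun x => ((f.toPreGNS x : f.PreGNS) : f.GNS) := by
      ext x
      simp
    rw [this]
    exact UniformSpace.Completion.denseRange_coe.comp f.toPreGNS.surjective.denseRange
      (UniformSpace.Completion.continuous_coe _)

end Pool.Agent.Helper234.Brown
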