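import Pool.Agent.Helper234.BrownB

open scoped BoundedContinuousFunction ComplexOrder Topology InnerProductSpace
open Filter

namespace Pool.Agent.Helper234.Brown

universe u v w


variable {R : Type u} [CStarAlgebra R] {t : PTr R}

lemma IsVN.n2_eq_zero (hv : IsVN t) {x : R} (h : t.n2 x = 0) : x = 0 := by
  apply hv.faithful
  rw [t.tr_self_eq, h]; simp

lemma IsVN.lim_unique (hv : IsVN t) {x : ℕ → R} {y z : R}
    (h1 : Tendsto (fun n => t.n2 (x n - y)) atTop (𝓝 0))
    (h2 : Tendsto (fun n => t.n2 (x n - z)) atTop (𝓝 0)) : y = z := by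
  have h3 : t.n2 (y - z) = 0 := by
    apply le_antisymm _ (t.n2_nonneg _)
    have h4 : Tendsto (fun n => t.n2 (x n - y) + t.n2 (x n - z)) atTop (𝓝 0) := by
      simpa using h1.add h2
    refine ge_of_tendsto' h4 (fun n => ?_)
    rw [t.n2_sub_comm (x n) y]
    exact t.n2_sub_tri _ _ _
  exact sub_eq_zero.mp (hv.n2_eq_zero h3)

/-- completeness for arbitrary bounds -/
lemma IsVN.complete' (hv : IsVN t) (x : ℕ → R) (C : ℝ) (hC : ∀ n, ‖x n‖ ≤ C)
    (hx : ∀ ε : ℝ, 0 < ε → ∃ N, ∀ m ≥ N, ∀ n ≥ N, t.n2 (x m - x n) < ε) :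
    ∃ y, ‖y‖ ≤ C ∧ Tendsto (fun n => t.n2 (x n - y)) atTop (𝓝 0) := by
  have hC0 : 0 ≤ C := (norm_nonneg _).trans (hC 0)
  rcases hC0.eq_or_lt with h0 | hpos
  · refine ⟨0, by simp [← h0], ?_⟩
    have : ∀ n, x n = 0 := fun n => by
      have := hC n; rw [← h0] at this
      exact norm_le_zero_iff.mp this
    simp [this]
  · have hCi : ‖((C : ℂ)⁻¹)‖ = C⁻¹ := by
      rw [norm_inv, Complex.norm_real, Real.norm_of_nonneg hC0]
    obtain ⟨y, hy1, hy2⟩ := hv.complete (fun n => ((C : ℂ)⁻¹) • x n) (fun n => by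
      rw [norm_smul, hCi, inv_mul_le_iff₀ hpos, mul_one]; exact hC n) (fun ε hε => by
      obtain ⟨N, hN⟩ := hx (C * ε) (by positivity)
      refine ⟨N, fun m hm n hn => ?_⟩
      rw [← smul_sub, t.n2_smul, hCi, inv_mul_lt_iff₀ hpos]
      exact hN m hm n hn)
    refine ⟨(C : ℂ) • y, ?_, ?_⟩
    · rw [norm_smul, Complex.norm_real, Real.norm_of_nonneg hC0]
      nlinarith
    · have h2 := hy2.const_mul C
      rw [mul_zero] at h2
      refine h2.congr (fun n => ?_)
      have hne : (C : ℂ) ≠ 0 := by exact_mod_cast hpos.ne'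
      have : x n - (C : ℂ) • y = (C : ℂ) • ((C : ℂ)⁻¹ • x n - y) := by
        rw [smul_sub, smul_smul, mul_inv_cancel₀ hne, one_smul]
      rw [this, t.n2_smul, Complex.norm_real, Real.norm_of_nonneg hC0]

/-- pointwise 2-norm limits of trace preserving endomorphisms -/
lemma exists_limit_hom (hv : IsVN t) (φ : ℕ → (R →⋆ₐ[ℂ] R))
    (hφ : ∀ m x, t.tr (φ m x) = t.tr x)
    (hc : ∀ x, ∀ ε : ℝ, 0 < ε → ∃ N, ∀ m ≥ N, ∀ n ≥ N, t.n2 (φ m x - φ n x) < ε) :
    ∃ S : R →⋆ₐ[ℂ] R, (∀ x, Tendsto (fun m => t.n2 (φ m x - S x)) atTop (𝓝 0)) ∧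
      (∀ x, t.tr (S x) = t.tr x) := by
  have hb : ∀ m x, ‖φ m x‖ ≤ ‖x‖ := fun m x => NonUnitalStarAlgHom.norm_apply_le (φ m) x
  have key : ∀ x, ∃ y, ‖y‖ ≤ ‖x‖ ∧ Tendsto (fun m => t.n2 (φ m x - y)) atTop (𝓝 0) := fun x =>
    hv.complete' (fun m => φ m x) ‖x‖ (fun m => hb m x) (hc x)
  choose S hS1 hS2 using key
  have hadd : ∀ x y, S (x + y) = S x + S y := fun x y => by
    refine hv.lim_unique (hS2 (x + y)) ?_
    have := (hS2 x).add (hS2 y)
    rw [add_zero] at this
    refine squeeze_zero (fun n => t.n2_nonneg _) (fun n => ?_) this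
    rw [map_add, show φ n x + φ n y - (S x + S y) = (φ n x - S x) + (φ n y - S y) by abel]
    exact t.n2_add_le _ _
  have hmul : ∀ x y, S (x * y) = S x * S y := fun x y => by
    refine hv.lim_unique (hS2 (x * y)) ?_
    have := ((hS2 y).const_mul ‖x‖).add ((hS2 x).mul_const ‖S y‖)
    rw [mul_zero, zero_mul, add_zero] at this
    refine squeeze_zero (fun n => t.n2_nonneg _) (fun n => ?_) this
    rw [map_mul, show φ n x * φ n y - S x * S y = φ n x * (φ n y - S y) + (φ n x - S x) * S y by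
      noncomm_ring]
    refine (t.n2_add_le _ _).trans (add_le_add ?_ (t.n2_mul_le' _ _))
    exact (t.n2_mul_le _ _).trans (mul_le_mul_of_nonneg_right (hb n x) (t.n2_nonneg _))
  have hconst : ∀ c : ℂ, S (algebraMap ℂ R c) = algebraMap ℂ R c := fun c => by
    refine hv.lim_unique (hS2 _) ?_
    have : ∀ n, φ n (algebraMap ℂ R c) = algebraMap ℂ R c := fun n => AlgHomClass.commutes _ _
    simp only [this, sub_self, t.n2_zero]
    exact tendsto_const_nhds
  have hstar : ∀ x, S (star x) = star (S x) := fun x => by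
    refine hv.lim_unique (hS2 _) ?_
    refine (hS2 x).congr (fun n => ?_)
    rw [map_star, ← star_sub, t.n2_star]
  refine ⟨{ toFun := S, map_one' := by simpa using hconst 1, map_mul' := hmul,
            map_zero' := by simpa using hconst 0, map_add' := hadd, commutes' := hconst,
            map_star' := hstar }, hS2, ?_⟩
  intro x
  have h1 : Tendsto (fun m => ‖t.tr (φ m x - S x)‖) atTop (𝓝 0) :=
    squeeze_zero (fun n => norm_nonneg _) (fun n => t.norm_tr_le_n2 _) (hS2 x)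
  simp only [map_sub, hφ] at h1
  have := tendsto_nhds_unique h1 tendsto_const_nhds
  exact (sub_eq_zero.mp (norm_eq_zero.mp this.symm)).symm

end Pool.Agent.Helper234.Brown
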