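import Mathlib

open scoped BoundedContinuousFunction ComplexOrder Topology InnerProductSpace
open Filter

namespace Pool.Agent.Helper234.Brown

universe u v w

/-- A (not necessarily faithful) tracial state on a unital C*-algebra. -/
structure PTr (A : Type u) [CStarAlgebra A] where
  tr : A →ₗ[ℂ] ℂ
  tr_one : tr 1 = 1
  tr_comm : ∀ x y, tr (x * y) = tr (y * x)
  tr_nonneg : ∀ x, 0 ≤ tr (star x * x)

namespace PTr

variable {A : Type u} [CStarAlgebra A] (t : PTr A)

/-- the trace 2-norm. -/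
noncomputable def n2 (x : A) : ℝ := Real.sqrt (t.tr (star x * x)).re

lemma tr_self_re_nonneg (x : A) : 0 ≤ (t.tr (star x * x)).re := by
  have := t.tr_nonneg x
  rw [Complex.le_def] at this
  exact this.1

lemma tr_self_im (x : A) : (t.tr (star x * x)).im = 0 := by
  have := t.tr_nonneg x
  rw [Complex.le_def] at this
  exact this.2.symm

lemma tr_self_eq (x : A) : t.tr (star x * x) = ((t.n2 x ^ 2 : ℝ) : ℂ) := by
  apply Complex.ext
  · rw [n2, Real.sq_sqrt (t.tr_self_re_nonneg x), Complex.ofReal_re]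
  · rw [tr_self_im, Complex.ofReal_im]

lemma n2_sq (x : A) : t.n2 x ^ 2 = (t.tr (star x * x)).re := by
  rw [n2, Real.sq_sqrt (t.tr_self_re_nonneg x)]

lemma n2_nonneg (x : A) : 0 ≤ t.n2 x := Real.sqrt_nonneg _

/-- The trace is hermitian. -/
lemma tr_star (x : A) : t.tr (star x) = (starRingEnd ℂ) (t.tr x) := by
  have h1 := t.tr_self_im (1 + x)
  have h2 := t.tr_self_im (1 + (Complex.I) • x)
  have h0 := t.tr_self_im x
  simp only [star_add, star_one, add_mul, mul_add, one_mul, mul_one, star_smul, map_add, smul_mul_assoc,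
    mul_smul_comm, map_smul, t.tr_one, smul_eq_mul, Complex.add_im, Complex.one_im, zero_add,
    Complex.star_def, Complex.conj_I] at h1 h2
  rw [h0] at h1
  have h3 : (-Complex.I * (Complex.I * t.tr (star x * x))).im = 0 := by
    rw [← mul_assoc]; simp [h0]
  simp only [neg_mul, Complex.neg_im, Complex.mul_im, Complex.neg_re, Complex.mul_re, Complex.I_re,
    Complex.I_im, zero_mul, one_mul, zero_add, h0] at h2
  apply Complex.ext
  · simp only [Complex.conj_re]
    linarith
  · simp only [Complex.conj_im]; linarith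

/-- the pre-inner product core -/
noncomputable abbrev core : PreInnerProductSpace.Core ℂ A where
  inner x y := t.tr (star x * y)
  conj_inner_symm x y := by
    rw [← t.tr_star]; simp
  re_inner_nonneg x := by simpa using t.tr_self_re_nonneg x
  add_left x y z := by simp [add_mul]
  smul_left x y r := by simp

lemma norm_tr_le (x y : A) : ‖t.tr (star x * y)‖ ≤ t.n2 x * t.n2 y := by
  have := @InnerProductSpace.Core.norm_inner_le_norm ℂ A _ _ _ t.core x y
  exact this

lemma n2_add_le (x y : A) : t.n2 (x + y) ≤ t.n2 x + t.n2 y := by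
  have hx := t.n2_nonneg x
  have hy := t.n2_nonneg y
  apply le_of_sq_le_sq _ (by positivity)
  rw [n2_sq]
  have h1 := t.norm_tr_le x y
  have h2 : t.tr (star (x + y) * (x + y)) = t.tr (star x * x) + t.tr (star x * y) +
      ((starRingEnd ℂ) (t.tr (star x * y)) + t.tr (star y * y)) := by
    rw [← t.tr_star]
    simp only [star_add, add_mul, mul_add, map_add, star_mul, star_star]
    ring
  rw [h2]
  simp only [Complex.add_re, Complex.conj_re]
  rw [← n2_sq, ← n2_sq]
  have h3 : (t.tr (star x * y)).re ≤ ‖t.tr (star x * y)‖ := Complex.re_le_norm _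
  nlinarith

lemma n2_smul (c : ℂ) (x : A) : t.n2 (c • x) = ‖c‖ * t.n2 x := by
  have : t.n2 (c • x) ^ 2 = (‖c‖ * t.n2 x) ^ 2 := by
    rw [n2_sq, mul_pow, n2_sq]
    simp only [star_smul, smul_mul_assoc, mul_smul_comm, map_smul, smul_eq_mul, ← mul_assoc]
    rw [Complex.star_def, Complex.mul_conj, Complex.normSq_eq_norm_sq]
    rw [Complex.re_ofReal_mul]
  have h1 := t.n2_nonneg (c • x)
  have h2 := t.n2_nonneg x
  exact (sq_eq_sq₀ h1 (mul_nonneg (norm_nonneg c) h2)).mp this

@[simp] lemma n2_zero : t.n2 0 = 0 := by simp [n2]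

lemma n2_neg (x : A) : t.n2 (-x) = t.n2 x := by simp [n2]

lemma n2_sub_le (x y : A) : t.n2 (x - y) ≤ t.n2 x + t.n2 y := by
  have := t.n2_add_le x (-y)
  rwa [t.n2_neg, ← sub_eq_add_neg] at this

lemma n2_sub_comm (x y : A) : t.n2 (x - y) = t.n2 (y - x) := by
  rw [← t.n2_neg, neg_sub]

lemma n2_sub_tri (x y z : A) : t.n2 (x - z) ≤ t.n2 (x - y) + t.n2 (y - z) := by
  have := t.n2_add_le (x - y) (y - z)
  simpa using this

lemma n2_star (x : A) : t.n2 (star x) = t.n2 x := by
  rw [n2, n2, star_star, t.tr_comm]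

lemma tr_mono_conj (x y : A) : (t.tr (star y * (star x * x) * y)).re ≤ ‖x‖ ^ 2 * (t.tr (star y * y)).re := by
  let _ : PartialOrder A := CStarAlgebra.spectralOrder A
  have _ : StarOrderedRing A := CStarAlgebra.spectralOrderedRing A
  have h : star x * x ≤ algebraMap ℝ A (‖x‖ ^ 2) := CStarAlgebra.star_mul_le_algebraMap_norm_sq
  have h2 := sub_nonneg.mpr h
  rw [CStarAlgebra.nonneg_iff_eq_star_mul_self] at h2
  obtain ⟨b, hb⟩ := h2
  have h3 := t.tr_self_re_nonneg (b * y)
  have h4 : star (b * y) * (b * y) = ((‖x‖ ^ 2 : ℝ) : ℂ) • (star y * y) - star y * (star x * x) * y := by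
    rw [star_mul, show star y * star b * (b * y) = star y * (star b * b) * y by simp only [mul_assoc],
      ← hb, mul_sub, sub_mul, Algebra.algebraMap_eq_smul_one]
    congr 1
    rw [mul_smul_comm, mul_one, smul_mul_assoc, Complex.coe_smul]
  rw [h4, map_sub, map_smul, smul_eq_mul, Complex.sub_re, Complex.re_ofReal_mul] at h3
  linarith

lemma n2_mul_le (x y : A) : t.n2 (x * y) ≤ ‖x‖ * t.n2 y := by
  have hy := t.n2_nonneg y
  apply le_of_sq_le_sq _ (by positivity)
  rw [n2_sq, mul_pow, n2_sq]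
  have := t.tr_mono_conj x y
  rw [star_mul]
  simpa only [mul_assoc] using this

lemma n2_mul_le' (x y : A) : t.n2 (x * y) ≤ t.n2 x * ‖y‖ := by
  rw [← t.n2_star, star_mul, mul_comm, ← t.n2_star x, ← norm_star y]
  exact t.n2_mul_le _ _

lemma n2_le_norm (x : A) : t.n2 x ≤ ‖x‖ := by
  have := t.n2_mul_le x 1
  have h1 : t.n2 1 = 1 := by simp [n2, t.tr_one]
  rwa [mul_one, h1, mul_one] at this

@[simp] lemma n2_one : t.n2 (1 : A) = 1 := by simp [n2, t.tr_one]

lemma norm_tr_le_n2 (x : A) : ‖t.tr x‖ ≤ t.n2 x := by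
  have := t.norm_tr_le 1 x
  simpa using this

/-- unitary invariance -/
lemma n2_unitary_mul {u : A} (hu : star u * u = 1) (x : A) : t.n2 (u * x) = t.n2 x := by
  rw [n2, n2, star_mul, show star x * star u * (u * x) = star x * (star u * u) * x by
    simp only [mul_assoc], hu, mul_one]

lemma n2_mul_unitary {u : A} (hu : u * star u = 1) (x : A) : t.n2 (x * u) = t.n2 x := by
  rw [← t.n2_star, star_mul, t.n2_unitary_mul (by simpa using hu), t.n2_star]

lemma parallelogram (x y : A) :
    t.n2 (x + y) ^ 2 + t.n2 (x - y) ^ 2 = 2 * t.n2 x ^ 2 + 2 * t.n2 y ^ 2 := by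
  simp only [n2_sq, star_add, star_sub, add_mul, mul_add, sub_mul, mul_sub, map_add, map_sub,
    Complex.add_re, Complex.sub_re]
  ring

end PTr

lemma tendsto_limUnder_ultra (U : Ultrafilter ℕ) (f : ℕ → ℂ) (C : ℝ) (hf : ∀ n, ‖f n‖ ≤ C) :
    Tendsto f (U : Filter ℕ) (𝓝 (limUnder (U : Filter ℕ) f)) := by
  apply tendsto_nhds_limUnder
  have hc : IsCompact (Metric.closedBall (0 : ℂ) C) := isCompact_closedBall _ _
  obtain ⟨x, -, hx⟩ := hc.ultrafilter_le_nhds (U.map f) (by
    rw [Filter.le_principal_iff]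
    exact Filter.mem_map.mpr (Filter.univ_mem' (fun n => by simpa using hf n)))
  exact ⟨x, hx⟩

variable {R : Type u} [CStarAlgebra R]

namespace PTr

/-- The limit trace on bounded sequences. -/
noncomputable def ultra (t : PTr R) (U : Ultrafilter ℕ) : PTr (ℕ →ᵇ R) :=
  have hb : ∀ x : ℕ →ᵇ R, ∀ n, ‖t.tr (x n)‖ ≤ ‖x‖ := fun x n =>
    (t.norm_tr_le_n2 _).trans ((t.n2_le_norm _).trans (x.norm_coe_le_norm n))
  have ht : ∀ x : ℕ →ᵇ R, Tendsto (fun n => t.tr (x n)) (U : Filter ℕ)
      (𝓝 (limUnder (U : Filter ℕ) fun n => t.tr (x n))) := fun x =>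
    tendsto_limUnder_ultra U _ ‖x‖ (hb x)
  { tr :=
      { toFun := fun x => limUnder (U : Filter ℕ) fun n => t.tr (x n)
        map_add' := fun x y => by
          apply tendsto_nhds_unique (ht _)
          simpa using (ht x).add (ht y)
        map_smul' := fun c x => by
          apply tendsto_nhds_unique (ht _)
          simpa using (ht x).const_mul c }
    tr_one := by
      apply tendsto_nhds_unique (ht _)
      simp [t.tr_one]
    tr_comm := fun x y => by
      apply tendsto_nhds_unique (ht _)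
      refine (ht _).congr (fun n => ?_)
      simpa using t.tr_comm _ _
    tr_nonneg := fun x => by
      refine ge_of_tendsto' (ht _) (fun n => ?_)
      exact t.tr_nonneg (x n) }

lemma tendsto_ultra (t : PTr R) (U : Ultrafilter ℕ) (x : ℕ →ᵇ R) :
    Tendsto (fun n => t.tr (x n)) (U : Filter ℕ) (𝓝 ((t.ultra U).tr x)) :=
  tendsto_limUnder_ultra U _ ‖x‖ (fun n => (t.norm_tr_le_n2 _).trans ((t.n2_le_norm _).trans (x.norm_coe_le_norm n)))

lemma tendsto_n2 (t : PTr R) (U : Ultrafilter ℕ) (x : ℕ →ᵇ R) :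
    Tendsto (fun n => t.n2 (x n)) (U : Filter ℕ) (𝓝 ((t.ultra U).n2 x)) := by
  have h := t.tendsto_ultra U (star x * x)
  have h2 := (Complex.continuous_re.tendsto _).comp h
  exact (Real.continuous_sqrt.tendsto _).comp h2

end PTr

/-- the ideal of 2-norm null sequences in the algebra of bounded sequences -/
noncomputable def nullIdeal (t : PTr R) (U : Ultrafilter ℕ) : Ideal (ℕ →ᵇ R) where
  carrier := {x | Tendsto (fun n => t.n2 (x n)) (U : Filter ℕ) (𝓝 0)}
  add_mem' := by
    intro x y hx hy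
    refine squeeze_zero (fun n => t.n2_nonneg _) (fun n => t.n2_add_le _ _) ?_
    simpa using Tendsto.add hx hy
  zero_mem' := by simp
  smul_mem' := by
    intro c x hx
    refine squeeze_zero (g := fun n => ‖c‖ * t.n2 (x n)) (fun n => t.n2_nonneg _) (fun n => ?_) ?_
    · refine (t.n2_mul_le _ _).trans ?_
      gcongr
      · exact t.n2_nonneg _
      · exact c.norm_coe_le_norm n
    · simpa using Tendsto.const_mul ‖c‖ hx

instance (t : PTr R) (U : Ultrafilter ℕ) : (nullIdeal t U).IsTwoSided where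
  mul_mem_of_left := by
    intro x c hx
    refine squeeze_zero (g := fun n => t.n2 (x n) * ‖c‖) (fun n => t.n2_nonneg _) (fun n => ?_) ?_
    · refine (t.n2_mul_le' _ _).trans ?_
      gcongr
      · exact t.n2_nonneg _
      · exact c.norm_coe_le_norm n
    · simpa using Tendsto.mul_const ‖c‖ hx

lemma mem_nullIdeal {t : PTr R} {U : Ultrafilter ℕ} {x : ℕ →ᵇ R} :
    x ∈ nullIdeal t U ↔ Tendsto (fun n => t.n2 (x n)) (U : Filter ℕ) (𝓝 0) := Iff.rfl

/-- The tracial ultrapower. -/
abbrev Ultrapower (t : PTr R) (U : Ultrafilter ℕ) : Type u := (ℕ →ᵇ R) ⧸ nullIdeal t U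

/-- the class of a bounded sequence -/
noncomputable abbrev cls (t : PTr R) (U : Ultrafilter ℕ) : (ℕ →ᵇ R) →+* Ultrapower t U :=
  Ideal.Quotient.mk (nullIdeal t U)

lemma star_mem_nullIdeal {t : PTr R} {U : Ultrafilter ℕ} {x : ℕ →ᵇ R} (hx : x ∈ nullIdeal t U) :
    star x ∈ nullIdeal t U := by
  rw [mem_nullIdeal] at hx ⊢
  refine hx.congr (fun n => ?_)
  exact (t.n2_star (x n)).symm

noncomputable instance (t : PTr R) (U : Ultrafilter ℕ) : StarRing (Ultrapower t U) where
  star := Quotient.map' star (fun x y h => by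
    rw [Submodule.quotientRel_def] at h ⊢
    rw [← star_sub]
    exact star_mem_nullIdeal h)
  star_involutive := by
    intro x
    obtain ⟨x, rfl⟩ := Ideal.Quotient.mk_surjective x
    exact congrArg _ (star_star x)
  star_mul := by
    intro x y
    obtain ⟨x, rfl⟩ := Ideal.Quotient.mk_surjective x
    obtain ⟨y, rfl⟩ := Ideal.Quotient.mk_surjective y
    exact congrArg _ (star_mul x y)
  star_add := by
    intro x y
    obtain ⟨x, rfl⟩ := Ideal.Quotient.mk_surjective x
    obtain ⟨y, rfl⟩ := Ideal.Quotient.mk_surjective y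
    exact congrArg _ (star_add x y)

lemma star_cls (t : PTr R) (U : Ultrafilter ℕ) (x : ℕ →ᵇ R) : star (cls t U x) = cls t U (star x) := rfl

lemma cls_eq_iff (t : PTr R) (U : Ultrafilter ℕ) (x y : ℕ →ᵇ R) :
    cls t U x = cls t U y ↔ (t.ultra U).n2 (x - y) = 0 := by
  rw [Ideal.Quotient.eq, mem_nullIdeal]
  have := t.tendsto_n2 U (x - y)
  constructor
  · intro h
    exact tendsto_nhds_unique this h
  · intro h
    rwa [h] at this

/-- `(A, t)` is a tracial von Neumann algebra: the trace is faithful and the operator-norm unit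
ball is complete for the 2-norm. -/
structure IsVN {A : Type u} [CStarAlgebra A] (t : PTr A) : Prop where
  faithful : ∀ x, t.tr (star x * x) = 0 → x = 0
  complete : ∀ x : ℕ → A, (∀ n, ‖x n‖ ≤ 1) →
    (∀ ε : ℝ, 0 < ε → ∃ N, ∀ m ≥ N, ∀ n ≥ N, t.n2 (x m - x n) < ε) →
    ∃ y, ‖y‖ ≤ 1 ∧ Tendsto (fun n => t.n2 (x n - y)) atTop (𝓝 0)

/-- `(A, t)` is (isomorphic to) the hyperfinite II_1 factor: a tracial von Neumann algebra
generated by a sequence of pairwise commuting unital copies of the 2 by 2 matrices. -/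
structure IsHyperfinite {A : Type u} [CStarAlgebra A] (t : PTr A) : Prop extends IsVN t where
  matrices : ∃ j : ℕ → (Matrix (Fin 2) (Fin 2) ℂ →⋆ₐ[ℂ] A),
    (∀ k l, k ≠ l → ∀ x y, j k x * j l y = j l y * j k x) ∧
    ∀ x, ∀ ε : ℝ, 0 < ε → ∃ y ∈ Algebra.adjoin ℂ (⋃ k, Set.range (j k)), t.n2 (x - y) < ε

/-- `(A, t)` is a II_1 factor. -/
structure IsIIOneFactor {A : Type u} [CStarAlgebra A] (t : PTr A) : Prop extends IsVN t where
  center_trivial : ∀ x, (∀ y, x * y = y * x) → ∃ c : ℂ, x = algebraMap ℂ A c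
  infinite_dim : ¬ FiniteDimensional ℂ A

/-- `(A, t)` is separable: it has a countable 2-norm dense subset. -/
def IsSep {A : Type u} [CStarAlgebra A] (t : PTr A) : Prop :=
  ∃ s : Set A, s.Countable ∧ ∀ x, ∀ ε : ℝ, 0 < ε → ∃ y ∈ s, t.n2 (x - y) < ε

/-- the sequence `a` generates `(A, t)` as a von Neumann algebra -/
def Generates {A : Type u} [CStarAlgebra A] (t : PTr A) (a : ℕ → A) : Prop :=
  ∀ x, ∀ ε : ℝ, 0 < ε → ∃ y ∈ StarAlgebra.adjoin ℂ (Set.range a), t.n2 (x - y) < ε

/-- the 2-norm on the tracial ultrapower -/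
noncomputable def un2 (t : PTr R) (U : Ultrafilter ℕ) (X : Ultrapower t U) : ℝ :=
  Quotient.liftOn' X (fun x => (t.ultra U).n2 x) (by
    intro x y h
    rw [Submodule.quotientRel_def] at h
    have h1 := (cls_eq_iff t U x y).mp (Ideal.Quotient.eq.mpr h)
    have h2 := (t.ultra U).n2_add_le (x - y) y
    have h3 := (t.ultra U).n2_sub_le x (x - y)
    simp only [sub_add_cancel, sub_sub_cancel] at h2 h3
    linarith)

lemma un2_cls (t : PTr R) (U : Ultrafilter ℕ) (x : ℕ →ᵇ R) : un2 t U (cls t U x) = (t.ultra U).n2 x := rfl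

/-- unital star homomorphisms from `M` to the ultrapower -/
abbrev UHom (M : Type v) [CStarAlgebra M] (t : PTr R) (U : Ultrafilter ℕ) : Type (max u v) :=
  M →⋆ₐ[ℂ] Ultrapower t U

/-- Brown's distance of two homomorphisms into the ultrapower, for the sequence `a`
(`a n` is the contraction number `n + 1`). -/
noncomputable def brownDist {M : Type v} [CStarAlgebra M] (t : PTr R) (U : Ultrafilter ℕ) (a : ℕ → M)
    (π ρ : UHom M t U) : ℝ :=
  ⨅ u : unitary (Ultrapower t U),
    Real.sqrt (∑' n : ℕ, (1 / 4 : ℝ) ^ (n + 1) *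
      un2 t U (π (a n) - (u : Ultrapower t U) * ρ (a n) * star (u : Ultrapower t U)) ^ 2)

/-- `π` is a representative of the convex combination `∑ i, t i • [ρ i]` (all weights positive). -/
def IsConvexComb {M : Type v} [CStarAlgebra M] (t : PTr R) (U : Ultrafilter ℕ) {k : ℕ}
    (s : Fin k → ℝ) (ρ : Fin k → UHom M t U) (π : UHom M t U) : Prop :=
  ∃ β : Fin k → ℕ → (R →⋆ₙₐ[ℂ] R),
    (∀ i n, Function.Injective (β i n)) ∧
    (∀ i n y, β i n 1 * y * β i n 1 = y → ∃ x, β i n x = y) ∧
    (∀ i n, t.tr (β i n 1) = (s i : ℂ)) ∧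
    (∀ (p : Fin k → (ℕ →ᵇ R)), (∀ i n, p i n = β i n 1) →
      ∀ i i', i ≠ i' → cls t U (p i) * cls t U (p i') = 0) ∧
    (∀ (x : M) (y : Fin k → (ℕ →ᵇ R)) (z : ℕ →ᵇ R), (∀ i, cls t U (y i) = ρ i x) →
      (∀ n, z n = ∑ i, β i n (y i n)) → π x = cls t U z)

/-- `(M, s)` embeds in the ultrapower by a unital star homomorphism preserving the 2-norm -/
def EmbedsInUltrapower {M : Type v} [CStarAlgebra M] (s : PTr M) (t : PTr R) (U : Ultrafilter ℕ) : Prop :=
  ∃ π : UHom M t U, ∀ x, un2 t U (π x) = s.n2 x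

/-- unitary equivalence of homomorphisms into the ultrapower -/
def UnitarilyEquiv {M : Type v} [CStarAlgebra M] (t : PTr R) (U : Ultrafilter ℕ)
    (π ρ : UHom M t U) : Prop :=
  ∃ u : unitary (Ultrapower t U), ∀ x, π x = (u : Ultrapower t U) * ρ x * star (u : Ultrapower t U)

/-- the space of unital star homomorphisms from `M` to the ultrapower modulo unitary equivalence -/
def HomSpace (M : Type v) [CStarAlgebra M] (t : PTr R) (U : Ultrafilter ℕ) :=
  Quot (UnitarilyEquiv (M := M) t U)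

/-- the class of a homomorphism -/
def homClass {M : Type v} [CStarAlgebra M] {t : PTr R} {U : Ultrafilter ℕ}
    (π : UHom M t U) : HomSpace M t U := Quot.mk _ π

/-- `Φ` respects convex combinations. -/
def IsAffine {M : Type v} [CStarAlgebra M] {t : PTr R} {U : Ultrafilter ℕ} {B : Type w}
    [AddCommGroup B] [Module ℝ B] (Φ : HomSpace M t U → B) : Prop :=
  ∀ (k : ℕ) (s : Fin k → ℝ) (ρ : Fin k → UHom M t U) (π : UHom M t U),
    IsConvexComb t U s ρ π → Φ (homClass π) = ∑ i, s i • Φ (homClass (ρ i))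

/-- `Φ` is isometric for the distance defined by the sequence `a`. -/
def IsIsometric {M : Type v} [CStarAlgebra M] {t : PTr R} {U : Ultrafilter ℕ} {B : Type w}
    [NormedAddCommGroup B] (a : ℕ → M) (Φ : HomSpace M t U → B) : Prop :=
  ∀ π ρ : UHom M t U, ‖Φ (homClass π) - Φ (homClass ρ)‖ = brownDist t U a π ρ

end Pool.Agent.Helper234.Brown
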