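import Pool.Agent.Helper234.BrownDefs

open scoped BoundedContinuousFunction ComplexOrder Topology InnerProductSpace
open Filter

namespace Pool.Agent.Helper234.Brown

universe u v w

namespace PTr

variable {A : Type u} [CStarAlgebra A] (t : PTr A)

/-- the trace 1-norm, in its dual form -/
noncomputable def n1 (x : A) : ℝ := ⨆ y : {y : A // ‖y‖ ≤ 1}, ‖t.tr (x * y)‖

lemma n1_bdd (x : A) : BddAbove (Set.range fun y : {y : A // ‖y‖ ≤ 1} => ‖t.tr (x * y)‖) := by
  refine ⟨t.n2 x, ?_⟩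
  rintro _ ⟨y, rfl⟩
  have h1 := t.norm_tr_le (star x) y
  rw [star_star, t.n2_star] at h1
  have h2 := (t.n2_le_norm y).trans y.2
  have h3 := t.n2_nonneg x
  simp only
  nlinarith

lemma le_n1 (x : A) {y : A} (hy : ‖y‖ ≤ 1) : ‖t.tr (x * y)‖ ≤ t.n1 x :=
  le_ciSup (t.n1_bdd x) (⟨y, hy⟩ : {y : A // ‖y‖ ≤ 1})

lemma n1_le {x : A} {C : ℝ} (h : ∀ y : A, ‖y‖ ≤ 1 → ‖t.tr (x * y)‖ ≤ C) : t.n1 x ≤ C := by
  have : Nonempty {y : A // ‖y‖ ≤ 1} := ⟨⟨0, by simp⟩⟩
  exact ciSup_le (fun y => h y y.2)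

lemma n1_nonneg (x : A) : 0 ≤ t.n1 x := by
  have := t.le_n1 x (y := 0) (by simp)
  simpa using this

lemma n1_le_n2 (x : A) : t.n1 x ≤ t.n2 x := t.n1_le (fun y hy => by
  have h1 := t.norm_tr_le (star x) y
  rw [star_star, t.n2_star] at h1
  have h2 := (t.n2_le_norm y).trans hy
  have h3 := t.n2_nonneg x
  nlinarith)

lemma n1_add_le (x y : A) : t.n1 (x + y) ≤ t.n1 x + t.n1 y := t.n1_le (fun z hz => by
  rw [add_mul, map_add]
  exact (norm_add_le _ _).trans (add_le_add (t.le_n1 x hz) (t.le_n1 y hz)))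

lemma n1_neg (x : A) : t.n1 (-x) = t.n1 x := by
  unfold n1
  simp

lemma n1_sub_le (x y : A) : t.n1 x - t.n1 y ≤ t.n1 (x - y) := by
  have := t.n1_add_le (x - y) y
  rw [sub_add_cancel] at this
  linarith

end PTr

variable {R : Type u} [CStarAlgebra R]

/-- the 1-norm on the tracial ultrapower -/
noncomputable def un1 (t : PTr R) (U : Ultrafilter ℕ) (X : Ultrapower t U) : ℝ :=
  Quotient.liftOn' X (fun x => (t.ultra U).n1 x) (by
    intro x y h
    rw [Submodule.quotientRel_def] at h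
    have h1 := (cls_eq_iff t U x y).mp (Ideal.Quotient.eq.mpr h)
    have h2 := (t.ultra U).n1_sub_le x y
    have h3 := (t.ultra U).n1_sub_le y x
    have h4 := (t.ultra U).n1_le_n2 (x - y)
    have h5 := (t.ultra U).n1_le_n2 (y - x)
    rw [(t.ultra U).n2_sub_comm y x] at h5
    linarith)

/-- The variant of Brown's distance in which the 2-norm is replaced by the 1-norm. -/
noncomputable def brownDist1 {M : Type v} [CStarAlgebra M] (t : PTr R) (U : Ultrafilter ℕ) (a : ℕ → M)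
    (π ρ : UHom M t U) : ℝ :=
  ⨅ u : unitary (Ultrapower t U),
    Real.sqrt (∑' n : ℕ, (1 / 4 : ℝ) ^ (n + 1) *
      un1 t U (π (a n) - (u : Ultrapower t U) * ρ (a n) * star (u : Ultrapower t U)) ^ 2)

/-- `Φ` is isometric for the 1-norm variant of the distance defined by the sequence `a`. -/
def IsIsometric1 {M : Type v} [CStarAlgebra M] {t : PTr R} {U : Ultrafilter ℕ} {B : Type w}
    [NormedAddCommGroup B] (a : ℕ → M) (Φ : HomSpace M t U → B) : Prop :=
  ∀ π ρ : UHom M t U, ‖Φ (homClass π) - Φ (homClass ρ)‖ = brownDist1 t U a π ρ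

end Pool.Agent.Helper234.Brown
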