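import Pool.Agent.Helper234.BrownD

open scoped BoundedContinuousFunction ComplexOrder Topology InnerProductSpace
open Filter

namespace Pool.Agent.Helper234.Brown

universe u v w


variable {R : Type u} [CStarAlgebra R] {t : PTr R}

/-- matrix units of 2x2 matrices -/
abbrev mu (a b : Fin 2) : Matrix (Fin 2) (Fin 2) ℂ := Matrix.single a b 1

lemma mu_mul (a b c d : Fin 2) : mu a b * mu c d = if b = c then mu a d else 0 := by
  split_ifs with h
  · subst h; simp [mu]
  · simp [mu, h]

lemma star_mu (a b : Fin 2) : star (mu a b) = mu b a := by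
  rw [Matrix.star_eq_conjTranspose, Matrix.conjTranspose_single]
  simp [mu]

lemma sum_mu : ∑ a, mu a a = 1 := by
  ext i j
  fin_cases i <;> fin_cases j <;> simp [mu, Matrix.single, Fin.sum_univ_two]

lemma mat_eq_sum (x : Matrix (Fin 2) (Fin 2) ℂ) : x = ∑ a, ∑ b, x a b • mu a b := by
  conv_lhs => rw [Matrix.matrix_eq_sum_single x]
  refine Finset.sum_congr rfl fun a _ => Finset.sum_congr rfl fun b _ => ?_
  simp [mu, Matrix.smul_single]

section flips

variable (j : ℕ → (Matrix (Fin 2) (Fin 2) ℂ →⋆ₐ[ℂ] R))

/-- flip unitary of the k-th and (k+1)-st copies -/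
noncomputable def flip (k : ℕ) : R := ∑ a, ∑ b, j k (mu a b) * j (k+1) (mu b a)

variable (hj : ∀ k l, k ≠ l → ∀ x y, j k x * j l y = j l y * j k x)
include hj

lemma flip_star (k : ℕ) : star (flip j k) = flip j k := by
  unfold flip
  simp only [star_sum, star_mul, ← map_star, star_mu]
  rw [Finset.sum_comm]
  refine Finset.sum_congr rfl fun a _ => Finset.sum_congr rfl fun b _ => ?_
  exact (hj k (k+1) (by omega) _ _).symm

lemma flip_mul_j (k : ℕ) (x : Matrix (Fin 2) (Fin 2) ℂ) :
    flip j k * j k x = j (k+1) x * flip j k := by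
  have h1 : ∀ c d : Fin 2, flip j k * j k (mu c d) = j (k+1) (mu c d) * flip j k := by
    intro c d
    unfold flip
    rw [Finset.sum_mul, Finset.mul_sum]
    have l1 : ∀ a : Fin 2, (∑ b, j k (mu a b) * j (k+1) (mu b a)) * j k (mu c d) =
        j k (mu a d) * j (k+1) (mu c a) := by
      intro a
      rw [Finset.sum_mul]
      have : ∀ b : Fin 2, j k (mu a b) * j (k+1) (mu b a) * j k (mu c d) =
          if b = c then j k (mu a d) * j (k+1) (mu c a) else 0 := by
        intro b
        rw [mul_assoc, ← hj k (k+1) (by omega), ← mul_assoc, ← map_mul, mu_mul]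
        split_ifs with h
        · subst h; rfl
        · simp
      simp [this]
    have l2 : ∀ a : Fin 2, j (k+1) (mu c d) * (∑ b, j k (mu a b) * j (k+1) (mu b a)) =
        j k (mu a d) * j (k+1) (mu c a) := by
      intro a
      rw [Finset.mul_sum]
      have : ∀ b : Fin 2, j (k+1) (mu c d) * (j k (mu a b) * j (k+1) (mu b a)) =
          if d = b then j k (mu a d) * j (k+1) (mu c a) else 0 := by
        intro b
        rw [← mul_assoc, ← hj k (k+1) (by omega), mul_assoc, ← map_mul, mu_mul]
        split_ifs with h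
        · subst h; rfl
        · simp
      simp [this]
    simp only [l1, l2]
  generalize flip j k = F at h1 ⊢
  rw [mat_eq_sum x]
  simp only [map_sum, map_smul, Finset.mul_sum, Finset.sum_mul, mul_smul_comm, smul_mul_assoc, h1]

lemma flip_comm (k l : ℕ) (h1 : l ≠ k) (h2 : l ≠ k + 1) (x : Matrix (Fin 2) (Fin 2) ℂ) :
    flip j k * j l x = j l x * flip j k := by
  unfold flip
  simp only [Finset.mul_sum, Finset.sum_mul]
  refine Finset.sum_congr rfl fun c _ => Finset.sum_congr rfl fun d _ => ?_
  rw [mul_assoc, hj (k+1) l h2.symm, ← mul_assoc, hj k l h1.symm, mul_assoc]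

lemma flip_sq (k : ℕ) : flip j k * flip j k = 1 := by
  have h1 : ∀ a b : Fin 2, flip j k * (j k (mu a b) * j (k+1) (mu b a)) =
      j k (mu b b) * j (k+1) (mu a a) := by
    intro a b
    unfold flip
    rw [Finset.sum_mul, Finset.sum_eq_single b, Finset.sum_mul, Finset.sum_eq_single a]
    · rw [show j k (mu b a) * j (k+1) (mu a b) * (j k (mu a b) * j (k+1) (mu b a)) =
        j k (mu b a) * (j (k+1) (mu a b) * j k (mu a b)) * j (k+1) (mu b a) by simp only [mul_assoc],
        ← hj k (k+1) (by omega),
        show j k (mu b a) * (j k (mu a b) * j (k+1) (mu a b)) * j (k+1) (mu b a) =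
        (j k (mu b a) * j k (mu a b)) * (j (k+1) (mu a b) * j (k+1) (mu b a)) by
          simp only [mul_assoc], ← map_mul, ← map_mul, mu_mul, mu_mul, if_pos rfl, if_pos rfl]
    · intro d _ hd
      rw [show j k (mu b d) * j (k+1) (mu d b) * (j k (mu a b) * j (k+1) (mu b a)) =
        j k (mu b d) * (j (k+1) (mu d b) * j k (mu a b)) * j (k+1) (mu b a) by simp only [mul_assoc],
        ← hj k (k+1) (by omega),
        show j k (mu b d) * (j k (mu a b) * j (k+1) (mu d b)) * j (k+1) (mu b a) =
        (j k (mu b d) * j k (mu a b)) * (j (k+1) (mu d b) * j (k+1) (mu b a)) by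
          simp only [mul_assoc], ← map_mul, mu_mul, if_neg hd]
      simp
    · simp
    · intro c _ hc
      rw [Finset.sum_mul]
      refine Finset.sum_eq_zero fun d _ => ?_
      rw [show j k (mu c d) * j (k+1) (mu d c) * (j k (mu a b) * j (k+1) (mu b a)) =
        j k (mu c d) * (j (k+1) (mu d c) * j k (mu a b)) * j (k+1) (mu b a) by simp only [mul_assoc],
        ← hj k (k+1) (by omega),
        show j k (mu c d) * (j k (mu a b) * j (k+1) (mu d c)) * j (k+1) (mu b a) =
        (j k (mu c d) * j k (mu a b)) * (j (k+1) (mu d c) * j (k+1) (mu b a)) by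
          simp only [mul_assoc], ← map_mul (j (k+1)), mu_mul d c b a, if_neg hc]
      simp
    · simp
  calc flip j k * flip j k = ∑ a, ∑ b, flip j k * (j k (mu a b) * j (k+1) (mu b a)) := by
        conv_lhs => enter [2]; unfold flip
        simp only [Finset.mul_sum]
    _ = ∑ a, ∑ b, j k (mu b b) * j (k+1) (mu a a) := by simp only [h1]
    _ = 1 := by
        rw [Finset.sum_comm]
        simp only [← Finset.mul_sum, ← Finset.sum_mul, ← map_sum, sum_mu, map_one, mul_one]

end flips

end Pool.Agent.Helper234.Brown
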