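import Pool.Agent.Helper234.BrownE

open scoped BoundedContinuousFunction ComplexOrder Topology InnerProductSpace
open Filter

namespace Pool.Agent.Helper234.Brown

universe u v w

variable {R : Type u} [CStarAlgebra R] {t : PTr R}

section shift

variable (j : ℕ → (Matrix (Fin 2) (Fin 2) ℂ →⋆ₐ[ℂ] R))

/-- product of the first flips -/
noncomputable def wu : ℕ → R
  | 0 => 1
  | m + 1 => wu m * flip j m

variable (hj : ∀ k l, k ≠ l → ∀ x y, j k x * j l y = j l y * j k x)
include hj

lemma wu_unitary (m : ℕ) : star (wu j m) * wu j m = 1 ∧ wu j m * star (wu j m) = 1 := by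
  induction m with
  | zero => simp [wu]
  | succ m ih =>
    constructor
    · rw [wu, star_mul, flip_star j hj]
      calc flip j m * star (wu j m) * (wu j m * flip j m)
          = flip j m * (star (wu j m) * wu j m) * flip j m := by simp only [mul_assoc]
        _ = 1 := by rw [ih.1, mul_one, flip_sq j hj]
    · rw [wu, star_mul, flip_star j hj]
      calc wu j m * flip j m * (flip j m * star (wu j m))
          = wu j m * (flip j m * flip j m) * star (wu j m) := by simp only [mul_assoc]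
        _ = 1 := by rw [flip_sq j hj, mul_one, ih.2]

lemma wu_comm (m l : ℕ) (h : m < l) (x : Matrix (Fin 2) (Fin 2) ℂ) :
    wu j m * j l x = j l x * wu j m := by
  induction m with
  | zero => simp [wu]
  | succ m ih =>
    rw [wu, mul_assoc, flip_comm j hj m l (by omega) (by omega), ← mul_assoc, ih (by omega), mul_assoc]

lemma wu_shift (m k : ℕ) (h : k < m) (x : Matrix (Fin 2) (Fin 2) ℂ) :
    wu j m * j k x = j (k+1) x * wu j m := by
  induction m with
  | zero => omega
  | succ m ih =>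
    rcases Nat.lt_succ_iff_lt_or_eq.mp h with h1 | h1
    · rw [wu, mul_assoc, flip_comm j hj m k (by omega) (by omega), ← mul_assoc, ih h1, mul_assoc]
    · subst h1
      rw [wu, mul_assoc, flip_mul_j j hj, ← mul_assoc, wu_comm j hj k (k+1) (by omega), mul_assoc]

/-- conjugation by a unitary as a star hom -/
noncomputable def conjHom {A : Type*} [CStarAlgebra A] (u : A) (h1 : star u * u = 1) (h2 : u * star u = 1) : A →⋆ₐ[ℂ] A where
  toFun x := u * x * star u
  map_one' := by simpa using h2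
  map_mul' x y := by
    rw [show u * x * star u * (u * y * star u) = u * x * (star u * u) * y * star u by
      simp only [mul_assoc], h1, mul_one, ← mul_assoc]
  map_zero' := by simp
  map_add' x y := by simp [mul_add, add_mul]
  commutes' r := by
    rw [← Algebra.commutes, mul_assoc, h2, mul_one]
  map_star' x := by simp [star_mul, mul_assoc]

omit hj in
lemma conjHom_apply {A : Type*} [CStarAlgebra A] (u : A) (h1 : star u * u = 1) (h2 : u * star u = 1) (x : A) :
    conjHom u h1 h2 x = u * x * star u := rfl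

omit hj in
lemma tr_conj {A : Type*} [CStarAlgebra A] (t : PTr A) (u : A) (h1 : star u * u = 1) (x : A) :
    t.tr (u * x * star u) = t.tr x := by
  rw [t.tr_comm, ← mul_assoc, h1, one_mul]

omit hj in
lemma n2_conj {A : Type*} [CStarAlgebra A] (t : PTr A) (u : A) (h1 : star u * u = 1) (x : A) :
    t.n2 (u * x * star u) = t.n2 x := by
  rw [t.n2_mul_unitary (by simpa using h1), t.n2_unitary_mul h1]

/-- eventual stability on the algebraic part -/
lemma eventually_const (a : R) (ha : a ∈ Algebra.adjoin ℂ (⋃ k, Set.range (j k))) :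
    ∃ m₀ b, ∀ m ≥ m₀, wu j m * a * star (wu j m) = b := by
  induction ha using Algebra.adjoin_induction with
  | mem x hx =>
    obtain ⟨k, y, rfl⟩ := Set.mem_iUnion.mp hx
    refine ⟨k + 1, j (k+1) y, fun m hm => ?_⟩
    rw [wu_shift j hj m k (by omega), mul_assoc, (wu_unitary j hj m).2, mul_one]
  | algebraMap r =>
    refine ⟨0, algebraMap ℂ R r, fun m _ => ?_⟩
    rw [← Algebra.commutes, mul_assoc, (wu_unitary j hj m).2, mul_one]
  | add x y _ _ hx hy =>
    obtain ⟨m1, b1, h1⟩ := hx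
    obtain ⟨m2, b2, h2⟩ := hy
    refine ⟨max m1 m2, b1 + b2, fun m hm => ?_⟩
    rw [mul_add, add_mul, h1 m (le_trans (le_max_left _ _) hm), h2 m (le_trans (le_max_right _ _) hm)]
  | mul x y _ _ hx hy =>
    obtain ⟨m1, b1, h1⟩ := hx
    obtain ⟨m2, b2, h2⟩ := hy
    refine ⟨max m1 m2, b1 * b2, fun m hm => ?_⟩
    rw [← h1 m (le_trans (le_max_left _ _) hm), ← h2 m (le_trans (le_max_right _ _) hm)]
    rw [show wu j m * x * star (wu j m) * (wu j m * y * star (wu j m)) =
      wu j m * x * (star (wu j m) * wu j m) * y * star (wu j m) by simp only [mul_assoc],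
      (wu_unitary j hj m).1, mul_one, ← mul_assoc]

/-- The shift endomorphism. -/
lemma exists_shift (hv : IsVN t)
    (hd : ∀ x, ∀ ε : ℝ, 0 < ε → ∃ y ∈ Algebra.adjoin ℂ (⋃ k, Set.range (j k)), t.n2 (x - y) < ε) :
    ∃ S : R →⋆ₐ[ℂ] R, (∀ x, Tendsto (fun m => t.n2 (wu j m * x * star (wu j m) - S x)) atTop (𝓝 0)) ∧
      (∀ x, t.tr (S x) = t.tr x) := by
  refine exists_limit_hom hv (fun m => conjHom (wu j m) (wu_unitary j hj m).1 (wu_unitary j hj m).2)
    (fun m x => tr_conj t _ (wu_unitary j hj m).1 x) ?_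
  intro x ε hε
  obtain ⟨y, hy, hxy⟩ := hd x (ε / 2) (by positivity)
  obtain ⟨m₀, b, hb⟩ := eventually_const j hj y hy
  refine ⟨m₀, fun m hm n hn => ?_⟩
  simp only [conjHom_apply]
  have e : wu j m * x * star (wu j m) - wu j n * x * star (wu j n) =
      wu j m * (x - y) * star (wu j m) - wu j n * (x - y) * star (wu j n) := by
    simp only [mul_sub, sub_mul, hb m hm, hb n hn]; abel
  rw [e]
  refine (t.n2_sub_le _ _).trans_lt ?_
  rw [n2_conj t _ (wu_unitary j hj m).1, n2_conj t _ (wu_unitary j hj n).1]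
  linarith

end shift

/-- properties of a shift, abstractly -/
structure IsShift (t : PTr R) (j : ℕ → (Matrix (Fin 2) (Fin 2) ℂ →⋆ₐ[ℂ] R)) (S : R →⋆ₐ[ℂ] R) : Prop where
  hj : ∀ k l, k ≠ l → ∀ x y, j k x * j l y = j l y * j k x
  hd : ∀ x, ∀ ε : ℝ, 0 < ε → ∃ y ∈ Algebra.adjoin ℂ (⋃ k, Set.range (j k)), t.n2 (x - y) < ε
  lim : ∀ x, Tendsto (fun m => t.n2 (wu j m * x * star (wu j m) - S x)) atTop (𝓝 0)
  tr_eq : ∀ x, t.tr (S x) = t.tr x

namespace IsShift

variable {j : ℕ → (Matrix (Fin 2) (Fin 2) ℂ →⋆ₐ[ℂ] R)} {S : R →⋆ₐ[ℂ] R}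

lemma n2_eq (h : IsShift t j S) (x : R) : t.n2 (S x) = t.n2 x := by
  rw [PTr.n2, PTr.n2, ← map_star, ← map_mul, h.tr_eq]

lemma apply_j (h : IsShift t j S) (hv : IsVN t) (k : ℕ) (x : Matrix (Fin 2) (Fin 2) ℂ) :
    S (j k x) = j (k+1) x := by
  refine hv.lim_unique (h.lim (j k x)) ?_
  refine tendsto_const_nhds.congr' ?_
  filter_upwards [eventually_ge_atTop (k+1)] with m hm
  rw [wu_shift j h.hj m k (by omega), mul_assoc, (wu_unitary j h.hj m).2, mul_one, sub_self, t.n2_zero]

/-- elements of the algebraic part in the shifted form -/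
lemma form (h : IsShift t j S) (hv : IsVN t) (hc : ∀ x y, j 0 x * S y = S y * j 0 x) (a : R)
    (ha : a ∈ Algebra.adjoin ℂ (⋃ k, Set.range (j k))) :
    ∃ f : Fin 2 → Fin 2 → R, a = ∑ p, ∑ q, j 0 (mu p q) * S (f p q) := by
  have hS : ∀ y, ∃ f : Fin 2 → Fin 2 → R, S y = ∑ p, ∑ q, j 0 (mu p q) * S (f p q) := by
    intro y
    refine ⟨fun p q => if p = q then y else 0, ?_⟩
    have : ∀ p q : Fin 2, j 0 (mu p q) * S (if p = q then y else 0) =
        if p = q then j 0 (mu p p) * S y else 0 := by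
      intro p q
      split_ifs with h
      · subst h; rfl
      · simp
    simp only [this, Finset.sum_ite_eq, Finset.mem_univ, if_true]
    rw [← Finset.sum_mul, ← map_sum, sum_mu, map_one, one_mul]
  induction ha using Algebra.adjoin_induction with
  | mem x hx =>
    obtain ⟨k, y, rfl⟩ := Set.mem_iUnion.mp hx
    rcases k with _ | k
    · refine ⟨fun p q => algebraMap ℂ R (y p q), ?_⟩
      conv_lhs => rw [mat_eq_sum y]
      simp only [map_sum, map_smul]
      refine Finset.sum_congr rfl fun c _ => Finset.sum_congr rfl fun d _ => ?_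
      rw [AlgHomClass.commutes, Algebra.algebraMap_eq_smul_one, mul_smul_comm, mul_one]
    · rw [← h.apply_j hv]
      exact hS _
  | algebraMap r =>
    have := hS (algebraMap ℂ R r)
    rwa [AlgHomClass.commutes] at this
  | add x y _ _ hx hy =>
    obtain ⟨f, rfl⟩ := hx
    obtain ⟨g, rfl⟩ := hy
    refine ⟨fun p q => f p q + g p q, ?_⟩
    simp only [map_add, mul_add, Finset.sum_add_distrib]
  | mul x y _ _ hx hy =>
    obtain ⟨f, rfl⟩ := hx
    obtain ⟨g, rfl⟩ := hy
    refine ⟨fun p q => ∑ r, f p r * g r q, ?_⟩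
    have key : ∀ p r r' q, j 0 (mu p r) * S (f p r) * (j 0 (mu r' q) * S (g r' q)) =
        if r = r' then j 0 (mu p q) * S (f p r * g r q) else 0 := by
      intro p r r' q
      rw [show j 0 (mu p r) * S (f p r) * (j 0 (mu r' q) * S (g r' q)) =
        j 0 (mu p r) * (S (f p r) * j 0 (mu r' q)) * S (g r' q) by simp only [mul_assoc], ← hc,
        show j 0 (mu p r) * (j 0 (mu r' q) * S (f p r)) * S (g r' q) =
        (j 0 (mu p r) * j 0 (mu r' q)) * (S (f p r) * S (g r' q)) by simp only [mul_assoc],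
        ← map_mul, mu_mul]
      split_ifs with h
      · subst h; rw [map_mul]
      · simp
    rw [Finset.sum_mul]
    refine Finset.sum_congr rfl fun p _ => ?_
    rw [Finset.sum_mul]
    have k2 : ∀ r : Fin 2, j 0 (mu p r) * S (f p r) * ∑ p', ∑ q, j 0 (mu p' q) * S (g p' q) =
        ∑ q, j 0 (mu p q) * S (f p r * g r q) := by
      intro r
      simp only [Finset.mul_sum, key]
      rw [Finset.sum_comm]
      refine Finset.sum_congr rfl fun q _ => ?_
      simp
    simp only [k2]
    rw [Finset.sum_comm]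
    refine Finset.sum_congr rfl fun q _ => ?_
    rw [map_sum, Finset.mul_sum]

lemma comm (h : IsShift t j S) (hv : IsVN t) (x : Matrix (Fin 2) (Fin 2) ℂ) (y : R) :
    j 0 x * S y = S y * j 0 x := by
  have h1 : ∀ a ∈ Algebra.adjoin ℂ (⋃ k, Set.range (j k)), j 0 x * S a = S a * j 0 x := by
    intro a ha
    induction ha using Algebra.adjoin_induction with
    | mem a ha =>
      obtain ⟨k, y, rfl⟩ := Set.mem_iUnion.mp ha
      rw [h.apply_j hv, h.hj 0 (k+1) (by omega)]
    | algebraMap r => rw [AlgHomClass.commutes, Algebra.commutes]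
    | add a b _ _ ha hb => rw [map_add, mul_add, add_mul, ha, hb]
    | mul a b _ _ ha hb => rw [map_mul, ← mul_assoc, ha, mul_assoc, hb, mul_assoc]
  have h2 : t.n2 (j 0 x * S y - S y * j 0 x) = 0 := by
    apply le_antisymm _ (t.n2_nonneg _)
    apply le_of_forall_pos_le_add
    intro ε hε
    have hpos : 0 < 2 * ‖j 0 x‖ + 1 := by positivity
    obtain ⟨a, ha, hya⟩ := h.hd y (ε / (2 * ‖j 0 x‖ + 1)) (by positivity)
    have e : j 0 x * S y - S y * j 0 x = j 0 x * S (y - a) - S (y - a) * j 0 x := by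
      rw [map_sub, mul_sub, sub_mul, h1 a ha]; abel
    rw [e, zero_add]
    refine (t.n2_sub_le _ _).trans ?_
    have e1 := t.n2_mul_le (j 0 x) (S (y - a))
    have e2 := t.n2_mul_le' (S (y - a)) (j 0 x)
    rw [h.n2_eq] at e1 e2
    have e3 : t.n2 (y - a) * (2 * ‖j 0 x‖ + 1) ≤ ε := by
      rw [lt_div_iff₀ hpos] at hya; exact hya.le
    nlinarith [t.n2_nonneg (y - a)]
  exact sub_eq_zero.mp (hv.n2_eq_zero h2)

/-- the averaging map -/
noncomputable def avg (j : ℕ → (Matrix (Fin 2) (Fin 2) ℂ →⋆ₐ[ℂ] R)) (x : R) : R :=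
  ((1 : ℂ) / 2) • ∑ p, ∑ q, j 0 (mu p q) * x * j 0 (mu q p)

omit [CStarAlgebra R] in
lemma norm_half_le : ‖((1 : ℂ) / 2)‖ = 1 / 2 := by norm_num

lemma norm_j_mu_le (j : ℕ → (Matrix (Fin 2) (Fin 2) ℂ →⋆ₐ[ℂ] R)) (k : ℕ) (p q : Fin 2) :
    ‖j k (mu p q)‖ ≤ 1 := by
  have h1 : IsStarProjection (j k (mu q q)) := by
    constructor
    · rw [IsIdempotentElem, ← map_mul, mu_mul, if_pos rfl]
    · rw [isSelfAdjoint_iff, ← map_star, star_mu]
  have h2 : ‖j k (mu p q)‖ * ‖j k (mu p q)‖ = ‖j k (mu q q)‖ := by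
    rw [← CStarRing.norm_star_mul_self, ← map_star, star_mu, ← map_mul, mu_mul, if_pos rfl]
  have h3 : ‖j k (mu q q)‖ ≤ 1 := h1.norm_le
  nlinarith [norm_nonneg (j k (mu p q))]

lemma n2_avg_le (t : PTr R) (j : ℕ → (Matrix (Fin 2) (Fin 2) ℂ →⋆ₐ[ℂ] R)) (x : R) :
    t.n2 (avg j x) ≤ 2 * t.n2 x := by
  have key : ∀ p q : Fin 2, t.n2 (j 0 (mu p q) * x * j 0 (mu q p)) ≤ t.n2 x := by
    intro p q
    have h1 := t.n2_mul_le' (j 0 (mu p q) * x) (j 0 (mu q p))
    have h2 := t.n2_mul_le (j 0 (mu p q)) x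
    have h3 := norm_j_mu_le j 0 p q
    have h4 := norm_j_mu_le j 0 q p
    have h5 := t.n2_nonneg (j 0 (mu p q) * x)
    have h6 := t.n2_nonneg x
    nlinarith [norm_nonneg (j 0 (mu p q)), norm_nonneg (j 0 (mu q p))]
  rw [avg, t.n2_smul, norm_half_le]
  simp only [Fin.sum_univ_two]
  have := t.n2_add_le (j 0 (mu 0 0) * x * j 0 (mu 0 0) + j 0 (mu 0 1) * x * j 0 (mu 1 0))
    (j 0 (mu 1 0) * x * j 0 (mu 0 1) + j 0 (mu 1 1) * x * j 0 (mu 1 1))
  have h1 := t.n2_add_le (j 0 (mu 0 0) * x * j 0 (mu 0 0)) (j 0 (mu 0 1) * x * j 0 (mu 1 0))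
  have h2 := t.n2_add_le (j 0 (mu 1 0) * x * j 0 (mu 0 1)) (j 0 (mu 1 1) * x * j 0 (mu 1 1))
  linarith [key 0 0, key 0 1, key 1 0, key 1 1]

lemma avg_of_comm (z : R) (hz : ∀ x, j 0 x * z = z * j 0 x) : avg j z = z := by
  unfold avg
  have : ∀ p q : Fin 2, j 0 (mu p q) * z * j 0 (mu q p) = z * j 0 (mu p p) := by
    intro p q
    rw [hz, mul_assoc, ← map_mul, mu_mul, if_pos rfl]
  simp only [this, Finset.sum_const, Finset.card_univ, Fintype.card_fin, ← Finset.smul_sum,
    ← Finset.mul_sum, ← map_sum, sum_mu, map_one, mul_one]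
  rw [← Nat.cast_smul_eq_nsmul ℂ, smul_smul]
  norm_num

lemma avg_form (h : IsShift t j S) (hv : IsVN t) (a : R)
    (ha : a ∈ Algebra.adjoin ℂ (⋃ k, Set.range (j k))) : ∃ b, avg j a = S b := by
  obtain ⟨f, rfl⟩ := h.form hv (h.comm hv) a ha
  refine ⟨((1 : ℂ) / 2) • ∑ l, f l l, ?_⟩
  unfold avg
  rw [map_smul]
  congr 1
  have key : ∀ p q : Fin 2, j 0 (mu p q) * (∑ c, ∑ d, j 0 (mu c d) * S (f c d)) * j 0 (mu q p) =
      j 0 (mu p p) * S (f q q) := by
    intro p q
    have k2 : ∀ c d : Fin 2, j 0 (mu p q) * (j 0 (mu c d) * S (f c d)) * j 0 (mu q p) =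
        if q = c then (if d = q then j 0 (mu p p) * S (f c d) else 0) else 0 := by
      intro c d
      rw [show j 0 (mu p q) * (j 0 (mu c d) * S (f c d)) * j 0 (mu q p) =
        (j 0 (mu p q) * j 0 (mu c d)) * (S (f c d) * j 0 (mu q p)) by simp only [mul_assoc],
        ← h.comm hv, ← mul_assoc, ← map_mul, ← map_mul, mu_mul]
      split_ifs with h1 h2
      · rw [mu_mul, if_pos h2]
      · rw [mu_mul, if_neg h2]; simp
      · simp
    simp only [Finset.mul_sum, Finset.sum_mul, k2]
    simp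
  simp only [key]
  simp only [← Finset.mul_sum, ← Finset.sum_mul, ← map_sum, sum_mu, map_one, one_mul]

lemma surj (h : IsShift t j S) (hv : IsVN t) (z : R) (hz : ∀ x, j 0 x * z = z * j 0 x) :
    ∃ c, S c = z := by
  have hu := wu_unitary j h.hj
  -- conjugation of values of S converges
  have hconv : ∀ b, Tendsto (fun m => t.n2 (star (wu j m) * S b * wu j m - b)) atTop (𝓝 0) := by
    intro b
    refine (h.lim b).congr (fun m => ?_)
    have e : wu j m * b * star (wu j m) - S b =
        -(wu j m * (star (wu j m) * S b * wu j m - b) * star (wu j m)) := by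
      rw [mul_sub, sub_mul, show wu j m * (star (wu j m) * S b * wu j m) * star (wu j m) =
        (wu j m * star (wu j m)) * S b * (wu j m * star (wu j m)) by simp only [mul_assoc],
        (hu m).2, one_mul, mul_one]
      abel
    rw [e, t.n2_neg, n2_conj t _ (hu m).1]
  have happ : ∀ ε : ℝ, 0 < ε → ∃ b, t.n2 (z - S b) < ε := by
    intro ε hε
    obtain ⟨a, ha, hza⟩ := h.hd z (ε / 2) (by positivity)
    obtain ⟨b, hb⟩ := h.avg_form hv a ha
    refine ⟨b, ?_⟩
    have e : z - S b = avg j (z - a) := by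
      have : avg j (z - a) = avg j z - avg j a := by
        simp only [avg, mul_sub, sub_mul, Finset.sum_sub_distrib, smul_sub]
      rw [this, hb, avg_of_comm z hz]
    rw [e]
    have := n2_avg_le t j (z - a)
    linarith
  have hn : ∀ m x, t.n2 (star (wu j m) * x * wu j m) = t.n2 x := by
    intro m x
    rw [t.n2_mul_unitary (hu m).2, t.n2_unitary_mul (by simpa using (hu m).2)]
  obtain ⟨c, -, hc⟩ := hv.complete' (fun m => star (wu j m) * z * wu j m) ‖z‖ (by
    intro m
    have h1 : ‖wu j m‖ ≤ 1 := by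
      rcases subsingleton_or_nontrivial R with hs | hs
      · rw [Subsingleton.elim (wu j m) 0]; simp
      · have : wu j m ∈ unitary R := Unitary.mem_iff.mpr ⟨(hu m).1, (hu m).2⟩
        rw [CStarRing.norm_of_mem_unitary this]
    calc ‖star (wu j m) * z * wu j m‖ ≤ ‖star (wu j m)‖ * ‖z‖ * ‖wu j m‖ := by
          refine (norm_mul_le _ _).trans ?_
          gcongr
          exact norm_mul_le _ _
      _ ≤ 1 * ‖z‖ * 1 := by
          rw [norm_star]; gcongr
      _ = ‖z‖ := by ring) (by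
    intro ε hε
    obtain ⟨b, hb⟩ := happ (ε / 4) (by positivity)
    have h1 := (tendsto_order.1 (hconv b)).2 (ε / 4) (by positivity)
    obtain ⟨N, hN⟩ := eventually_atTop.mp h1
    refine ⟨N, fun m hm n hn' => ?_⟩
    have e : star (wu j m) * z * wu j m - star (wu j n) * z * wu j n =
      (star (wu j m) * (z - S b) * wu j m - star (wu j n) * (z - S b) * wu j n) +
      ((star (wu j m) * S b * wu j m - b) - (star (wu j n) * S b * wu j n - b)) := by
      simp only [mul_sub, sub_mul]; abel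
    rw [e]
    refine (t.n2_add_le _ _).trans_lt ?_
    have e1 := t.n2_sub_le (star (wu j m) * (z - S b) * wu j m) (star (wu j n) * (z - S b) * wu j n)
    rw [hn, hn] at e1
    have e2 := t.n2_sub_le (star (wu j m) * S b * wu j m - b) (star (wu j n) * S b * wu j n - b)
    have e3 := hN m hm
    have e4 := hN n hn'
    linarith)
  refine ⟨c, ?_⟩
  refine hv.lim_unique (h.lim c) ?_
  refine hc.congr (fun m => ?_)
  have e : wu j m * c * star (wu j m) - z =
      -(wu j m * (star (wu j m) * z * wu j m - c) * star (wu j m)) := by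
    rw [mul_sub, sub_mul, show wu j m * (star (wu j m) * z * wu j m) * star (wu j m) =
      (wu j m * star (wu j m)) * z * (wu j m * star (wu j m)) by simp only [mul_assoc],
      (hu m).2, one_mul, mul_one]
    abel
  rw [e, t.n2_neg, n2_conj t _ (hu m).1]

/-- the corner embedding -/
noncomputable def corner (h : IsShift t j S) (hv : IsVN t) (i : Fin 2) : R →⋆ₙₐ[ℂ] R where
  toFun x := j 0 (mu i i) * S x
  map_zero' := by simp
  map_add' x y := by simp [mul_add]
  map_smul' c x := by simp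
  map_mul' x y := by
    rw [show j 0 (mu i i) * S x * (j 0 (mu i i) * S y) =
      j 0 (mu i i) * (S x * j 0 (mu i i)) * S y by simp only [mul_assoc], ← h.comm hv,
      ← mul_assoc, ← map_mul, mu_mul, if_pos rfl, map_mul, mul_assoc]
  map_star' x := by
    rw [star_mul, ← map_star, ← map_star, star_mu, h.comm hv]

lemma tr_corner (h : IsShift t j S) (hv : IsVN t) (i : Fin 2) (x : R) :
    t.tr (j 0 (mu i i) * S x) = t.tr x / 2 := by
  have h1 : t.tr (j 0 (mu 0 0) * S x) = t.tr (j 0 (mu 1 1) * S x) := by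
    have e0 : j 0 (mu 0 0) = j 0 (mu 0 1) * j 0 (mu 1 0) := by rw [← map_mul, mu_mul, if_pos rfl]
    have e1 : j 0 (mu 1 1) = j 0 (mu 1 0) * j 0 (mu 0 1) := by rw [← map_mul, mu_mul, if_pos rfl]
    rw [e0, mul_assoc, t.tr_comm, h.comm hv, mul_assoc, ← e1, ← h.comm hv]
  have h2 : t.tr (j 0 (mu 0 0) * S x) + t.tr (j 0 (mu 1 1) * S x) = t.tr x := by
    rw [← map_add, ← add_mul, ← map_add, show mu 0 0 + mu 1 1 = 1 by
      rw [← sum_mu, Fin.sum_univ_two], map_one, one_mul, h.tr_eq]
  fin_cases i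
  · show t.tr (j 0 (mu 0 0) * S x) = _
    rw [← h2, ← h1]; ring
  · show t.tr (j 0 (mu 1 1) * S x) = _
    rw [← h2, h1]; ring

lemma corner_surj (h : IsShift t j S) (hv : IsVN t) (i : Fin 2) (y : R)
    (hy : j 0 (mu i i) * y * j 0 (mu i i) = y) : ∃ x, j 0 (mu i i) * S x = y := by
  set z := ∑ k, j 0 (mu k i) * y * j 0 (mu i k) with hz
  have hcomm : ∀ x, j 0 x * z = z * j 0 x := by
    have hm : ∀ a b : Fin 2, j 0 (mu a b) * z = z * j 0 (mu a b) := by
      intro a b
      have l : ∀ k : Fin 2, j 0 (mu a b) * (j 0 (mu k i) * y * j 0 (mu i k)) =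
          if b = k then j 0 (mu a i) * y * j 0 (mu i b) else 0 := by
        intro k
        rw [← mul_assoc, ← mul_assoc, ← map_mul, mu_mul]
        split_ifs with h1
        · subst h1; rfl
        · simp
      have r : ∀ k : Fin 2, (j 0 (mu k i) * y * j 0 (mu i k)) * j 0 (mu a b) =
          if k = a then j 0 (mu a i) * y * j 0 (mu i b) else 0 := by
        intro k
        rw [mul_assoc, ← map_mul, mu_mul]
        split_ifs with h1
        · subst h1; rfl
        · simp
      rw [hz, Finset.mul_sum, Finset.sum_mul]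
      simp only [l, r]
      simp
    intro x
    rw [mat_eq_sum x]
    simp only [map_sum, map_smul, Finset.mul_sum, Finset.sum_mul, mul_smul_comm, smul_mul_assoc, hm]
  obtain ⟨c, hc⟩ := h.surj hv z hcomm
  refine ⟨c, ?_⟩
  rw [hc, hz, Finset.mul_sum, Finset.sum_eq_single i]
  · rw [← mul_assoc, ← mul_assoc, ← map_mul, mu_mul, if_pos rfl, hy]
  · intro k _ hk
    rw [← mul_assoc, ← mul_assoc, ← map_mul, mu_mul, if_neg (Ne.symm hk)]
    simp
  · simp

end IsShift

end Pool.Agent.Helper234.Brown
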