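import Pool.Agent.Helper234.BrownF

open scoped BoundedContinuousFunction ComplexOrder Topology InnerProductSpace
open Filter

namespace Pool.Agent.Helper234.Brown

universe u v w

variable {R : Type u} [CStarAlgebra R]

/-- a map on representatives respects convex combinations -/
def IsAffineRep {M : Type v} [CStarAlgebra M] (t : PTr R) (U : Ultrafilter ℕ) {B : Type w}
    [AddCommGroup B] [Module ℝ B] (Φ : (M →⋆ₐ[ℂ] Ultrapower t U) → B) : Prop :=
  ∀ (k : ℕ) (s : Fin k → ℝ) (ρ : Fin k → (M →⋆ₐ[ℂ] Ultrapower t U)) (π : M →⋆ₐ[ℂ] Ultrapower t U),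
    IsConvexComb t U s ρ π → Φ π = ∑ i, s i • Φ (ρ i)

section midpoint

variable {t : PTr R} {j : ℕ → (Matrix (Fin 2) (Fin 2) ℂ →⋆ₐ[ℂ] R)} {S : R →⋆ₐ[ℂ] R}

/-- corner map on sequences -/
noncomputable def cornerSeq (h : IsShift t j S) (hv : IsVN t) (i : Fin 2) (x : ℕ →ᵇ R) : ℕ →ᵇ R :=
  BoundedContinuousFunction.ofNormedAddCommGroupDiscrete (fun n => h.corner hv i (x n)) ‖x‖
    (fun n => (NonUnitalStarAlgHom.norm_apply_le (h.corner hv i) _).trans (x.norm_coe_le_norm n))

lemma cornerSeq_apply (h : IsShift t j S) (hv : IsVN t) (i : Fin 2) (x : ℕ →ᵇ R) (n : ℕ) :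
    cornerSeq h hv i x n = h.corner hv i (x n) := rfl

lemma corner_tr (h : IsShift t j S) (hv : IsVN t) (i : Fin 2) (x : R) :
    t.tr (h.corner hv i x) = t.tr x / 2 := h.tr_corner hv i x

lemma corner_n2_sq (h : IsShift t j S) (hv : IsVN t) (i : Fin 2) (x : R) :
    t.n2 (h.corner hv i x) ^ 2 = t.n2 x ^ 2 / 2 := by
  rw [t.n2_sq, t.n2_sq, ← map_star, ← map_mul, corner_tr]
  simp

lemma ultra_cornerSeq_n2_sq (h : IsShift t j S) (hv : IsVN t) (U : Ultrafilter ℕ) (i : Fin 2) (x : ℕ →ᵇ R) :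
    (t.ultra U).n2 (cornerSeq h hv i x) ^ 2 = (t.ultra U).n2 x ^ 2 / 2 := by
  have h1 := (t.tendsto_n2 U (cornerSeq h hv i x)).pow 2
  have h2 := ((t.tendsto_n2 U x).pow 2).div_const 2
  refine tendsto_nhds_unique h1 (h2.congr (fun n => ?_))
  rw [cornerSeq_apply, corner_n2_sq]

/-- corner map on the ultrapower -/
noncomputable def cornerU (h : IsShift t j S) (hv : IsVN t) (U : Ultrafilter ℕ) (i : Fin 2)
    (X : Ultrapower t U) : Ultrapower t U :=
  Quotient.liftOn' X (fun x => cls t U (cornerSeq h hv i x)) (by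
    intro x y hxy
    rw [Submodule.quotientRel_def] at hxy
    have h1 := (cls_eq_iff t U x y).mp (Ideal.Quotient.eq.mpr hxy)
    rw [cls_eq_iff]
    have e : cornerSeq h hv i x - cornerSeq h hv i y = cornerSeq h hv i (x - y) := by
      ext n
      simp [cornerSeq_apply]
    rw [e]
    have := ultra_cornerSeq_n2_sq h hv U i (x - y)
    rw [h1] at this
    simpa using this)

lemma cornerU_cls (h : IsShift t j S) (hv : IsVN t) (U : Ultrafilter ℕ) (i : Fin 2) (x : ℕ →ᵇ R) :
    cornerU h hv U i (cls t U x) = cls t U (cornerSeq h hv i x) := rfl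

variable (h : IsShift t j S) (hv : IsVN t) (U : Ultrafilter ℕ)

lemma cornerU_add (i : Fin 2) (X Y : Ultrapower t U) :
    cornerU h hv U i (X + Y) = cornerU h hv U i X + cornerU h hv U i Y := by
  obtain ⟨x, rfl⟩ := Ideal.Quotient.mk_surjective X
  obtain ⟨y, rfl⟩ := Ideal.Quotient.mk_surjective Y
  rw [← map_add, cornerU_cls, cornerU_cls, cornerU_cls, ← map_add]
  congr 1; ext n; simp [cornerSeq_apply]

lemma cornerU_mul (i : Fin 2) (X Y : Ultrapower t U) :
    cornerU h hv U i (X * Y) = cornerU h hv U i X * cornerU h hv U i Y := by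
  obtain ⟨x, rfl⟩ := Ideal.Quotient.mk_surjective X
  obtain ⟨y, rfl⟩ := Ideal.Quotient.mk_surjective Y
  rw [← map_mul, cornerU_cls, cornerU_cls, cornerU_cls, ← map_mul]
  congr 1; ext n; simp [cornerSeq_apply]

lemma cornerU_star (i : Fin 2) (X : Ultrapower t U) :
    cornerU h hv U i (star X) = star (cornerU h hv U i X) := by
  obtain ⟨x, rfl⟩ := Ideal.Quotient.mk_surjective X
  rw [star_cls, cornerU_cls, cornerU_cls, star_cls]
  congr 1; ext n; simp [cornerSeq_apply, map_star]

lemma cornerU_smul (i : Fin 2) (c : ℂ) (X : Ultrapower t U) :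
    cornerU h hv U i (c • X) = c • cornerU h hv U i X := by
  obtain ⟨x, rfl⟩ := Ideal.Quotient.mk_surjective X
  show cornerU h hv U i (cls t U (c • x)) = cls t U (c • cornerSeq h hv i x)
  rw [cornerU_cls]
  congr 1; ext n; simp [cornerSeq_apply]

lemma corner_orth (i i' : Fin 2) (hi : i ≠ i') (x y : R) :
    h.corner hv i x * h.corner hv i' y = 0 := by
  show j 0 (mu i i) * S x * (j 0 (mu i' i') * S y) = 0
  rw [show j 0 (mu i i) * S x * (j 0 (mu i' i') * S y) =
      j 0 (mu i i) * (S x * j 0 (mu i' i')) * S y by simp only [mul_assoc], ← h.comm hv,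
      ← mul_assoc, ← map_mul, mu_mul, if_neg hi]
  simp

lemma cornerU_orth (i i' : Fin 2) (hi : i ≠ i') (X Y : Ultrapower t U) :
    cornerU h hv U i X * cornerU h hv U i' Y = 0 := by
  obtain ⟨x, rfl⟩ := Ideal.Quotient.mk_surjective X
  obtain ⟨y, rfl⟩ := Ideal.Quotient.mk_surjective Y
  rw [cornerU_cls, cornerU_cls, ← map_mul]
  have : cornerSeq h hv i x * cornerSeq h hv i' y = 0 := by
    ext n
    simp only [BoundedContinuousFunction.coe_mul, Pi.mul_apply, cornerSeq_apply,
      BoundedContinuousFunction.coe_zero, Pi.zero_apply]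
    exact corner_orth h hv i i' hi _ _
  rw [this, map_zero]

lemma cornerU_one : cornerU h hv U 0 1 + cornerU h hv U 1 1 = 1 := by
  have e1 : (1 : Ultrapower t U) = cls t U 1 := (map_one _).symm
  rw [e1, cornerU_cls, cornerU_cls, ← map_add]
  congr 1
  ext n
  simp only [BoundedContinuousFunction.coe_add, Pi.add_apply, cornerSeq_apply,
    BoundedContinuousFunction.coe_one, Pi.one_apply]
  show j 0 (mu 0 0) * S 1 + j 0 (mu 1 1) * S 1 = 1
  rw [map_one, mul_one, mul_one, ← map_add, show mu 0 0 + mu 1 1 = 1 by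
      rw [← sum_mu, Fin.sum_univ_two], map_one]

/-- the direct sum of two homomorphisms -/
noncomputable def midHom {M : Type v} [CStarAlgebra M] (π₀ π₁ : M →⋆ₐ[ℂ] Ultrapower t U) :
    M →⋆ₐ[ℂ] Ultrapower t U where
  toFun x := cornerU h hv U 0 (π₀ x) + cornerU h hv U 1 (π₁ x)
  map_one' := by rw [map_one, map_one, cornerU_one]
  map_mul' x y := by
    rw [map_mul, map_mul, cornerU_mul, cornerU_mul, add_mul, mul_add, mul_add,
      cornerU_orth h hv U 0 1 (by decide), cornerU_orth h hv U 1 0 (by decide)]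
    abel
  map_zero' := by
    have : ∀ i, cornerU h hv U i 0 = 0 := fun i => by
      have := cornerU_smul h hv U i 0 0
      rwa [zero_smul, zero_smul] at this
    rw [map_zero, map_zero, this, this, add_zero]
  map_add' x y := by rw [map_add, map_add, cornerU_add, cornerU_add]; abel
  commutes' r := by
    rw [AlgHomClass.commutes, AlgHomClass.commutes, Algebra.algebraMap_eq_smul_one, cornerU_smul,
      cornerU_smul, ← smul_add, cornerU_one]
  map_star' x := by rw [map_star, map_star, cornerU_star, cornerU_star, star_add]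

lemma midHom_apply {M : Type v} [CStarAlgebra M] (π₀ π₁ : M →⋆ₐ[ℂ] Ultrapower t U) (x : M) :
    midHom h hv U π₀ π₁ x = cornerU h hv U 0 (π₀ x) + cornerU h hv U 1 (π₁ x) := rfl

lemma corner_injective (i : Fin 2) : Function.Injective (h.corner hv i) := by
  rw [injective_iff_map_eq_zero]
  intro x hx
  have h1 := corner_n2_sq h hv i x
  rw [hx, t.n2_zero] at h1
  have h2 : t.n2 x = 0 := by
    have := t.n2_nonneg x
    nlinarith
  exact hv.n2_eq_zero h2

lemma midHom_isConvexComb {M : Type v} [CStarAlgebra M] (π₀ π₁ : M →⋆ₐ[ℂ] Ultrapower t U) :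
    IsConvexComb t U ![1/2, 1/2] ![π₀, π₁] (midHom h hv U π₀ π₁) := by
  refine ⟨fun i _ => h.corner hv i, fun i _ => corner_injective h hv i, ?_, ?_, ?_, ?_⟩
  · intro i n y hy
    have e1 : h.corner hv i 1 = j 0 (mu i i) := by
      show j 0 (mu i i) * S 1 = _
      rw [map_one, mul_one]
    rw [e1] at hy
    exact h.corner_surj hv i y hy
  · intro i n
    rw [corner_tr, t.tr_one]
    fin_cases i <;> simp
  · intro p hp i i' hi
    rw [← map_mul]
    have : p i * p i' = 0 := by
      ext n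
      simp only [BoundedContinuousFunction.coe_mul, Pi.mul_apply,
        BoundedContinuousFunction.coe_zero, Pi.zero_apply, hp]
      exact corner_orth h hv i i' hi _ _
    rw [this, map_zero]
  · intro x y z hy hz
    have h0 := hy 0
    have h1 := hy 1
    simp only [Matrix.cons_val_zero, Matrix.cons_val_one] at h0 h1
    rw [midHom_apply, ← h0, ← h1, cornerU_cls, cornerU_cls, ← map_add]
    congr 1
    ext n
    rw [hz n, Fin.sum_univ_two]
    rfl

lemma un2_midHom_sq {M : Type v} [CStarAlgebra M] (π₀ π₁ : M →⋆ₐ[ℂ] Ultrapower t U) (x : M) :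
    un2 t U (midHom h hv U π₀ π₁ x) ^ 2 = un2 t U (π₀ x) ^ 2 / 2 + un2 t U (π₁ x) ^ 2 / 2 := by
  rw [midHom_apply]
  obtain ⟨a, ha⟩ := Ideal.Quotient.mk_surjective (π₀ x)
  obtain ⟨b, hb⟩ := Ideal.Quotient.mk_surjective (π₁ x)
  rw [← ha, ← hb, cornerU_cls, cornerU_cls, ← map_add, un2_cls, un2_cls, un2_cls,
    ← ultra_cornerSeq_n2_sq h hv U 0 a, ← ultra_cornerSeq_n2_sq h hv U 1 b]
  rw [(t.ultra U).n2_sq, (t.ultra U).n2_sq, (t.ultra U).n2_sq]
  have z1 : star (cornerSeq h hv 0 a) * cornerSeq h hv 1 b = 0 := by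
    ext n
    show star (h.corner hv 0 (a n)) * h.corner hv 1 (b n) = 0
    rw [← map_star]
    exact corner_orth h hv 0 1 (by decide) _ _
  have z2 : star (cornerSeq h hv 1 b) * cornerSeq h hv 0 a = 0 := by
    ext n
    show star (h.corner hv 1 (b n)) * h.corner hv 0 (a n) = 0
    rw [← map_star]
    exact corner_orth h hv 1 0 (by decide) _ _
  rw [star_add, add_mul, mul_add, mul_add, z1, z2]
  simp

end midpoint

end Pool.Agent.Helper234.Brown
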