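import Pool.Agent.Helper234.BrownG

open scoped BoundedContinuousFunction ComplexOrder Topology InnerProductSpace
open Filter

namespace Pool.Agent.Helper234.Brown

universe u v w

variable {R : Type u} [CStarAlgebra R] {t : PTr R} {U : Ultrafilter ℕ}

/-- the trace on the ultrapower -/
noncomputable def utr (t : PTr R) (U : Ultrafilter ℕ) (X : Ultrapower t U) : ℂ :=
  Quotient.liftOn' X (fun x => (t.ultra U).tr x) (by
    intro x y h
    rw [Submodule.quotientRel_def] at h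
    have h1 := (cls_eq_iff t U x y).mp (Ideal.Quotient.eq.mpr h)
    have h2 := (t.ultra U).norm_tr_le_n2 (x - y)
    rw [h1, map_sub] at h2
    exact sub_eq_zero.mp (norm_le_zero_iff.mp h2))

lemma utr_cls (x : ℕ →ᵇ R) : utr t U (cls t U x) = (t.ultra U).tr x := rfl

lemma utr_add (X Y : Ultrapower t U) : utr t U (X + Y) = utr t U X + utr t U Y := by
  obtain ⟨x, rfl⟩ := Ideal.Quotient.mk_surjective X
  obtain ⟨y, rfl⟩ := Ideal.Quotient.mk_surjective Y
  rw [← map_add, utr_cls, utr_cls, utr_cls, map_add]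

lemma utr_comm (X Y : Ultrapower t U) : utr t U (X * Y) = utr t U (Y * X) := by
  obtain ⟨x, rfl⟩ := Ideal.Quotient.mk_surjective X
  obtain ⟨y, rfl⟩ := Ideal.Quotient.mk_surjective Y
  rw [← map_mul, ← map_mul, utr_cls, utr_cls, (t.ultra U).tr_comm]

lemma un2_sq (X : Ultrapower t U) : un2 t U X ^ 2 = (utr t U (star X * X)).re := by
  obtain ⟨x, rfl⟩ := Ideal.Quotient.mk_surjective X
  rw [star_cls, ← map_mul, utr_cls, un2_cls, (t.ultra U).n2_sq]

lemma un2_nonneg (X : Ultrapower t U) : 0 ≤ un2 t U X := by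
  obtain ⟨x, rfl⟩ := Ideal.Quotient.mk_surjective X
  exact (t.ultra U).n2_nonneg x

lemma un2_eq_zero {X : Ultrapower t U} (h : un2 t U X = 0) : X = 0 := by
  obtain ⟨x, rfl⟩ := Ideal.Quotient.mk_surjective X
  rw [← map_zero (cls t U), cls_eq_iff, sub_zero]
  exact h

lemma un2_add_le (X Y : Ultrapower t U) : un2 t U (X + Y) ≤ un2 t U X + un2 t U Y := by
  obtain ⟨x, rfl⟩ := Ideal.Quotient.mk_surjective X
  obtain ⟨y, rfl⟩ := Ideal.Quotient.mk_surjective Y
  rw [← map_add]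
  exact (t.ultra U).n2_add_le x y

lemma un2_sub_le (X Y : Ultrapower t U) : un2 t U (X - Y) ≤ un2 t U X + un2 t U Y := by
  obtain ⟨x, rfl⟩ := Ideal.Quotient.mk_surjective X
  obtain ⟨y, rfl⟩ := Ideal.Quotient.mk_surjective Y
  rw [← map_sub]
  exact (t.ultra U).n2_sub_le x y

lemma un2_neg (X : Ultrapower t U) : un2 t U (-X) = un2 t U X := by
  obtain ⟨x, rfl⟩ := Ideal.Quotient.mk_surjective X
  rw [← map_neg]
  exact (t.ultra U).n2_neg x

lemma un2_smul (c : ℂ) (X : Ultrapower t U) : un2 t U (c • X) = ‖c‖ * un2 t U X := by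
  obtain ⟨x, rfl⟩ := Ideal.Quotient.mk_surjective X
  show un2 t U (cls t U (c • x)) = _
  rw [un2_cls, un2_cls, PTr.n2_smul]

lemma un2_star (X : Ultrapower t U) : un2 t U (star X) = un2 t U X := by
  obtain ⟨x, rfl⟩ := Ideal.Quotient.mk_surjective X
  rw [star_cls, un2_cls, un2_cls, PTr.n2_star]

lemma un2_parallelogram (X Y : Ultrapower t U) :
    un2 t U (X + Y) ^ 2 + un2 t U (X - Y) ^ 2 = 2 * un2 t U X ^ 2 + 2 * un2 t U Y ^ 2 := by
  obtain ⟨x, rfl⟩ := Ideal.Quotient.mk_surjective X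
  obtain ⟨y, rfl⟩ := Ideal.Quotient.mk_surjective Y
  rw [← map_add, ← map_sub]
  exact (t.ultra U).parallelogram x y

lemma un2_unitary_mul {u : Ultrapower t U} (hu : star u * u = 1) (X : Ultrapower t U) :
    un2 t U (u * X) = un2 t U X := by
  have h : un2 t U (u * X) ^ 2 = un2 t U X ^ 2 := by
    rw [un2_sq, un2_sq, star_mul, show star X * star u * (u * X) = star X * (star u * u) * X by
      simp only [mul_assoc], hu, mul_one]
  exact (sq_eq_sq₀ (un2_nonneg _) (un2_nonneg _)).mp h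

lemma un2_mul_unitary {u : Ultrapower t U} (hu : u * star u = 1) (X : Ultrapower t U) :
    un2 t U (X * u) = un2 t U X := by
  rw [← un2_star, star_mul, un2_unitary_mul (by simpa using hu), un2_star]

/-- the key pointwise inequality -/
lemma key_ineq (X Y Z : Ultrapower t U) (r η : ℝ) (hη : 0 < η) (hX : un2 t U X = r)
    (hY : un2 t U Y = r) (hZ : un2 t U Z = r) :
    4 * r ^ 2 ≤ (1 + η) * (4 * r ^ 2 - un2 t U (X - Y) ^ 2) +
      (1 + 1 / η) * (2 * un2 t U (Z - X) ^ 2 + 2 * un2 t U (Z - Y) ^ 2 - un2 t U (X - Y) ^ 2) := by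
  have h1 := un2_parallelogram X Y
  have h2 := un2_parallelogram (Z - X) (Z - Y)
  rw [show Z - X - (Z - Y) = -(X - Y) by abel, un2_neg] at h2
  set p := un2 t U (X + Y) with hp
  set q := un2 t U (Z - X + (Z - Y)) with hq
  have h3 : 2 * r ≤ p + q := by
    have h4 : un2 t U ((2 : ℂ) • Z) = 2 * r := by rw [un2_smul, hZ]; simp
    have h5 := un2_add_le (X + Y) (Z - X + (Z - Y))
    rw [show X + Y + (Z - X + (Z - Y)) = (2 : ℂ) • Z by rw [two_smul]; abel, h4] at h5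
    exact h5
  have hr : 0 ≤ r := hX ▸ un2_nonneg X
  have hp0 : 0 ≤ p := un2_nonneg _
  have hq0 : 0 ≤ q := un2_nonneg _
  have h6 : 4 * r ^ 2 ≤ (p + q) ^ 2 := by nlinarith
  have h7 : (p + q) ^ 2 ≤ (1 + η) * p ^ 2 + (1 + 1 / η) * q ^ 2 := by
    have h8 : 0 ≤ (η * p - q) ^ 2 / η := by positivity
    have h9 : (η * p - q) ^ 2 / η = η * p ^ 2 - 2 * p * q + 1 / η * q ^ 2 := by
      field_simp
      ring
    rw [h9] at h8
    nlinarith
  have e1 : 4 * r ^ 2 - un2 t U (X - Y) ^ 2 = p ^ 2 := by rw [hX, hY] at h1; linarith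
  have e2 : 2 * un2 t U (Z - X) ^ 2 + 2 * un2 t U (Z - Y) ^ 2 - un2 t U (X - Y) ^ 2 = q ^ 2 := by
    linarith
  rw [e1, e2]
  exact h6.trans h7

lemma summable_w : Summable (fun n : ℕ => (1 / 4 : ℝ) ^ (n + 1)) := by
  have := (summable_geometric_of_lt_one (r := (1/4 : ℝ)) (by norm_num) (by norm_num)).mul_left (1/4 : ℝ)
  refine this.congr (fun n => ?_)
  rw [pow_succ]; ring

lemma summable_sq {f : ℕ → ℝ} (C : ℝ) (h0 : ∀ n, 0 ≤ f n) (hf : ∀ n, f n ≤ C) :
    Summable (fun n : ℕ => (1 / 4 : ℝ) ^ (n + 1) * f n ^ 2) := by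
  refine Summable.of_nonneg_of_le (fun n => by have := h0 n; positivity) (fun n => ?_)
    (summable_w.mul_right (C ^ 2))
  have h1 := h0 n
  have h2 := hf n
  gcongr

lemma tsum_w : ∑' n : ℕ, (1 / 4 : ℝ) ^ (n + 1) = 1 / 3 := by
  have h := tsum_geometric_of_lt_one (r := (1/4 : ℝ)) (by norm_num) (by norm_num)
  have : (fun n : ℕ => (1 / 4 : ℝ) ^ (n + 1)) = fun n => (1/4 : ℝ) * (1/4 : ℝ) ^ n := by
    ext n; rw [pow_succ]; ring
  rw [this, tsum_mul_left, h]; norm_num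

variable {M : Type v} [CStarAlgebra M]

/-- The no-midpoint theorem. -/
theorem dist_eq_zero_of_midpoint (a : ℕ → M)
    (π ρ m : M →⋆ₐ[ℂ] Ultrapower t U) (r : ℕ → ℝ) (hr : ∀ n, r n ≤ 1)
    (hπ : ∀ n, un2 t U (π (a n)) = r n) (hρ : ∀ n, un2 t U (ρ (a n)) = r n)
    (hm : ∀ n, un2 t U (m (a n)) = r n)
    (h1 : brownDist t U a π m = brownDist t U a π ρ / 2)
    (h2 : brownDist t U a ρ m = brownDist t U a π ρ / 2) : brownDist t U a π ρ = 0 := by
  set D := brownDist t U a π ρ with hD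
  by_contra hne
  have hD0 : 0 ≤ D := Real.iInf_nonneg (fun u => Real.sqrt_nonneg _)
  have hDpos : 0 < D := lt_of_le_of_ne hD0 (Ne.symm hne)
  have hr0 : ∀ n, 0 ≤ r n := fun n => hπ n ▸ un2_nonneg _
  -- choose epsilon
  set η : ℝ := D ^ 2 / 8 with hη
  have hηpos : 0 < η := by positivity
  obtain ⟨ε, hε, hε2⟩ : ∃ ε : ℝ, 0 < ε ∧ (1 + 1 / η) * (4 * D * ε + 4 * ε ^ 2) < D ^ 2 / 2 := by
    have hc : ContinuousAt (fun ε : ℝ => (1 + 1 / η) * (4 * D * ε + 4 * ε ^ 2)) 0 := by fun_prop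
    have h3 : (fun ε : ℝ => (1 + 1 / η) * (4 * D * ε + 4 * ε ^ 2)) 0 < D ^ 2 / 2 := by
      simp; positivity
    have h4 := (tendsto_order.1 hc.tendsto).2 _ h3
    obtain ⟨δ, hδ, hδ2⟩ := Metric.eventually_nhds_iff.mp h4
    refine ⟨δ / 2, by positivity, ?_⟩
    apply hδ2
    rw [Real.dist_eq, sub_zero, abs_of_pos (by positivity)]
    linarith
  have hb : ∀ σ : M →⋆ₐ[ℂ] Ultrapower t U, brownDist t U a σ m = D / 2 → ∃ u : unitary (Ultrapower t U),
      Real.sqrt (∑' n : ℕ, (1 / 4 : ℝ) ^ (n + 1) *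
      un2 t U (σ (a n) - (u : Ultrapower t U) * m (a n) * star (u : Ultrapower t U)) ^ 2) < D / 2 + ε := by
    intro σ hσ
    exact exists_lt_of_ciInf_lt (by rw [brownDist] at hσ; rw [hσ]; linarith)
  obtain ⟨u, hu⟩ := hb π h1
  obtain ⟨v, hv⟩ := hb ρ h2
  have hu1 : star (u : Ultrapower t U) * u = 1 := Unitary.coe_star_mul_self u
  have hu2 : (u : Ultrapower t U) * star (u : Ultrapower t U) = 1 := Unitary.coe_mul_star_self u
  have hv1 : star (v : Ultrapower t U) * v = 1 := Unitary.coe_star_mul_self v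
  have hv2 : (v : Ultrapower t U) * star (v : Ultrapower t U) = 1 := Unitary.coe_mul_star_self v
  generalize huu : (u : Ultrapower t U) = u' at hu hu1 hu2
  generalize hvv : (v : Ultrapower t U) = v' at hv hv1 hv2
  let X : ℕ → Ultrapower t U := fun n => star u' * π (a n) * u'
  let Y : ℕ → Ultrapower t U := fun n => star v' * ρ (a n) * v'
  let Z : ℕ → Ultrapower t U := fun n => m (a n)
  have hX : ∀ n, un2 t U (X n) = r n := fun n => by
    show un2 t U (star u' * π (a n) * u') = _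
    rw [un2_mul_unitary hu2, un2_unitary_mul (by simpa using hu2), hπ]
  have hY : ∀ n, un2 t U (Y n) = r n := fun n => by
    show un2 t U (star v' * ρ (a n) * v') = _
    rw [un2_mul_unitary hv2, un2_unitary_mul (by simpa using hv2), hρ]
  have hZ : ∀ n, un2 t U (Z n) = r n := hm
  have hZX : ∀ n, un2 t U (Z n - X n) = un2 t U (π (a n) - u' * m (a n) * star u') := fun n => by
    have e : π (a n) - u' * m (a n) * star u' = -(u' * (Z n - X n) * star u') := by
      show _ = -(u' * (m (a n) - star u' * π (a n) * u') * star u')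
      rw [mul_sub, sub_mul, show u' * (star u' * π (a n) * u') * star u' =
        (u' * star u') * π (a n) * (u' * star u') by simp only [mul_assoc], hu2, one_mul, mul_one]
      abel
    rw [e, un2_neg, un2_mul_unitary (by simpa using hu1), un2_unitary_mul hu1]
  have hZY : ∀ n, un2 t U (Z n - Y n) = un2 t U (ρ (a n) - v' * m (a n) * star v') := fun n => by
    have e : ρ (a n) - v' * m (a n) * star v' = -(v' * (Z n - Y n) * star v') := by
      show _ = -(v' * (m (a n) - star v' * ρ (a n) * v') * star v')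
      rw [mul_sub, sub_mul, show v' * (star v' * ρ (a n) * v') * star v' =
        (v' * star v') * ρ (a n) * (v' * star v') by simp only [mul_assoc], hv2, one_mul, mul_one]
      abel
    rw [e, un2_neg, un2_mul_unitary (by simpa using hv1), un2_unitary_mul hv1]
  have hXY : D ≤ Real.sqrt (∑' n : ℕ, (1 / 4 : ℝ) ^ (n + 1) * un2 t U (X n - Y n) ^ 2) := by
    have h3 : brownDist t U a π ρ ≤ _ := ciInf_le (f := fun u : unitary (Ultrapower t U) =>
      Real.sqrt (∑' n : ℕ, (1 / 4 : ℝ) ^ (n + 1) *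
      un2 t U (π (a n) - (u : Ultrapower t U) * ρ (a n) * star (u : Ultrapower t U)) ^ 2))
      ⟨0, by rintro _ ⟨u, rfl⟩; exact Real.sqrt_nonneg _⟩ (u * star v)
    refine h3.trans (le_of_eq ?_)
    congr 1
    refine tsum_congr (fun n => ?_)
    congr 2
    have e : X n - Y n = star u' * (π (a n) - (u' * star v') * ρ (a n) * star (u' * star v')) * u' := by
      show star u' * π (a n) * u' - star v' * ρ (a n) * v' = _
      rw [star_mul, star_star, mul_sub, sub_mul, show star u' * (u' * star v' * ρ (a n) * (v' * star u')) * u' =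
        (star u' * u') * star v' * ρ (a n) * v' * (star u' * u') by simp only [mul_assoc], hu1, one_mul, mul_one]
    rw [e, un2_mul_unitary hu2, un2_unitary_mul (by simpa using hu2)]
    simp only [Submonoid.coe_mul, Unitary.coe_star, huu, hvv]
  have bX : ∀ n, un2 t U (X n - Y n) ≤ 2 := fun n =>
    (un2_sub_le _ _).trans (by rw [hX, hY]; linarith [hr n])
  have bZX : ∀ n, un2 t U (Z n - X n) ≤ 2 := fun n =>
    (un2_sub_le _ _).trans (by rw [hX, hZ]; linarith [hr n])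
  have bZY : ∀ n, un2 t U (Z n - Y n) ≤ 2 := fun n =>
    (un2_sub_le _ _).trans (by rw [hY, hZ]; linarith [hr n])
  have s0 := summable_sq 1 hr0 hr
  have s1 := summable_sq 2 (fun n => un2_nonneg (X n - Y n)) bX
  have s2 := summable_sq 2 (fun n => un2_nonneg (Z n - X n)) bZX
  have s3 := summable_sq 2 (fun n => un2_nonneg (Z n - Y n)) bZY
  set A := ∑' n : ℕ, (1 / 4 : ℝ) ^ (n + 1) * r n ^ 2 with hA
  set δ := ∑' n : ℕ, (1 / 4 : ℝ) ^ (n + 1) * un2 t U (X n - Y n) ^ 2 with hδ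
  set α := ∑' n : ℕ, (1 / 4 : ℝ) ^ (n + 1) * un2 t U (Z n - X n) ^ 2 with hα
  set β := ∑' n : ℕ, (1 / 4 : ℝ) ^ (n + 1) * un2 t U (Z n - Y n) ^ 2 with hβ
  have hα2 : α ≤ (D / 2 + ε) ^ 2 := by
    have e : α = ∑' n : ℕ, (1 / 4 : ℝ) ^ (n + 1) * un2 t U (π (a n) - u' * m (a n) * star u') ^ 2 := by
      rw [hα]; refine tsum_congr (fun n => ?_); rw [hZX]
    rw [← e] at hu
    have h0 : 0 ≤ α := tsum_nonneg (fun n => by have := un2_nonneg (Z n - X n); positivity)
    rw [← Real.sq_sqrt h0]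
    have := Real.sqrt_nonneg α
    gcongr
  have hβ2 : β ≤ (D / 2 + ε) ^ 2 := by
    have e : β = ∑' n : ℕ, (1 / 4 : ℝ) ^ (n + 1) * un2 t U (ρ (a n) - v' * m (a n) * star v') ^ 2 := by
      rw [hβ]; refine tsum_congr (fun n => ?_); rw [hZY]
    rw [← e] at hv
    have h0 : 0 ≤ β := tsum_nonneg (fun n => by have := un2_nonneg (Z n - Y n); positivity)
    rw [← Real.sq_sqrt h0]
    have := Real.sqrt_nonneg β
    gcongr
  have hδ2 : D ^ 2 ≤ δ := by
    have h0 : 0 ≤ δ := tsum_nonneg (fun n => by have := un2_nonneg (X n - Y n); positivity)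
    rw [← Real.sq_sqrt h0]
    gcongr
  have hA1 : A ≤ 1 := by
    calc A ≤ ∑' n : ℕ, (1 / 4 : ℝ) ^ (n + 1) := by
          refine Summable.tsum_le_tsum (fun n => ?_) s0 summable_w
          have := hr0 n
          have := hr n
          have : r n ^ 2 ≤ 1 := by nlinarith
          have h4 : (0 : ℝ) ≤ (1/4) ^ (n+1) := by positivity
          nlinarith
      _ ≤ 1 := by rw [tsum_w]; norm_num
  have main : 4 * A ≤ (1 + η) * (4 * A - δ) + (1 + 1 / η) * (2 * α + 2 * β - δ) := by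
    have t1 : Summable fun n : ℕ => 4 * ((1 / 4 : ℝ) ^ (n + 1) * r n ^ 2) := s0.mul_left 4
    have t2 : Summable fun n : ℕ => (1 + η) * (4 * ((1 / 4 : ℝ) ^ (n + 1) * r n ^ 2) -
      (1 / 4 : ℝ) ^ (n + 1) * un2 t U (X n - Y n) ^ 2) := (t1.sub s1).mul_left _
    have t3 : Summable fun n : ℕ => (1 + 1 / η) * (2 * ((1 / 4 : ℝ) ^ (n + 1) * un2 t U (Z n - X n) ^ 2) +
      2 * ((1 / 4 : ℝ) ^ (n + 1) * un2 t U (Z n - Y n) ^ 2) -
      (1 / 4 : ℝ) ^ (n + 1) * un2 t U (X n - Y n) ^ 2) :=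
      (((s2.mul_left 2).add (s3.mul_left 2)).sub s1).mul_left _
    have e1 : 4 * A = ∑' n : ℕ, 4 * ((1 / 4 : ℝ) ^ (n + 1) * r n ^ 2) := by rw [tsum_mul_left]
    have e2 : (1 + η) * (4 * A - δ) = ∑' n : ℕ, (1 + η) * (4 * ((1 / 4 : ℝ) ^ (n + 1) * r n ^ 2) -
      (1 / 4 : ℝ) ^ (n + 1) * un2 t U (X n - Y n) ^ 2) := by
      rw [tsum_mul_left, t1.tsum_sub s1, tsum_mul_left]
    have e3 : (1 + 1 / η) * (2 * α + 2 * β - δ) = ∑' n : ℕ, (1 + 1 / η) *
      (2 * ((1 / 4 : ℝ) ^ (n + 1) * un2 t U (Z n - X n) ^ 2) +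
      2 * ((1 / 4 : ℝ) ^ (n + 1) * un2 t U (Z n - Y n) ^ 2) -
      (1 / 4 : ℝ) ^ (n + 1) * un2 t U (X n - Y n) ^ 2) := by
      rw [tsum_mul_left, ((s2.mul_left 2).add (s3.mul_left 2)).tsum_sub s1,
        (s2.mul_left 2).tsum_add (s3.mul_left 2), tsum_mul_left, tsum_mul_left]
    rw [e2, e3, e1, ← t2.tsum_add t3]
    refine Summable.tsum_le_tsum (fun n => ?_) t1 (t2.add t3)
    have hk := key_ineq (X n) (Y n) (Z n) (r n) η hηpos (hX n) (hY n) (hZ n)
    have hw : (0 : ℝ) ≤ (1 / 4) ^ (n + 1) := by positivity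
    have := mul_le_mul_of_nonneg_left hk hw
    nlinarith
  have hη1 : 0 < 1 + 1 / η := by positivity
  have h5 : (1 + 1 / η) * (2 * α + 2 * β - δ) ≤ (1 + 1 / η) * (4 * D * ε + 4 * ε ^ 2) := by
    apply mul_le_mul_of_nonneg_left _ hη1.le
    nlinarith
  have hA0 : 0 ≤ A := tsum_nonneg (fun n => by have := hr0 n; positivity)
  have h6 : 4 * A * η ≤ D ^ 2 / 2 := by rw [hη]; nlinarith [sq_nonneg D]
  have h7 : 0 ≤ η * δ := mul_nonneg hηpos.le ((sq_nonneg D).trans hδ2)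
  have h8 : (1 + η) * (4 * A - δ) = 4 * A - δ + 4 * A * η - η * δ := by ring
  rw [h8] at main
  have h9 : 0 < D ^ 2 := by positivity
  linarith

/-- Affine isometric maps identify trace preserving homomorphisms. -/
theorem dist_eq_zero_of_embedding (hR : IsHyperfinite t) (s : PTr M) (a : ℕ → M)
    (ha : ∀ n, ‖a n‖ ≤ 1) (π ρ : M →⋆ₐ[ℂ] Ultrapower t U)
    (hπ : ∀ x, un2 t U (π x) = s.n2 x) (hρ : ∀ x, un2 t U (ρ x) = s.n2 x)
    {B : Type w} [NormedAddCommGroup B] [NormedSpace ℝ B]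
    (Φ : (M →⋆ₐ[ℂ] Ultrapower t U) → B) (hΦ : IsAffineRep t U Φ)
    (hiso : ∀ σ σ', ‖Φ σ - Φ σ'‖ = brownDist t U a σ σ') : brownDist t U a π ρ = 0 := by
  obtain ⟨j, hj, hd⟩ := hR.matrices
  have hv : IsVN t := hR.toIsVN
  obtain ⟨S, hS1, hS2⟩ := exists_shift j hj hv hd
  have h : IsShift t j S := ⟨hj, hd, hS1, hS2⟩
  set m := midHom h hv U π ρ with hm
  have hmid : Φ m = (1 / 2 : ℝ) • Φ π + (1 / 2 : ℝ) • Φ ρ := by
    have := hΦ 2 ![1/2, 1/2] ![π, ρ] m (midHom_isConvexComb h hv U π ρ)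
    simpa [Fin.sum_univ_two] using this
  refine dist_eq_zero_of_midpoint a π ρ m (fun n => s.n2 (a n))
    (fun n => (s.n2_le_norm _).trans (ha n)) (fun n => hπ _) (fun n => hρ _) ?_ ?_ ?_
  · intro n
    have h1 := un2_midHom_sq h hv U π ρ (a n)
    rw [hπ, hρ, add_halves] at h1
    exact (sq_eq_sq₀ (un2_nonneg _) (s.n2_nonneg _)).mp h1
  · rw [← hiso, ← hiso, hmid]
    have e : Φ π - ((1 / 2 : ℝ) • Φ π + (1 / 2 : ℝ) • Φ ρ) = (1 / 2 : ℝ) • (Φ π - Φ ρ) := by
      module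
    rw [e, norm_smul]
    norm_num
    ring
  · rw [← hiso, ← hiso, hmid]
    have e : Φ ρ - ((1 / 2 : ℝ) • Φ π + (1 / 2 : ℝ) • Φ ρ) = (-(1 / 2) : ℝ) • (Φ π - Φ ρ) := by
      module
    rw [e, norm_smul]
    norm_num
    ring

end Pool.Agent.Helper234.Brown
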