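import Mathlib

namespace Pool.Agent.Helper234.Brown

/-- one reduction step: multiply a reduced word by a letter on the left -/
def step (i : Fin 16) (l : List (Fin 16)) : List (Fin 16) :=
  match l with
  | [] => [i]
  | a :: l' => if a = i then l' else i :: a :: l'

/-- action of a word on a word -/
def act (w l : List (Fin 16)) : List (Fin 16) := w.foldr step l

/-- reduction of a word -/
abbrev red (w : List (Fin 16)) : List (Fin 16) := act w []

@[simp] lemma act_nil (l : List (Fin 16)) : act [] l = l := rfl
@[simp] lemma act_cons (i : Fin 16) (w l : List (Fin 16)) : act (i :: w) l = step i (act w l) := rfl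
lemma act_append (v w l : List (Fin 16)) : act (v ++ w) l = act v (act w l) := by
  simp [act, List.foldr_append]

/-- reduced words -/
def IsRed (l : List (Fin 16)) : Prop := l.IsChain (· ≠ ·)

lemma isRed_nil : IsRed [] := by simp [IsRed]

lemma isRed_step {i : Fin 16} {l : List (Fin 16)} (h : IsRed l) : IsRed (step i l) := by
  unfold IsRed at *
  cases l with
  | nil => simp [step]
  | cons a l' =>
    simp only [step]
    split_ifs with h1
    · exact h.tail
    · rw [List.isChain_cons_cons]
      exact ⟨fun h2 => h1 h2.symm, h⟩

lemma step_step {i : Fin 16} {l : List (Fin 16)} (h : IsRed l) : step i (step i l) = l := by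
  cases l with
  | nil => simp [step]
  | cons a l' =>
    simp only [step]
    split_ifs with h1
    · subst h1
      cases l' with
      | nil => rfl
      | cons b l'' =>
        have hab : a ≠ b := by
          unfold IsRed at h
          rw [List.isChain_cons_cons] at h
          exact h.1
        simp only [if_neg (Ne.symm hab)]
    · simp

lemma isRed_act {w l : List (Fin 16)} (h : IsRed l) : IsRed (act w l) := by
  induction w with
  | nil => exact h
  | cons i w ih => exact isRed_step ih

lemma isRed_red (w : List (Fin 16)) : IsRed (red w) := isRed_act isRed_nil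

lemma red_of_isRed {l : List (Fin 16)} (h : IsRed l) : red l = l := by
  induction l with
  | nil => rfl
  | cons a l ih =>
    have h2 : IsRed l := h.tail
    show step a (red l) = _
    rw [ih h2]
    cases l with
    | nil => rfl
    | cons b l' =>
      have hab : a ≠ b := by
        unfold IsRed at h
        rw [List.isChain_cons_cons] at h
        exact h.1
      simp [step, Ne.symm hab]

lemma act_reverse_act {w l : List (Fin 16)} (h : IsRed l) : act w.reverse (act w l) = l := by
  induction w generalizing l with
  | nil => rfl
  | cons i w ih =>
    rw [List.reverse_cons, act_append, act_cons]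
    show act w.reverse (step i (step i (act w l))) = l
    rw [step_step (isRed_act h), ih h]

lemma act_act_reverse {w l : List (Fin 16)} (h : IsRed l) : act w (act w.reverse l) = l := by
  have := act_reverse_act (w := w.reverse) h
  rwa [List.reverse_reverse] at this

lemma red_reverse_append_iff (v w : List (Fin 16)) : red (v.reverse ++ w) = [] ↔ red v = red w := by
  rw [red, act_append]
  constructor
  · intro h
    have h2 := congrArg (act v) h
    rw [act_act_reverse (isRed_red w)] at h2
    exact h2.symm
  · intro h
    have : act w [] = act v [] := h.symm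
    rw [this, act_reverse_act isRed_nil]

lemma length_step_le (i : Fin 16) (l : List (Fin 16)) : (step i l).length ≤ l.length + 1 := by
  cases l with
  | nil => simp [step]
  | cons a l' =>
    simp only [step]
    split_ifs
    · simp only [List.length_cons]; omega
    · simp

lemma length_red_le (w : List (Fin 16)) : (red w).length ≤ w.length := by
  induction w with
  | nil => simp
  | cons i w ih =>
    show (step i (red w)).length ≤ _
    have := length_step_le i (red w)
    simp only [List.length_cons]
    omega

section eval

variable {G : Type*} [Monoid G]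

/-- evaluation of a word -/
def ev (s : Fin 16 → G) (w : List (Fin 16)) : G := (w.map s).prod

@[simp] lemma ev_nil (s : Fin 16 → G) : ev s [] = 1 := rfl
@[simp] lemma ev_cons (s : Fin 16 → G) (i : Fin 16) (w : List (Fin 16)) : ev s (i :: w) = s i * ev s w := by
  simp [ev]
lemma ev_append (s : Fin 16 → G) (v w : List (Fin 16)) : ev s (v ++ w) = ev s v * ev s w := by
  simp [ev]

lemma ev_step {s : Fin 16 → G} (hs : ∀ i, s i * s i = 1) (i : Fin 16) (l : List (Fin 16)) :
    ev s (step i l) = s i * ev s l := by
  cases l with
  | nil => simp [step]
  | cons a l' =>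
    simp only [step]
    split_ifs with h
    · subst h
      rw [ev_cons, ← mul_assoc, hs, one_mul]
    · simp

lemma ev_act {s : Fin 16 → G} (hs : ∀ i, s i * s i = 1) (w l : List (Fin 16)) :
    ev s (act w l) = ev s w * ev s l := by
  induction w with
  | nil => simp
  | cons i w ih => rw [act_cons, ev_step hs, ih, ev_cons, mul_assoc]

lemma ev_red {s : Fin 16 → G} (hs : ∀ i, s i * s i = 1) (w : List (Fin 16)) :
    ev s (red w) = ev s w := by
  rw [red, ev_act hs, ev_nil, mul_one]

lemma ev_reverse_star {G : Type*} [Monoid G] [StarMul G] {s : Fin 16 → G} (hs : ∀ i, star (s i) = s i)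
    (w : List (Fin 16)) : star (ev s w) = ev s w.reverse := by
  induction w with
  | nil => simp
  | cons i w ih => rw [ev_cons, star_mul, ih, hs, List.reverse_cons, ev_append]; simp

end eval

section sums

/-- sum over all words of length `n` -/
def sumW {X : Type*} [AddCommMonoid X] : ℕ → (List (Fin 16) → X) → X
  | 0, f => f []
  | n + 1, f => ∑ i, sumW n (fun w => f (i :: w))

lemma sumW_congr {X : Type*} [AddCommMonoid X] (n : ℕ) {f g : List (Fin 16) → X}
    (h : ∀ w, w.length = n → f w = g w) : sumW n f = sumW n g := by
  induction n generalizing f g with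
  | zero => exact h [] rfl
  | succ n ih =>
    refine Finset.sum_congr rfl fun i _ => ih (fun w hw => h _ (by simp [hw]))

lemma sumW_map {X Y : Type*} [AddCommMonoid X] [AddCommMonoid Y] (φ : X →+ Y) (n : ℕ) (f : List (Fin 16) → X) :
    φ (sumW n f) = sumW n (fun w => φ (f w)) := by
  induction n generalizing f with
  | zero => rfl
  | succ n ih =>
    simp only [sumW, map_sum, ih]

lemma sumW_mono (n : ℕ) {f g : List (Fin 16) → ℝ} (h : ∀ w, w.length = n → f w ≤ g w) :
    sumW n f ≤ sumW n g := by
  induction n generalizing f g with
  | zero => exact h [] rfl
  | succ n ih =>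
    refine Finset.sum_le_sum fun i _ => ih (fun w hw => h _ (by simp [hw]))

lemma sumW_const (n : ℕ) (c : ℝ) : sumW n (fun _ => c) = 16 ^ n * c := by
  induction n with
  | zero => simp [sumW]
  | succ n ih =>
    simp only [sumW, ih, Finset.sum_const, Finset.card_univ, Fintype.card_fin, nsmul_eq_mul]
    push_cast
    ring

lemma sumW_add {X : Type*} [AddCommMonoid X] (n : ℕ) (f g : List (Fin 16) → X) :
    sumW n (fun w => f w + g w) = sumW n f + sumW n g := by
  induction n generalizing f g with
  | zero => rfl
  | succ n ih => simp only [sumW, ih, Finset.sum_add_distrib]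

lemma sumW_sum {X ι : Type*} [AddCommMonoid X] (s : Finset ι) (n : ℕ) (f : ι → List (Fin 16) → X) :
    sumW n (fun w => ∑ i ∈ s, f i w) = ∑ i ∈ s, sumW n (f i) := by
  induction n generalizing f with
  | zero => rfl
  | succ n ih =>
    simp only [sumW, ih]
    rw [Finset.sum_comm]

/-- number of words of length `n` with given reduction -/
lemma count_le (n : ℕ) (k : List (Fin 16)) (hk : IsRed k) :
    sumW n (fun w => if red w = k then (1 : ℝ) else 0) * 4 ^ k.length ≤ 8 ^ n := by
  induction n generalizing k with
  | zero =>
    show (if red [] = k then (1 : ℝ) else 0) * 4 ^ k.length ≤ 8 ^ 0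
    by_cases h : red [] = k
    · rw [if_pos h, ← h]; simp
    · rw [if_neg h]; simp
  | succ n ih =>
    have h1 : ∀ i, sumW n (fun w => if red (i :: w) = k then (1 : ℝ) else 0) =
        sumW n (fun w => if red w = step i k then (1 : ℝ) else 0) := by
      intro i
      refine sumW_congr n (fun w _ => ?_)
      have : red (i :: w) = k ↔ red w = step i k := by
        show step i (red w) = k ↔ _
        constructor
        · intro h; rw [← h, step_step (isRed_red w)]
        · intro h; rw [h, step_step hk]
      simp only [this]
    simp only [sumW, h1]
    rw [Finset.sum_mul]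
    cases k with
    | nil =>
      have h2 : ∀ i : Fin 16, sumW n (fun w => if red w = step i [] then (1 : ℝ) else 0) * 4 ^ ([] : List (Fin 16)).length ≤
          8 ^ n / 4 := by
        intro i
        have := ih (step i []) (isRed_step isRed_nil)
        simp only [step, List.length_singleton, pow_one, List.length_nil, pow_zero, mul_one] at this ⊢
        linarith
      refine (Finset.sum_le_sum fun i _ => h2 i).trans ?_
      simp only [Finset.sum_const, Finset.card_univ, Fintype.card_fin, nsmul_eq_mul]
      rw [pow_succ]
      have : (0:ℝ) < 8 ^ n := by positivity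
      push_cast
      linarith
    | cons a k' =>
      have h2 : ∀ i : Fin 16, sumW n (fun w => if red w = step i (a :: k') then (1 : ℝ) else 0) * 4 ^ (a :: k').length ≤
          8 ^ n / 4 + (if i = a then 4 * 8 ^ n else 0) := by
        intro i
        have h3 := ih (step i (a :: k')) (isRed_step hk)
        split_ifs with hia
        · subst hia
          have e : step i (i :: k') = k' := by simp [step]
          rw [e] at h3 ⊢
          rw [List.length_cons, pow_succ]
          have : (0:ℝ) < 8 ^ n := by positivity
          nlinarith
        · have e : step i (a :: k') = i :: a :: k' := by simp [step, Ne.symm hia]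
          rw [e] at h3 ⊢
          rw [List.length_cons, pow_succ] at h3
          linarith
      refine (Finset.sum_le_sum fun i _ => h2 i).trans ?_
      rw [Finset.sum_add_distrib]
      simp only [Finset.sum_const, Finset.card_univ, Fintype.card_fin, nsmul_eq_mul, Finset.sum_ite_eq',
        Finset.mem_univ, if_true]
      rw [pow_succ]
      push_cast
      linarith

lemma pair_count_le (n : ℕ) :
    sumW n (fun v => sumW n (fun w => if red w = red v then (1 : ℝ) else 0)) ≤ 128 ^ n := by
  have h1 : ∀ v, sumW n (fun w => if red w = red v then (1 : ℝ) else 0) ≤ 8 ^ n := by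
    intro v
    have h2 := count_le n (red v) (isRed_red v)
    have h3 : (1 : ℝ) ≤ 4 ^ (red v).length := one_le_pow₀ (by norm_num)
    have h4 : 0 ≤ sumW n (fun w => if red w = red v then (1 : ℝ) else 0) := by
      have : sumW n (fun _ => (0 : ℝ)) ≤ sumW n (fun w => if red w = red v then (1 : ℝ) else 0) :=
        sumW_mono n (fun w _ => by split_ifs <;> norm_num)
      rw [sumW_const, mul_zero] at this
      exact this
    nlinarith
  calc _ ≤ sumW n (fun _ => (8 : ℝ) ^ n) := sumW_mono n (fun v _ => h1 v)
    _ = 128 ^ n := by rw [sumW_const, ← mul_pow]; norm_num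

end sums

end Pool.Agent.Helper234.Brown
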