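import Pool.Agent.Helper234.BrownH
import Pool.Agent.Helper234.BrownI

open scoped BoundedContinuousFunction ComplexOrder Topology InnerProductSpace
open Filter

namespace Pool.Agent.Helper234.Brown

universe u v w

variable {R : Type u} [CStarAlgebra R]

/-- a unital system of matrix units -/
structure IsMU {X : Type} [Fintype X] [DecidableEq X] (e : X → X → R) : Prop where
  mul_eq : ∀ p q r s, e p q * e r s = if q = r then e p s else 0
  star_eq : ∀ p q, star (e p q) = e q p
  sum_eq : ∑ p, e p p = 1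

namespace IsMU

variable {X : Type} [Fintype X] [DecidableEq X] {e : X → X → R}

lemma tr_off (t : PTr R) (h : IsMU e) {p q : X} (hpq : p ≠ q) : t.tr (e p q) = 0 := by
  have h1 : e p q = e p p * e p q := by rw [h.mul_eq, if_pos rfl]
  rw [h1, t.tr_comm, h.mul_eq, if_neg (Ne.symm hpq), map_zero]

lemma tr_diag (t : PTr R) (h : IsMU e) (p : X) : t.tr (e p p) = 1 / Fintype.card X := by
  have h1 : ∀ q, t.tr (e q q) = t.tr (e p p) := by
    intro q
    have a1 : e q q = e q p * e p q := by rw [h.mul_eq, if_pos rfl]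
    have a2 : e p p = e p q * e q p := by rw [h.mul_eq, if_pos rfl]
    rw [a1, t.tr_comm, ← a2]
  have h2 := congrArg t.tr h.sum_eq
  rw [map_sum, t.tr_one] at h2
  simp only [h1, Finset.sum_const, Finset.card_univ, nsmul_eq_mul] at h2
  have : (Fintype.card X : ℂ) ≠ 0 := by
    intro h0
    rw [h0, zero_mul] at h2
    exact zero_ne_one h2
  field_simp
  rw [mul_comm]; exact h2

/-- permutation unitary -/
def perm (_h : IsMU e) (σ : Equiv.Perm X) : R := ∑ p, e (σ p) p

lemma perm_mul (h : IsMU e) (σ τ : Equiv.Perm X) : h.perm σ * h.perm τ = h.perm (σ * τ) := by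
  unfold perm
  rw [Finset.mul_sum]
  refine Finset.sum_congr rfl fun p _ => ?_
  rw [Finset.sum_mul, Finset.sum_eq_single (τ p)]
  · rw [h.mul_eq, if_pos rfl]; rfl
  · intro q _ hq
    rw [h.mul_eq, if_neg hq]
  · simp

lemma perm_one (h : IsMU e) : h.perm 1 = 1 := h.sum_eq

lemma perm_star (h : IsMU e) (σ : Equiv.Perm X) : star (h.perm σ) = h.perm σ⁻¹ := by
  unfold perm
  rw [star_sum]
  simp only [h.star_eq]
  refine Fintype.sum_equiv σ _ _ (fun p => ?_)
  simp

lemma tr_perm (t : PTr R) (h : IsMU e) (σ : Equiv.Perm X) :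
    t.tr (h.perm σ) = (Finset.univ.filter (fun p => σ p = p)).card / Fintype.card X := by
  unfold perm
  rw [map_sum]
  have : ∀ p, t.tr (e (σ p) p) = if σ p = p then (1 : ℂ) / Fintype.card X else 0 := by
    intro p
    split_ifs with hp
    · rw [hp, h.tr_diag]
    · exact h.tr_off t hp
  simp only [this]
  rw [← Finset.sum_filter, Finset.sum_const, nsmul_eq_mul]
  ring

lemma norm_le (h : IsMU e) (p q : X) : ‖e p q‖ ≤ 1 := by
  have h1 : IsStarProjection (e q q) := by
    constructor
    · rw [IsIdempotentElem, h.mul_eq, if_pos rfl]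
    · rw [isSelfAdjoint_iff, h.star_eq]
  have h2 : ‖e p q‖ * ‖e p q‖ = ‖e q q‖ := by
    rw [← CStarRing.norm_star_mul_self, h.star_eq, h.mul_eq, if_pos rfl]
  have h3 : ‖e q q‖ ≤ 1 := h1.norm_le
  nlinarith [norm_nonneg (e p q)]

lemma ev_perm (h : IsMU e) (σ : Fin 16 → Equiv.Perm X) (w : List (Fin 16)) :
    ev (fun i => h.perm (σ i)) w = h.perm (ev σ w) := by
  induction w with
  | nil => simp [perm_one]
  | cons i w ih => rw [ev_cons, ev_cons, ih, perm_mul]

end IsMU

/-- the averaging operator -/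
noncomputable def avgOp (A B : Fin 16 → R) (x : R) : R := ∑ i, A i * x * B i

lemma avgOp_iter (A B : Fin 16 → R) (hB : ∀ i, star (B i) = B i) (m : ℕ) (x : R) :
    (avgOp A B)^[m] x = sumW m (fun w => ev A w * x * star (ev B w)) := by
  induction m generalizing x with
  | zero => simp [sumW]
  | succ m ih =>
    rw [Function.iterate_succ_apply', ih]
    unfold avgOp
    simp only [sumW]
    refine Finset.sum_congr rfl fun i _ => ?_
    have := sumW_map ((AddMonoidHom.mulRight (B i)).comp (AddMonoidHom.mulLeft (A i))) m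
      (fun w => ev A w * x * star (ev B w))
    simp only [AddMonoidHom.coe_comp, Function.comp_apply, AddMonoidHom.coe_mulRight,
      AddMonoidHom.coe_mulLeft] at this
    rw [this]
    refine sumW_congr m (fun w _ => ?_)
    rw [ev_cons, ev_cons, star_mul, hB]
    simp only [mul_assoc]

lemma avgOp_self_adjoint (t : PTr R) (A B : Fin 16 → R) (hA : ∀ i, star (A i) = A i)
    (hB : ∀ i, star (B i) = B i) (x y : R) :
    t.tr (star (avgOp A B x) * y) = t.tr (star x * avgOp A B y) := by
  unfold avgOp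
  rw [star_sum, Finset.sum_mul, Finset.mul_sum, map_sum, map_sum]
  refine Finset.sum_congr rfl fun i _ => ?_
  rw [star_mul, star_mul, hA, hB, mul_assoc, t.tr_comm]
  simp only [mul_assoc]

lemma avgOp_growth (t : PTr R) (A B : Fin 16 → R) (hA : ∀ i, star (A i) = A i)
    (hB : ∀ i, star (B i) = B i) (x : R) (h : 12 * t.n2 x ≤ t.n2 (avgOp A B x)) (hx : 0 < t.n2 x) (m : ℕ) :
    12 * t.n2 ((avgOp A B)^[m] x) ≤ t.n2 ((avgOp A B)^[m+1] x) ∧ 0 < t.n2 ((avgOp A B)^[m] x) := by
  induction m with
  | zero => exact ⟨h, hx⟩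
  | succ m ih =>
    obtain ⟨ih1, ih2⟩ := ih
    have hpos : 0 < t.n2 ((avgOp A B)^[m+1] x) := by linarith
    refine ⟨?_, hpos⟩
    set y := (avgOp A B)^[m] x with hy
    have e1 : (avgOp A B)^[m+1] x = avgOp A B y := Function.iterate_succ_apply' _ _ _
    have e2 : (avgOp A B)^[m+1+1] x = avgOp A B (avgOp A B y) := by
      rw [Function.iterate_succ_apply', e1]
    rw [e1] at hpos ih1 ⊢
    rw [e2]
    have h3 := t.norm_tr_le y (avgOp A B (avgOp A B y))
    rw [← avgOp_self_adjoint t A B hA hB y, t.tr_self_eq, Complex.norm_real,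
      Real.norm_of_nonneg (by positivity)] at h3
    by_contra hcon
    push Not at hcon
    have h4 : t.n2 y * t.n2 (avgOp A B (avgOp A B y)) < t.n2 (avgOp A B y) ^ 2 := by
      calc t.n2 y * t.n2 (avgOp A B (avgOp A B y)) < t.n2 y * (12 * t.n2 (avgOp A B y)) :=
            mul_lt_mul_of_pos_left hcon ih2
        _ = (12 * t.n2 y) * t.n2 (avgOp A B y) := by ring
        _ ≤ t.n2 (avgOp A B y) * t.n2 (avgOp A B y) := mul_le_mul_of_nonneg_right ih1 hpos.le
        _ = _ := by ring
    linarith

lemma avgOp_growth' (t : PTr R) (A B : Fin 16 → R) (hA : ∀ i, star (A i) = A i)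
    (hB : ∀ i, star (B i) = B i) (x : R) (h : 12 * t.n2 x ≤ t.n2 (avgOp A B x)) (hx : 0 < t.n2 x) (m : ℕ) :
    12 ^ m * t.n2 x ≤ t.n2 ((avgOp A B)^[m] x) := by
  induction m with
  | zero => simp
  | succ m ih =>
    have := (avgOp_growth t A B hA hB x h hx m).1
    rw [pow_succ]
    linarith

lemma n2_sumW_le (t : PTr R) (n : ℕ) (f : List (Fin 16) → R) (g : List (Fin 16) → List (Fin 16) → ℝ)
    (h : ∀ v w, v.length = n → w.length = n → ‖t.tr (star (f v) * f w)‖ ≤ g v w) :
    t.n2 (sumW n f) ^ 2 ≤ sumW n (fun v => sumW n (fun w => g v w)) := by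
  have e1 : t.tr (star (sumW n f) * sumW n f) =
      sumW n (fun v => sumW n (fun w => t.tr (star (f v) * f w))) := by
    have a1 := sumW_map (starAddEquiv (R := R)).toAddMonoidHom n f
    have a1' : star (sumW n f) = sumW n (fun w => star (f w)) := a1
    rw [a1']
    have a2 := sumW_map (t.tr.toAddMonoidHom.comp (AddMonoidHom.mulRight (sumW n f))) n (fun w => star (f w))
    have a2' : t.tr (sumW n (fun w => star (f w)) * sumW n f) =
      sumW n (fun w => t.tr (star (f w) * sumW n f)) := a2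
    rw [a2']
    refine sumW_congr n (fun v _ => ?_)
    have a3 := sumW_map (t.tr.toAddMonoidHom.comp (AddMonoidHom.mulLeft (star (f v)))) n f
    exact a3
  have e2 : t.n2 (sumW n f) ^ 2 = ‖t.tr (star (sumW n f) * sumW n f)‖ := by
    rw [t.tr_self_eq, Complex.norm_real, Real.norm_of_nonneg (by positivity)]
  have e3 : ∀ (k : ℕ) (F : List (Fin 16) → ℂ), ‖sumW k F‖ ≤ sumW k (fun w => ‖F w‖) := by
    intro k
    induction k with
    | zero => intro F; exact le_rfl
    | succ k ih =>
      intro F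
      simp only [sumW]
      exact (norm_sum_le _ _).trans (Finset.sum_le_sum fun i _ => ih _)
  rw [e2, e1]
  refine (e3 _ _).trans (sumW_mono n (fun v hv => (e3 _ _).trans (sumW_mono n (fun w hw => h v w hv hw))))

/-- the upper bound for iterates of the averaging operator -/
lemma avgOp_upper (t : PTr R) {X : Type} [Fintype X] [DecidableEq X] {e : X → X → R} (h : IsMU e)
    (σ : Fin 16 → Equiv.Perm X) (B : Fin 16 → R) (hB : ∀ i, star (B i) = B i) (hB2 : ∀ i, B i * B i = 1)
    (m : ℕ) (η : ℝ) (hη : 0 ≤ η) (hη2 : 256 ^ m * η ≤ 128 ^ m)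
    (htr : ∀ w : List (Fin 16), w.length ≤ 2 * m → red w ≠ [] → ‖t.tr (ev B w)‖ ≤ η) (x : R) :
    t.n2 ((avgOp (fun i => h.perm (σ i)) B)^[m] x) ^ 2 ≤ 2 * ‖x‖ ^ 2 * (Fintype.card X) ^ 4 * 128 ^ m := by
  classical
  set N : ℝ := (Fintype.card X : ℝ) with hN
  set y : X → X → R := fun q p => sumW m (fun w => if ev σ w p = q then star (ev B w) else 0) with hy
  have h1 : (avgOp (fun i => h.perm (σ i)) B)^[m] x = ∑ p, ∑ q, e q p * x * y q p := by
    rw [avgOp_iter _ _ hB]
    have e1 : ∀ w : List (Fin 16), ev (fun i => h.perm (σ i)) w * x * star (ev B w) =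
        ∑ p, ∑ q, e q p * x * (if ev σ w p = q then star (ev B w) else 0) := by
      intro w
      rw [h.ev_perm, IsMU.perm, Finset.sum_mul, Finset.sum_mul]
      refine Finset.sum_congr rfl fun p _ => ?_
      rw [Finset.sum_eq_single (ev σ w p)]
      · rw [if_pos rfl]
      · intro q _ hq
        rw [if_neg (Ne.symm hq), mul_zero]
      · simp
    simp only [e1]
    rw [sumW_sum]
    refine Finset.sum_congr rfl fun p _ => ?_
    rw [sumW_sum]
    refine Finset.sum_congr rfl fun q _ => ?_
    exact (sumW_map (AddMonoidHom.mulLeft (e q p * x)) m _).symm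
  have h2 : ∀ q p, t.n2 (y q p) ^ 2 ≤ 2 * 128 ^ m := by
    intro q p
    have h3 := n2_sumW_le t m (fun w => if ev σ w p = q then star (ev B w) else 0)
      (fun v w => (if red w = red v then 1 else 0) + η) (by
      intro v w hv hw
      by_cases h4 : ev σ v p = q
      · by_cases h5 : ev σ w p = q
        · rw [if_pos h4, if_pos h5, star_star, t.tr_comm, ev_reverse_star hB, ← ev_append]
          by_cases h6 : red w = red v
          · rw [if_pos h6]
            have h7 : ev B (w.reverse ++ v) = 1 := by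
              rw [← ev_red hB2, (red_reverse_append_iff w v).mpr h6]; simp
            rw [h7, t.tr_one]; simp; exact hη
          · rw [if_neg h6, zero_add]
            apply htr
            · simp; omega
            · intro h7
              exact h6 ((red_reverse_append_iff w v).mp h7)
        · rw [if_neg h5]; simp
          split_ifs <;> linarith
      · rw [if_neg h4]; simp
        split_ifs <;> linarith)
    refine h3.trans ?_
    have h4 : sumW m (fun v => sumW m (fun w => (if red w = red v then (1:ℝ) else 0) + η)) =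
        sumW m (fun v => sumW m (fun w => (if red w = red v then (1:ℝ) else 0))) + 256 ^ m * η := by
      simp only [sumW_add, sumW_const]
      rw [← mul_assoc, ← mul_pow]; norm_num
    rw [h4]
    linarith [pair_count_le m]
  have h3 : ∀ q p, t.n2 (e q p * x * y q p) ≤ ‖x‖ * Real.sqrt (2 * 128 ^ m) := by
    intro q p
    have a1 : t.n2 (y q p) ≤ Real.sqrt (2 * 128 ^ m) := Real.le_sqrt_of_sq_le (h2 q p)
    have a2 := t.n2_mul_le (e q p * x) (y q p)
    have a3 : ‖e q p * x‖ ≤ ‖x‖ := (norm_mul_le _ _).trans (by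
      have := h.norm_le q p
      nlinarith [norm_nonneg x])
    refine a2.trans (mul_le_mul a3 a1 (t.n2_nonneg _) (norm_nonneg _))
  have tri : ∀ (s : Finset X) (f : X → R), t.n2 (∑ p ∈ s, f p) ≤ ∑ p ∈ s, t.n2 (f p) := by
    intro s f
    induction s using Finset.induction_on with
    | empty => simp
    | insert a s ha ih =>
      rw [Finset.sum_insert ha, Finset.sum_insert ha]
      exact (t.n2_add_le _ _).trans (by linarith)
  have h4 : t.n2 ((avgOp (fun i => h.perm (σ i)) B)^[m] x) ≤ N ^ 2 * (‖x‖ * Real.sqrt (2 * 128 ^ m)) := by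
    rw [h1]
    calc t.n2 (∑ p, ∑ q, e q p * x * y q p) ≤ ∑ p : X, ∑ q : X, t.n2 (e q p * x * y q p) :=
          (tri _ _).trans (Finset.sum_le_sum fun p _ => tri _ _)
      _ ≤ ∑ p : X, ∑ q : X, ‖x‖ * Real.sqrt (2 * 128 ^ m) :=
          Finset.sum_le_sum fun p _ => Finset.sum_le_sum fun q _ => h3 q p
      _ = _ := by
          simp only [Finset.sum_const, Finset.card_univ, nsmul_eq_mul]
          rw [hN]; ring
  have h5 : (N ^ 2 * (‖x‖ * Real.sqrt (2 * 128 ^ m))) ^ 2 = 2 * ‖x‖ ^ 2 * N ^ 4 * 128 ^ m := by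
    have : Real.sqrt (2 * 128 ^ m) ^ 2 = 2 * 128 ^ m := Real.sq_sqrt (by positivity)
    calc _ = N ^ 4 * ‖x‖ ^ 2 * (Real.sqrt (2 * 128 ^ m)) ^ 2 := by ring
      _ = _ := by rw [this]; ring
  rw [← h5]
  have := t.n2_nonneg ((avgOp (fun i => h.perm (σ i)) B)^[m] x)
  gcongr

end Pool.Agent.Helper234.Brown
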