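import Pool.Agent.Helper234.BrownJ

open scoped BoundedContinuousFunction ComplexOrder Topology InnerProductSpace
open Filter

namespace Pool.Agent.Helper234.Brown

universe u v w

section ball

/-- the ball of reduced words of length at most `L` -/
abbrev Ball (L : ℕ) : Type := {l : List (Fin 16) // IsRed l ∧ l.length ≤ L}

instance (L : ℕ) : Finite (Ball L) := by
  have : Finite {l : List (Fin 16) // l.length ≤ L} := (List.finite_length_le (Fin 16) L).to_subtype
  exact Finite.of_injective (fun l : Ball L => (⟨l.1, l.2.2⟩ : {l : List (Fin 16) // l.length ≤ L}))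
    (fun a b h => Subtype.ext (by simpa using h))

noncomputable instance (L : ℕ) : Fintype (Ball L) := Fintype.ofFinite _

/-- truncated step -/
def bfun (L : ℕ) (i : Fin 16) (l : Ball L) : Ball L :=
  if h : (step i l.1).length ≤ L then ⟨step i l.1, isRed_step l.2.1, h⟩ else l

lemma bfun_bfun (L : ℕ) (i : Fin 16) (l : Ball L) : bfun L i (bfun L i l) = l := by
  by_cases h : (step i l.1).length ≤ L
  · have e : bfun L i l = ⟨step i l.1, isRed_step l.2.1, h⟩ := dif_pos h
    rw [e]
    have h2 : (step i (step i l.1)).length ≤ L := by rw [step_step l.2.1]; exact l.2.2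
    unfold bfun
    rw [dif_pos h2]
    exact Subtype.ext (step_step l.2.1)
  · have e : bfun L i l = l := dif_neg h
    rw [e, e]

/-- truncated step as a permutation -/
def bperm (L : ℕ) (i : Fin 16) : Equiv.Perm (Ball L) :=
  ⟨bfun L i, bfun L i, bfun_bfun L i, bfun_bfun L i⟩

lemma length_act_le (w l : List (Fin 16)) : (act w l).length ≤ w.length + l.length := by
  induction w with
  | nil => simp
  | cons i w ih =>
    have := length_step_le i (act w l)
    rw [act_cons, List.length_cons]
    omega

lemma ev_bperm (L : ℕ) (w : List (Fin 16)) (l : Ball L) (h : w.length + l.1.length ≤ L) :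
    (ev (bperm L) w l).1 = act w l.1 := by
  induction w with
  | nil => rfl
  | cons i w ih =>
    rw [List.length_cons] at h
    have h1 := ih (by omega)
    rw [ev_cons, Equiv.Perm.mul_apply]
    show (bfun L i (ev (bperm L) w l)).1 = _
    have h2 : (step i (ev (bperm L) w l).1).length ≤ L := by
      rw [h1]
      have := length_step_le i (act w l.1)
      have := length_act_le w l.1
      omega
    unfold bfun
    rw [dif_pos h2]
    show step i (ev (bperm L) w l).1 = _
    rw [h1, act_cons]

/-- the action on configurations -/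
def cperm (L M : ℕ) (i : Fin 16) : Equiv.Perm (Fin M × Ball L → Fin 2) where
  toFun f := fun p => f (p.1, bperm L i p.2)
  invFun f := fun p => f (p.1, bperm L i p.2)
  left_inv f := by ext p; exact congrArg (fun z => (f (p.1, z)).val) (bfun_bfun L i p.2)
  right_inv f := by ext p; exact congrArg (fun z => (f (p.1, z)).val) (bfun_bfun L i p.2)

lemma cperm_mul_self (L M : ℕ) (i : Fin 16) : cperm L M i * cperm L M i = 1 := by
  ext f p
  exact congrArg (fun z => (f (p.1, z)).val) (bfun_bfun L i p.2)

lemma ev_cperm (L M : ℕ) (w : List (Fin 16)) (f : Fin M × Ball L → Fin 2) (p : Fin M × Ball L) :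
    ev (cperm L M) w f p = f (p.1, ev (bperm L) w.reverse p.2) := by
  induction w generalizing p with
  | nil => rfl
  | cons i w ih =>
    rw [ev_cons, Equiv.Perm.mul_apply]
    show ev (cperm L M) w f (p.1, bperm L i p.2) = _
    rw [ih, List.reverse_cons, ev_append]
    simp [Equiv.Perm.mul_apply]

lemma card_fixed (L M : ℕ) (w : List (Fin 16)) (hw : w.length ≤ L) (hred : red w ≠ []) [DecidableEq (Fin M × Ball L → Fin 2)] :
    (Finset.univ.filter (fun f => ev (cperm L M) w f = f)).card * 2 ^ M ≤
      Fintype.card (Fin M × Ball L → Fin 2) := by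
  classical
  have h0 : IsRed ([] : List (Fin 16)) ∧ ([] : List (Fin 16)).length ≤ L := ⟨isRed_nil, by simp⟩
  set o : Ball L := ⟨[], h0⟩ with ho
  set k : Ball L := ev (bperm L) w.reverse o with hk
  have hko : k ≠ o := by
    intro h
    have h1 : k.1 = act w.reverse [] := ev_bperm L w.reverse o (by simpa [ho] using hw)
    rw [h] at h1
    have h2 := (red_reverse_append_iff w []).mp (by rw [List.append_nil]; exact h1.symm)
    exact hred h2
  have h2 : Fintype.card (Fin M → Fin 2) = 2 ^ M := by simp
  rw [← h2, ← Fintype.card_coe, ← Fintype.card_prod]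
  refine Fintype.card_le_of_injective
    (fun q : {f // f ∈ Finset.univ.filter (fun f => ev (cperm L M) w f = f)} × (Fin M → Fin 2) =>
      fun p : Fin M × Ball L => if p.2 = o then q.2 p.1 else q.1.1 p) ?_
  rintro ⟨⟨f, hf⟩, a⟩ ⟨⟨g, hg⟩, b⟩ heq
  rw [Finset.mem_filter] at hf hg
  have hf1 : ∀ m, f (m, k) = f (m, o) := by
    intro m
    have := congrFun hf.2 (m, o)
    rw [ev_cperm] at this
    exact this
  have hg1 : ∀ m, g (m, k) = g (m, o) := by
    intro m
    have := congrFun hg.2 (m, o)
    rw [ev_cperm] at this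
    exact this
  have hab : a = b := by
    ext m
    have := congrFun heq (m, o)
    simp only [if_true] at this
    rw [this]
  have hfg : f = g := by
    ext ⟨m, z⟩
    by_cases hz : z = o
    · subst hz
      have := congrFun heq (m, k)
      simp only [if_neg hko] at this
      rw [← hf1, ← hg1, this]
    · have := congrFun heq (m, z)
      simp only [if_neg hz] at this
      rw [this]
  subst hab; subst hfg; rfl

end ball

variable {R : Type u} [CStarAlgebra R] {t : PTr R}

lemma mu_isMU (j : Matrix (Fin 2) (Fin 2) ℂ →⋆ₐ[ℂ] R) : IsMU (fun a b => j (mu a b)) where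
  mul_eq p q r s := by
    rw [← map_mul, mu_mul]
    split_ifs <;> simp
  star_eq p q := by rw [← map_star, star_mu]
  sum_eq := by rw [← map_sum, sum_mu, map_one]

lemma exists_MU (j : ℕ → (Matrix (Fin 2) (Fin 2) ℂ →⋆ₐ[ℂ] R))
    (hj : ∀ k l, k ≠ l → ∀ x y, j k x * j l y = j l y * j k x) (n : ℕ) :
    ∃ e : (Fin n → Fin 2) → (Fin n → Fin 2) → R, IsMU e ∧
      ∀ k, n ≤ k → ∀ x p q, e p q * j k x = j k x * e p q := by
  induction n with
  | zero =>
    refine ⟨fun _ _ => 1, ⟨?_, ?_, ?_⟩, ?_⟩
    · intro p q r s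
      rw [if_pos (Subsingleton.elim _ _), mul_one]
    · intro p q; simp
    · simp
    · intro k _ x p q; simp
  | succ n ih =>
    obtain ⟨e, he, hc⟩ := ih
    refine ⟨fun p q => j n (mu (p 0) (q 0)) * e (fun i => p i.succ) (fun i => q i.succ), ⟨?_, ?_, ?_⟩, ?_⟩
    · intro p q r s
      have h1 : j n (mu (p 0) (q 0)) * e (fun i => p i.succ) (fun i => q i.succ) *
          (j n (mu (r 0) (s 0)) * e (fun i => r i.succ) (fun i => s i.succ)) =
          (j n (mu (p 0) (q 0)) * j n (mu (r 0) (s 0))) *
          (e (fun i => p i.succ) (fun i => q i.succ) * e (fun i => r i.succ) (fun i => s i.succ)) := by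
        rw [show j n (mu (p 0) (q 0)) * e (fun i => p i.succ) (fun i => q i.succ) *
          (j n (mu (r 0) (s 0)) * e (fun i => r i.succ) (fun i => s i.succ)) =
          j n (mu (p 0) (q 0)) * (e (fun i => p i.succ) (fun i => q i.succ) * j n (mu (r 0) (s 0))) *
          e (fun i => r i.succ) (fun i => s i.succ) by simp only [mul_assoc], hc n le_rfl]
        simp only [mul_assoc]
      rw [h1, ← map_mul, mu_mul, he.mul_eq]
      by_cases hqr : q = r
      · subst hqr; simp
      · rw [if_neg hqr]
        by_cases h2 : q 0 = r 0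
        · have h3 : (fun i : Fin n => q i.succ) ≠ (fun i => r i.succ) := by
            intro h3
            apply hqr
            ext i
            refine Fin.cases ?_ (fun i => ?_) i
            · rw [h2]
            · rw [congrFun h3 i]
          rw [if_neg h3, mul_zero]
        · rw [if_neg h2, map_zero, zero_mul]
    · intro p q
      rw [star_mul, he.star_eq, ← map_star, star_mu, hc n le_rfl]
    · rw [← (Fin.consEquiv (fun _ : Fin (n+1) => Fin 2)).sum_comp, Fintype.sum_prod_type]
      simp only [Fin.consEquiv_apply, Fin.cons_zero, Fin.cons_succ]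
      have : ∀ a : Fin 2, ∑ f : Fin n → Fin 2, j n (mu a a) * e (fun i => f i) (fun i => f i) =
          j n (mu a a) := by
        intro a
        rw [← Finset.mul_sum, he.sum_eq, mul_one]
      simp only [this]
      rw [← map_sum, sum_mu, map_one]
    · intro k hk x p q
      rw [mul_assoc, hc k (by omega), ← mul_assoc, hj n k (by omega), mul_assoc]

lemma IsMU.transport {X Y : Type} [Fintype X] [DecidableEq X] [Fintype Y] [DecidableEq Y]
    {e : X → X → R} (h : IsMU e) (φ : Y ≃ X) : IsMU (fun p q => e (φ p) (φ q)) where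
  mul_eq p q r s := by
    rw [h.mul_eq]
    simp
  star_eq p q := h.star_eq _ _
  sum_eq := by
    rw [← h.sum_eq]
    exact Fintype.sum_equiv φ _ _ (fun _ => rfl)

/-- a finite level: matrix units and involutive permutations without short relations -/
structure Level (t : PTr R) (L : ℕ) (η : ℝ) where
  X : Type
  [fin : Fintype X]
  [dec : DecidableEq X]
  e : X → X → R
  mu : IsMU e
  σ : Fin 16 → Equiv.Perm X
  inv : ∀ i, σ i * σ i = 1
  small : ∀ w : List (Fin 16), w.length ≤ L → red w ≠ [] →
    ‖t.tr (ev (fun i => mu.perm (σ i)) w)‖ ≤ η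

attribute [instance] Level.fin Level.dec

lemma exists_level (j : ℕ → (Matrix (Fin 2) (Fin 2) ℂ →⋆ₐ[ℂ] R))
    (hj : ∀ k l, k ≠ l → ∀ x y, j k x * j l y = j l y * j k x) (L : ℕ) (η : ℝ) (hη : 0 < η) :
    Nonempty (Level t L η) := by
  classical
  obtain ⟨M, hM⟩ : ∃ M : ℕ, (1 / 2 : ℝ) ^ M < η := exists_pow_lt_of_lt_one hη (by norm_num)
  let E := Fin M × Ball L
  obtain ⟨e, he, -⟩ := exists_MU j hj (Fintype.card E)
  let φ : (E → Fin 2) ≃ (Fin (Fintype.card E) → Fin 2) := Equiv.arrowCongr (Fintype.equivFin E) (Equiv.refl _)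
  have hmu := he.transport φ
  refine ⟨⟨E → Fin 2, fun p q => e (φ p) (φ q), hmu, cperm L M, cperm_mul_self L M, ?_⟩⟩
  intro w hw hred
  rw [hmu.ev_perm, hmu.tr_perm]
  have h1 := card_fixed L M w hw hred
  set c := (Finset.univ.filter (fun f => ev (cperm L M) w f = f)).card with hc
  have hN : (0 : ℝ) < Fintype.card (E → Fin 2) := by
    exact_mod_cast Fintype.card_pos
  have h2 : (c : ℝ) * 2 ^ M ≤ Fintype.card (E → Fin 2) := by exact_mod_cast h1
  have h3 : ‖(c : ℂ) / (Fintype.card (E → Fin 2) : ℂ)‖ = (c : ℝ) / Fintype.card (E → Fin 2) := by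
    rw [norm_div, Complex.norm_natCast, Complex.norm_natCast]
  rw [h3, div_le_iff₀ hN]
  have h4 : (c : ℝ) ≤ (1 / 2) ^ M * Fintype.card (E → Fin 2) := by
    have h5 : ((1 : ℝ) / 2) ^ M * 2 ^ M = 1 := by rw [← mul_pow]; norm_num
    calc (c : ℝ) = (1 / 2) ^ M * (c * 2 ^ M) := by linear_combination (-(c : ℝ)) * h5
      _ ≤ (1 / 2) ^ M * Fintype.card (E → Fin 2) := by gcongr
  refine h4.trans ?_
  gcongr

end Pool.Agent.Helper234.Brown
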