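import Pool.Agent.Helper234.BrownK

open scoped BoundedContinuousFunction ComplexOrder Topology InnerProductSpace
open Filter

namespace Pool.Agent.Helper234.Brown

universe u v w

section gns

variable {A : Type u} [CStarAlgebra A] {t : PTr A} (G : GNSData A t)

lemma GNSData.norm_eq (x : A) : ‖G.π x G.ξ‖ = t.n2 x := by
  have h := G.inner_eq x x
  have h2 : (‖G.π x G.ξ‖ ^ 2 : ℝ) = t.n2 x ^ 2 := by
    rw [t.n2_sq, ← h, ← inner_self_eq_norm_sq (𝕜 := ℂ)]; rfl
  exact (sq_eq_sq₀ (norm_nonneg _) (t.n2_nonneg _)).mp h2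

lemma GNSData.π_one_apply (v : G.H) : G.π 1 v = v := by rw [map_one]; rfl

lemma GNSData.inner_xi (x : A) : inner ℂ G.ξ (G.π x G.ξ) = t.tr x := by
  have h := G.inner_eq 1 x
  rwa [G.π_one_apply, star_one, one_mul] at h

lemma GNSData.ext_of_xi {S T : G.H →L[ℂ] G.H} (h : ∀ z, S (G.π z G.ξ) = T (G.π z G.ξ)) : S = T := by
  apply ContinuousLinearMap.coeFn_injective
  exact G.dense.equalizer S.continuous T.continuous (by ext z; exact h z)

lemma GNSData.eq_of_xi {x y : A} (h : G.π x G.ξ = G.π y G.ξ) : G.π x = G.π y := by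
  apply G.ext_of_xi
  intro z
  have h1 : G.π x (G.π z G.ξ) - G.π y (G.π z G.ξ) = G.π ((x - y) * z) G.ξ := by
    rw [map_mul, map_sub]; rfl
  have h2 : t.n2 (x - y) = 0 := by
    rw [← G.norm_eq, map_sub]
    show ‖G.π x G.ξ - G.π y G.ξ‖ = 0
    rw [h, sub_self, norm_zero]
  have h3 : ‖G.π ((x - y) * z) G.ξ‖ ≤ 0 := by
    rw [G.norm_eq]
    have := t.n2_mul_le' (x - y) z
    rwa [h2, zero_mul] at this
  rw [← h1] at h3
  exact sub_eq_zero.mp (norm_le_zero_iff.mp h3)

lemma GNSData.π_norm_le (x : A) : ‖G.π x‖ ≤ ‖x‖ := NonUnitalStarAlgHom.norm_apply_le G.π x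

lemma GNSData.π_cont : Continuous G.π :=
  AddMonoidHomClass.continuous_of_bound G.π 1 (fun x => by simpa using G.π_norm_le x)

lemma GNSData.norm_xi : ‖G.ξ‖ = 1 := by
  have := G.norm_eq 1
  rwa [G.π_one_apply, t.n2_one] at this

lemma GNSData.nontrivial : Nontrivial G.H := by
  refine ⟨⟨G.ξ, 0, ?_⟩⟩
  intro h
  have := G.norm_xi
  rw [h, norm_zero] at this
  exact zero_ne_one this

/-- contractions lift to contractions -/
lemma GNSData.lift_contraction (x : A) (hx : ‖G.π x‖ ≤ 1) : ∃ y, ‖y‖ ≤ 1 ∧ G.π y = G.π x := by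
  let h : ℝ → ℝ := fun s => (max 1 (Real.sqrt s))⁻¹
  have hcont : Continuous h := by
    refine Continuous.inv₀ (by fun_prop) (fun s => ?_)
    have : (1 : ℝ) ≤ max 1 (Real.sqrt s) := le_max_left _ _
    positivity
  have hle : ∀ s, 0 ≤ s → s * h s ^ 2 ≤ 1 := by
    intro s hs
    have h1 : Real.sqrt s ≤ max 1 (Real.sqrt s) := le_max_right _ _
    have h0 : 0 < max 1 (Real.sqrt s) := lt_of_lt_of_le one_pos (le_max_left _ _)
    have h2 : s ≤ (max 1 (Real.sqrt s)) ^ 2 := by
      calc s = Real.sqrt s ^ 2 := (Real.sq_sqrt hs).symm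
        _ ≤ _ := by gcongr
    show s * ((max 1 (Real.sqrt s))⁻¹) ^ 2 ≤ 1
    rw [inv_pow, ← div_eq_mul_inv, div_le_one (by positivity)]
    exact h2
  set a := star x * x with ha
  have hsa : IsSelfAdjoint a := IsSelfAdjoint.star_mul_self x
  refine ⟨x * cfc h a, ?_, ?_⟩
  · have h1 : star (x * cfc h a) * (x * cfc h a) = cfc (fun s => s * h s ^ 2) a := by
      have hsc : star (cfc h a) = cfc h a := by
        rw [← cfc_star]; simp
      rw [star_mul, hsc, show cfc h a * star x * (x * cfc h a) = cfc h a * a * cfc h a by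
        rw [ha]; simp only [mul_assoc]]
      conv_lhs => enter [1, 2]; rw [← cfc_id ℝ a hsa]
      rw [← cfc_mul _ _ a (hcont.continuousOn) (by fun_prop),
        ← cfc_mul _ _ a (by fun_prop) (hcont.continuousOn)]
      congr 1
      ext s
      simp only [id]
      ring
    have h2 : ‖x * cfc h a‖ * ‖x * cfc h a‖ ≤ 1 := by
      rw [← CStarRing.norm_star_mul_self, h1]
      refine norm_cfc_le zero_le_one (fun s hs => ?_)
      have hs0 : 0 ≤ s := by
        let _ : PartialOrder A := CStarAlgebra.spectralOrder A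
        have _ : StarOrderedRing A := CStarAlgebra.spectralOrderedRing A
        exact spectrum_nonneg_of_nonneg (star_mul_self_nonneg x) hs
      rw [Real.norm_of_nonneg (mul_nonneg hs0 (sq_nonneg _))]
      exact hle s hs0
    nlinarith [norm_nonneg (x * cfc h a)]
  · rw [map_mul]
    have h3 : G.π (cfc h a) = cfc h (G.π a) := by
      exact StarAlgHom.map_cfc (S := ℂ) G.π h a (hcont.continuousOn) G.π_cont hsa
        (hsa.map G.π)
    have h4 : cfc h (G.π a) = 1 := by
      have h5 : cfc h (G.π a) = cfc (fun _ => (1 : ℝ)) (G.π a) := by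
        refine cfc_congr (fun s hs => ?_)
        have h6 : ‖s‖ ≤ 1 := by
          have := G.nontrivial
          refine (spectrum.norm_le_norm_of_mem hs).trans ?_
          rw [ha, map_mul, map_star, CStarRing.norm_star_mul_self]
          nlinarith [norm_nonneg (G.π x)]
        show (max 1 (Real.sqrt s))⁻¹ = 1
        have h7 : Real.sqrt s ≤ 1 := by
          rw [Real.sqrt_le_left zero_le_one, one_pow]
          exact (Real.le_norm_self s).trans h6
        rw [max_eq_left h7, inv_one]
      rw [h5, cfc_const_one ℝ (G.π a) (hsa.map G.π)]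
    rw [h3, h4, mul_one]

end gns

end Pool.Agent.Helper234.Brown
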