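import Pool.Agent.Helper234.BrownL

open scoped BoundedContinuousFunction ComplexOrder Topology InnerProductSpace
open Filter

namespace Pool.Agent.Helper234.Brown

universe u v w

/-- the unit ball is complete for the 2-norm -/
def BallComplete {A : Type u} [CStarAlgebra A] (t : PTr A) : Prop :=
  ∀ x : ℕ → A, (∀ n, ‖x n‖ ≤ 1) →
    (∀ ε : ℝ, 0 < ε → ∃ N, ∀ m ≥ N, ∀ n ≥ N, t.n2 (x m - x n) < ε) →
    ∃ y, ‖y‖ ≤ 1 ∧ Tendsto (fun n => t.n2 (x n - y)) atTop (𝓝 0)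

lemma n2_chain {A : Type u} [CStarAlgebra A] (t : PTr A) (z : ℕ → A) (i : ℕ) (k : ℕ)
    (h : ∀ l, i ≤ l → l < i + k → t.n2 (z (l+1) - z l) ≤ (1/2)^l) :
    t.n2 (z (i + k) - z i) ≤ 2 * (1/2 : ℝ)^i - 2 * (1/2 : ℝ)^(i+k) := by
  induction k with
  | zero => simp
  | succ k ih =>
    have h1 := ih (fun l hl hl2 => h l hl (by omega))
    have h2 := h (i + k) (by omega) (by omega)
    have h3 := t.n2_sub_tri (z (i + (k+1))) (z (i + k)) (z i)
    have h4 : (1/2 : ℝ)^(i+(k+1)) = (1/2 : ℝ)^(i+k) / 2 := by rw [← add_assoc, pow_succ]; ring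
    rw [h4]
    have h5 : z (i + k + 1) = z (i + (k + 1)) := rfl
    rw [h5] at h2
    linarith

theorem ballComplete_ultra {R : Type u} [CStarAlgebra R] (t : PTr R) (U : Ultrafilter ℕ)
    (hU : (U : Filter ℕ) ≤ cofinite) : BallComplete (t.ultra U) := by
  classical
  intro x hx hc
  -- subsequence
  have hsub : ∃ φ : ℕ → ℕ, (∀ i, i ≤ φ i) ∧ ∀ i, ∀ m ≥ φ i, ∀ n ≥ φ i, (t.ultra U).n2 (x m - x n) < (1/2)^i := by
    choose N hN using fun i : ℕ => hc ((1/2)^i) (by positivity)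
    refine ⟨fun i => max i (N i), fun i => le_max_left _ _, fun i m hm n hn => ?_⟩
    exact hN i m ((le_max_right _ _).trans hm) n ((le_max_right _ _).trans hn)
  obtain ⟨φ, hφ1, hφ2⟩ := hsub
  -- make it monotone
  let ψ : ℕ → ℕ := fun i => ∑ l ∈ Finset.range (i+1), φ l
  have hψmono : ∀ i, ψ i ≤ ψ (i+1) := fun i => by
    show ∑ l ∈ Finset.range (i+1), φ l ≤ ∑ l ∈ Finset.range (i+1+1), φ l
    rw [Finset.sum_range_succ _ (i+1)]
    omega
  have hψφ : ∀ i, φ i ≤ ψ i := fun i => by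
    show φ i ≤ ∑ l ∈ Finset.range (i+1), φ l
    rw [Finset.sum_range_succ]
    omega
  let z : ℕ → (ℕ →ᵇ R) := fun i => x (ψ i)
  have hz : ∀ i, (t.ultra U).n2 (z (i+1) - z i) < (1/2)^i := fun i =>
    hφ2 i _ ((hψφ i).trans (hψmono i)) _ (hψφ i)
  let E : ℕ → Set ℕ := fun i => {n | t.n2 (z (i+1) n - z i n) < (1/2)^i}
  have hE : ∀ i, E i ∈ (U : Filter ℕ) := fun i => by
    have h1 := t.tendsto_n2 U (z (i+1) - z i)
    exact h1.eventually_lt_const (hz i)
  let F : ℕ → Set ℕ := fun i => {n | (∀ l < i, n ∈ E l) ∧ i ≤ n}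
  have hF : ∀ i, F i ∈ (U : Filter ℕ) := fun i => by
    have h1 : {n | ∀ l < i, n ∈ E l} ∈ (U : Filter ℕ) := by
      have : {n | ∀ l < i, n ∈ E l} = ⋂ l ∈ Finset.range i, E l := by
        ext n; simp
      rw [this, Filter.biInter_finset_mem]
      exact fun l _ => hE l
    have h2 : {n : ℕ | i ≤ n} ∈ (U : Filter ℕ) := by
      apply hU
      rw [Nat.cofinite_eq_atTop]
      exact eventually_ge_atTop i
    exact Filter.inter_mem h1 h2
  let κ : ℕ → ℕ := fun n => Nat.findGreatest (fun i => n ∈ F i) n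
  have hκ : ∀ n, n ∈ F (κ n) := fun n => by
    apply Nat.findGreatest_spec (P := fun i => n ∈ F i) (m := 0) (Nat.zero_le _)
    exact ⟨fun l hl => absurd hl (Nat.not_lt_zero _), Nat.zero_le _⟩
  have hκ2 : ∀ i n, n ∈ F i → i ≤ κ n := fun i n h =>
    Nat.le_findGreatest h.2 h
  have hyb : ∀ n, ‖z (κ n) n‖ ≤ 1 := fun n => ((z (κ n)).norm_coe_le_norm n).trans (hx _)
  let y : ℕ →ᵇ R := BoundedContinuousFunction.ofNormedAddCommGroupDiscrete (fun n => z (κ n) n) 1 hyb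
  have hy : ∀ n, y n = z (κ n) n := fun n => rfl
  have hyn : ‖y‖ ≤ 1 := by
    rw [BoundedContinuousFunction.norm_le zero_le_one]
    exact hyb
  have key : ∀ i, (t.ultra U).n2 (y - z i) ≤ 2 * (1/2)^i := fun i => by
    refine le_of_tendsto (t.tendsto_n2 U (y - z i)) ?_
    filter_upwards [hF i] with n hn
    have h1 := hκ2 i n hn
    obtain ⟨k, hk⟩ := Nat.exists_eq_add_of_le h1
    have h2 := n2_chain t (fun l => z l n) i k (fun l _ hl => by
      rw [← hk] at hl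
      exact le_of_lt ((hκ n).1 l hl))
    show t.n2 (z (κ n) n - z i n) ≤ _
    rw [hk]
    refine h2.trans ?_
    have : (0:ℝ) ≤ 2 * (1/2)^(i+k) := by positivity
    linarith
  refine ⟨y, hyn, ?_⟩
  rw [Metric.tendsto_atTop]
  intro ε hε
  obtain ⟨i, hi⟩ : ∃ i : ℕ, (1/2 : ℝ)^i < ε/3 := exists_pow_lt_of_lt_one (by positivity) (by norm_num)
  refine ⟨ψ i, fun n hn => ?_⟩
  rw [Real.dist_eq, sub_zero, abs_of_nonneg ((t.ultra U).n2_nonneg _)]
  have h1 := (t.ultra U).n2_sub_tri (x n) (z i) y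
  have h2 := hφ2 i n ((hψφ i).trans hn) (ψ i) (hψφ i)
  have h3 := key i
  rw [(t.ultra U).n2_sub_comm] at h3
  change (t.ultra U).n2 (x n - z i) < _ at h2
  linarith

/-- product trace -/
noncomputable def PTr.prod {A : Type u} {B : Type v} [CStarAlgebra A] [CStarAlgebra B] (s : PTr A) (t : PTr B) :
    PTr (A × B) where
  tr := (1/2:ℂ) • (s.tr.comp (LinearMap.fst ℂ A B) + t.tr.comp (LinearMap.snd ℂ A B))
  tr_one := by
    simp [s.tr_one, t.tr_one]
    norm_num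
  tr_comm x y := by
    simp [s.tr_comm x.1 y.1, t.tr_comm x.2 y.2]
  tr_nonneg x := by
    have h1 := s.tr_nonneg x.1
    have h2 := t.tr_nonneg x.2
    have h3 := add_nonneg h1 h2
    have h4 : (0:ℂ) ≤ 1/2 := by
      rw [Complex.le_def]; norm_num
    exact mul_nonneg h4 h3

lemma PTr.prod_tr {A : Type u} {B : Type v} [CStarAlgebra A] [CStarAlgebra B] (s : PTr A) (t : PTr B)
    (x : A × B) : (s.prod t).tr x = (1/2) * (s.tr x.1 + t.tr x.2) := rfl

lemma PTr.prod_n2_sq {A : Type u} {B : Type v} [CStarAlgebra A] [CStarAlgebra B] (s : PTr A) (t : PTr B)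
    (x : A × B) : (s.prod t).n2 x ^ 2 = (s.n2 x.1 ^ 2 + t.n2 x.2 ^ 2) / 2 := by
  rw [PTr.n2_sq, PTr.prod_tr]
  show ((1/2) * (s.tr (star x.1 * x.1) + t.tr (star x.2 * x.2))).re = _
  rw [s.tr_self_eq, t.tr_self_eq, ← Complex.ofReal_add,
    show (1/2 : ℂ) = ((1/2 : ℝ) : ℂ) by norm_num, ← Complex.ofReal_mul, Complex.ofReal_re]
  ring

lemma PTr.n2_fst_le {A : Type u} {B : Type v} [CStarAlgebra A] [CStarAlgebra B] (s : PTr A) (t : PTr B)
    (x : A × B) : s.n2 x.1 ≤ 2 * (s.prod t).n2 x := by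
  have h := PTr.prod_n2_sq s t x
  have h1 := (s.prod t).n2_nonneg x
  apply le_of_sq_le_sq _ (by positivity)
  nlinarith [sq_nonneg (t.n2 x.2), sq_nonneg (s.n2 x.1)]

lemma PTr.n2_snd_le {A : Type u} {B : Type v} [CStarAlgebra A] [CStarAlgebra B] (s : PTr A) (t : PTr B)
    (x : A × B) : t.n2 x.2 ≤ 2 * (s.prod t).n2 x := by
  have h := PTr.prod_n2_sq s t x
  have h1 := (s.prod t).n2_nonneg x
  apply le_of_sq_le_sq _ (by positivity)
  nlinarith [sq_nonneg (t.n2 x.2), sq_nonneg (s.n2 x.1)]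

lemma PTr.prod_n2_le {A : Type u} {B : Type v} [CStarAlgebra A] [CStarAlgebra B] (s : PTr A) (t : PTr B)
    (x : A × B) : (s.prod t).n2 x ≤ s.n2 x.1 + t.n2 x.2 := by
  have h := PTr.prod_n2_sq s t x
  have h1 := s.n2_nonneg x.1
  have h2 := t.n2_nonneg x.2
  apply le_of_sq_le_sq _ (by positivity)
  nlinarith

lemma BallComplete.prod {A : Type u} {B : Type v} [CStarAlgebra A] [CStarAlgebra B] {s : PTr A} {t : PTr B}
    (hs : BallComplete s) (ht : BallComplete t) : BallComplete (s.prod t) := by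
  intro x hx hc
  obtain ⟨y, hy1, hy2⟩ := hs (fun n => (x n).1) (fun n => (norm_fst_le _).trans (hx n)) (fun ε hε => by
    obtain ⟨N, hN⟩ := hc (ε/2) (by positivity)
    refine ⟨N, fun m hm n hn => ?_⟩
    have h1 := PTr.n2_fst_le s t (x m - x n)
    have h2 := hN m hm n hn
    change s.n2 ((x m).1 - (x n).1) ≤ _ at h1
    linarith)
  obtain ⟨z, hz1, hz2⟩ := ht (fun n => (x n).2) (fun n => (norm_snd_le _).trans (hx n)) (fun ε hε => by
    obtain ⟨N, hN⟩ := hc (ε/2) (by positivity)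
    refine ⟨N, fun m hm n hn => ?_⟩
    have h1 := PTr.n2_snd_le s t (x m - x n)
    have h2 := hN m hm n hn
    change t.n2 ((x m).2 - (x n).2) ≤ _ at h1
    linarith)
  refine ⟨(y, z), ?_, ?_⟩
  · rw [Prod.norm_def]
    exact max_le hy1 hz1
  · have h := hy2.add hz2
    rw [add_zero] at h
    exact squeeze_zero (fun n => (s.prod t).n2_nonneg _) (fun n => PTr.prod_n2_le s t _) h

end Pool.Agent.Helper234.Brown
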