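import Pool.Agent.Helper234.BrownM

open scoped BoundedContinuousFunction ComplexOrder Topology InnerProductSpace
open Filter

namespace Pool.Agent.Helper234.Brown

universe u v w

section vnc

variable {A : Type u} [CStarAlgebra A] {t : PTr A}

/-- approximable in 2-norm by elements of `D` -/
def Approx (t : PTr A) (D : StarSubalgebra ℂ A) (x : A) : Prop :=
  ∀ ε : ℝ, 0 < ε → ∃ d ∈ D, t.n2 (x - d) < ε

variable {D : StarSubalgebra ℂ A}

lemma Approx.of_mem {x : A} (h : x ∈ D) : Approx t D x := fun ε hε => ⟨x, h, by simpa using hε⟩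

lemma Approx.add {x y : A} (hx : Approx t D x) (hy : Approx t D y) : Approx t D (x + y) := by
  intro ε hε
  obtain ⟨d, hd, h1⟩ := hx (ε/2) (by positivity)
  obtain ⟨e, he, h2⟩ := hy (ε/2) (by positivity)
  refine ⟨d + e, add_mem hd he, ?_⟩
  rw [show x + y - (d + e) = (x - d) + (y - e) by abel]
  have := t.n2_add_le (x - d) (y - e)
  linarith

lemma Approx.star {x : A} (hx : Approx t D x) : Approx t D (star x) := by
  intro ε hε
  obtain ⟨d, hd, h1⟩ := hx ε hε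
  refine ⟨Star.star d, star_mem hd, ?_⟩
  rw [← star_sub, t.n2_star]
  exact h1

lemma Approx.mul {x y : A} (hx : Approx t D x) (hy : Approx t D y) : Approx t D (x * y) := by
  intro ε hε
  have hxp : 0 < ‖x‖ + 1 := by positivity
  obtain ⟨e, he, h2⟩ := hy (ε/(2 * (‖x‖ + 1))) (by positivity)
  obtain ⟨d, hd, h1⟩ := hx (ε/(2 * (‖e‖ + 1))) (by positivity)
  refine ⟨d * e, mul_mem hd he, ?_⟩
  rw [show x * y - d * e = x * (y - e) + (x - d) * e by noncomm_ring]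
  have h3 := t.n2_add_le (x * (y - e)) ((x - d) * e)
  have h4 := t.n2_mul_le x (y - e)
  have h5 := t.n2_mul_le' (x - d) e
  have h6 : ‖x‖ * t.n2 (y - e) < ε/2 := by
    rw [lt_div_iff₀ (by positivity)] at h2
    have := t.n2_nonneg (y - e)
    rw [lt_div_iff₀ (by positivity)]
    rcases this.eq_or_lt with h0 | h0
    · rw [← h0]; linarith
    · nlinarith [norm_nonneg x]
  have h7 : t.n2 (x - d) * ‖e‖ < ε/2 := by
    rw [lt_div_iff₀ (by positivity)] at h1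
    have := t.n2_nonneg (x - d)
    rw [lt_div_iff₀ (by positivity)]
    rcases this.eq_or_lt with h0 | h0
    · rw [← h0]; linarith
    · nlinarith [norm_nonneg e]
  linarith

lemma Approx.of_lim {x : ℕ → A} {y : A} (hx : ∀ n, Approx t D (x n))
    (h : Tendsto (fun n => t.n2 (x n - y)) atTop (𝓝 0)) : Approx t D y := by
  intro ε hε
  obtain ⟨n, hn⟩ := (h.eventually_lt_const (show (0:ℝ) < ε/2 by positivity)).exists
  obtain ⟨d, hd, h1⟩ := hx n (ε/2) (by positivity)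
  refine ⟨d, hd, ?_⟩
  have := t.n2_sub_tri y (x n) d
  rw [t.n2_sub_comm] at hn
  linarith

lemma Approx.congr {x y : A} (hx : Approx t D x) (h : t.n2 (x - y) = 0) : Approx t D y :=
  Approx.of_lim (x := fun _ => x) (fun _ => hx) (by simp [h])

variable (G : GNSData A t) (D)

lemma GNSData.n2_sub_of_eq {x y : A} (h : G.π x = G.π y) : t.n2 (x - y) = 0 := by
  rw [← G.norm_eq, map_sub, h, sub_self]
  simp

/-- The von Neumann algebra generated by `D` in the GNS representation. -/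
def vnClosure : StarSubalgebra ℂ (G.H →L[ℂ] G.H) where
  carrier := {T | ∃ x, G.π x = T ∧ Approx t D x}
  mul_mem' := by
    rintro _ _ ⟨x, rfl, hx⟩ ⟨y, rfl, hy⟩
    exact ⟨x * y, map_mul _ _ _, hx.mul hy⟩
  add_mem' := by
    rintro _ _ ⟨x, rfl, hx⟩ ⟨y, rfl, hy⟩
    exact ⟨x + y, map_add _ _ _, hx.add hy⟩
  algebraMap_mem' r := ⟨algebraMap ℂ A r, AlgHomClass.commutes _ _, Approx.of_mem (algebraMap_mem _ r)⟩
  star_mem' := by
    rintro _ ⟨x, rfl, hx⟩
    exact ⟨star x, map_star _ _, hx.star⟩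

lemma mem_vnClosure {T : G.H →L[ℂ] G.H} : T ∈ vnClosure D G ↔ ∃ x, G.π x = T ∧ Approx t D x := Iff.rfl

variable {D G}

/-- bounded Cauchy sequences converge -/
lemma vn_lim (hB : BallComplete t) (T : ℕ → (G.H →L[ℂ] G.H)) (hT : ∀ n, T n ∈ vnClosure D G)
    (hT1 : ∀ n, ‖T n‖ ≤ 1) (hc : ∀ ε : ℝ, 0 < ε → ∃ N, ∀ m ≥ N, ∀ n ≥ N, ‖T m G.ξ - T n G.ξ‖ < ε) :
    ∃ y, ‖y‖ ≤ 1 ∧ Approx t D y ∧ ∃ x : ℕ → A, (∀ n, G.π (x n) = T n) ∧
      Tendsto (fun n => t.n2 (x n - y)) atTop (𝓝 0) := by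
  have h1 : ∀ n, ∃ x, ‖x‖ ≤ 1 ∧ G.π x = T n ∧ Approx t D x := fun n => by
    obtain ⟨x, hx, hx2⟩ := hT n
    obtain ⟨y, hy, hy2⟩ := G.lift_contraction x (by rw [hx]; exact hT1 n)
    refine ⟨y, hy, hy2.trans hx, hx2.congr (G.n2_sub_of_eq hy2.symm)⟩
  choose x hx1 hx2 hx3 using h1
  obtain ⟨y, hy1, hy2⟩ := hB x hx1 (fun ε hε => by
    obtain ⟨N, hN⟩ := hc ε hε
    refine ⟨N, fun m hm n hn => ?_⟩
    have := hN m hm n hn
    rw [← hx2, ← hx2] at this
    rw [← G.norm_eq, map_sub]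
    exact this)
  exact ⟨y, hy1, Approx.of_lim hx3 hy2, x, hx2, hy2⟩

lemma vnClosure_isClosed (hB : BallComplete t) : IsClosed (vnClosure D G : Set (G.H →L[ℂ] G.H)) := by
  apply IsSeqClosed.isClosed
  intro T S hT hS
  obtain ⟨C, hC⟩ := hS.norm.bddAbove_range
  have hCn : ∀ n, ‖T n‖ ≤ C := fun n => hC ⟨n, rfl⟩
  set K : ℝ := max C 1 with hK
  have hK1 : 1 ≤ K := le_max_right _ _
  have hK0 : 0 < K := by linarith
  have hKn : ‖((K : ℂ)⁻¹)‖ = K⁻¹ := by
    rw [norm_inv, Complex.norm_real, Real.norm_of_nonneg hK0.le]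
  have hKne : (K : ℂ) ≠ 0 := by exact_mod_cast hK0.ne'
  have hS' : Tendsto (fun n => ((K:ℂ)⁻¹) • T n) atTop (𝓝 (((K:ℂ)⁻¹) • S)) := hS.const_smul _
  obtain ⟨y, hy1, hy2, x, hx1, hx2⟩ := vn_lim hB (fun n => ((K:ℂ)⁻¹) • T n)
    (fun n => (vnClosure D G).smul_mem (hT n) _) (fun n => by
      rw [norm_smul, hKn, inv_mul_le_iff₀ hK0, mul_one]
      exact (hCn n).trans (le_max_left _ _)) (fun ε hε => by
      have hcs := hS'.cauchySeq
      rw [Metric.cauchySeq_iff] at hcs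
      obtain ⟨N, hN⟩ := hcs ε hε
      refine ⟨N, fun m hm n hn => ?_⟩
      have := hN m hm n hn
      rw [dist_eq_norm] at this
      refine lt_of_le_of_lt ?_ this
      have h2 := (((K:ℂ)⁻¹) • T m - ((K:ℂ)⁻¹) • T n).le_opNorm G.ξ
      rw [G.norm_xi, mul_one] at h2
      exact h2)
  have hlim : ((K:ℂ)⁻¹) • S = G.π y := by
    apply G.ext_of_xi
    intro z
    have h1 : Tendsto (fun n => (((K:ℂ)⁻¹) • T n) (G.π z G.ξ)) atTop (𝓝 ((((K:ℂ)⁻¹) • S) (G.π z G.ξ))) :=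
      ((ContinuousLinearMap.apply ℂ G.H (G.π z G.ξ)).continuous.tendsto _).comp hS'
    have h2 : Tendsto (fun n => (((K:ℂ)⁻¹) • T n) (G.π z G.ξ)) atTop (𝓝 (G.π y (G.π z G.ξ))) := by
      rw [tendsto_iff_norm_sub_tendsto_zero]
      have h3 : Tendsto (fun n => t.n2 (x n - y) * ‖z‖) atTop (𝓝 0) := by
        simpa using hx2.mul_const ‖z‖
      refine squeeze_zero (fun n => norm_nonneg _) (fun n => ?_) h3
      rw [← hx1]
      have h4 : G.π (x n) (G.π z G.ξ) - G.π y (G.π z G.ξ) = G.π ((x n - y) * z) G.ξ := by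
        rw [map_mul, map_sub]; rfl
      rw [h4, G.norm_eq]
      exact t.n2_mul_le' _ _
    exact tendsto_nhds_unique h1 h2
  have h5 : S = (K : ℂ) • G.π y := by
    rw [← hlim, smul_smul, mul_inv_cancel₀ hKne, one_smul]
  rw [h5]
  exact (vnClosure D G).smul_mem ⟨y, rfl, hy2⟩ _

end vnc

end Pool.Agent.Helper234.Brown
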