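import Pool.Agent.Helper234.BrownN

open scoped BoundedContinuousFunction ComplexOrder Topology InnerProductSpace
open Filter

namespace Pool.Agent.Helper234.Brown

universe u v w

section vnc

variable {A : Type u} [CStarAlgebra A] {t : PTr A} (D : StarSubalgebra ℂ A) (G : GNSData A t)
variable [hB : Fact (BallComplete t)]

instance : IsClosed (vnClosure D G : Set (G.H →L[ℂ] G.H)) := vnClosure_isClosed hB.out

/-- the trace on the generated von Neumann algebra -/
noncomputable def vnTr : PTr (vnClosure D G) where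
  tr :=
    { toFun := fun T => inner ℂ G.ξ (T.1 G.ξ)
      map_add' := fun S T => by
        show inner ℂ G.ξ (S.1 G.ξ + T.1 G.ξ) = _
        rw [inner_add_right]
      map_smul' := fun c T => by
        show inner ℂ G.ξ (c • T.1 G.ξ) = _
        rw [inner_smul_right]; rfl }
  tr_one := by
    show inner ℂ G.ξ G.ξ = 1
    rw [inner_self_eq_norm_sq_to_K, G.norm_xi]; simp
  tr_comm := by
    rintro ⟨_, x, rfl, hx⟩ ⟨_, y, rfl, hy⟩
    show inner ℂ G.ξ ((G.π x * G.π y) G.ξ) = inner ℂ G.ξ ((G.π y * G.π x) G.ξ)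
    rw [← map_mul, ← map_mul, G.inner_xi, G.inner_xi, t.tr_comm]
  tr_nonneg := by
    rintro ⟨_, x, rfl, hx⟩
    show 0 ≤ inner ℂ G.ξ ((star (G.π x) * G.π x) G.ξ)
    rw [← map_star, ← map_mul, G.inner_xi]
    exact t.tr_nonneg x

lemma vnTr_apply (T : vnClosure D G) : (vnTr D G).tr T = inner ℂ G.ξ (T.1 G.ξ) := rfl

lemma vnTr_n2 (T : vnClosure D G) : (vnTr D G).n2 T = ‖T.1 G.ξ‖ := by
  have h : (vnTr D G).n2 T ^ 2 = ‖T.1 G.ξ‖ ^ 2 := by
    rw [PTr.n2_sq, vnTr_apply]
    obtain ⟨_, x, rfl, hx⟩ := T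
    show (inner ℂ G.ξ ((star (G.π x) * G.π x) G.ξ)).re = ‖G.π x G.ξ‖ ^ 2
    rw [← map_star, ← map_mul, G.inner_xi, G.norm_eq, t.n2_sq]
  exact (sq_eq_sq₀ (PTr.n2_nonneg _ _) (norm_nonneg _)).mp h

theorem vn_isVN : IsVN (vnTr D G) := by
  constructor
  · intro T hT
    have h1 : (vnTr D G).n2 T = 0 := by
      have := (vnTr D G).n2_sq T
      rw [hT] at this
      simpa using this
    rw [vnTr_n2] at h1
    obtain ⟨_, x, rfl, hx⟩ := T
    apply Subtype.ext
    show G.π x = 0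
    rw [← map_zero G.π]
    apply G.eq_of_xi
    rw [map_zero]
    exact norm_eq_zero.mp h1
  · intro T hT hc
    obtain ⟨y, hy1, hy2, x, hx1, hx2⟩ := vn_lim hB.out (fun n => (T n).1) (fun n => (T n).2) hT (fun ε hε => by
      obtain ⟨N, hN⟩ := hc ε hε
      refine ⟨N, fun m hm n hn => ?_⟩
      have := hN m hm n hn
      rw [vnTr_n2] at this
      exact this)
    refine ⟨⟨G.π y, y, rfl, hy2⟩, (G.π_norm_le y).trans hy1, ?_⟩
    refine hx2.congr (fun n => ?_)
    rw [vnTr_n2]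
    show _ = ‖(T n).1 G.ξ - G.π y G.ξ‖
    rw [← hx1, ← G.norm_eq, map_sub]
    rfl

end vnc

end Pool.Agent.Helper234.Brown
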