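import Pool.Agent.Helper234.BrownO

open scoped BoundedContinuousFunction ComplexOrder Topology InnerProductSpace
open Filter

namespace Pool.Agent.Helper234.Brown

universe u v w

/-- words can be conjugated to longer reduced words -/
lemma exists_conj_letter (w : List (Fin 16)) (hw : IsRed w) (hne : w ≠ []) :
    ∃ c : Fin 16, IsRed (c :: (w ++ [c])) := by
  obtain ⟨c, hc1, hc2⟩ : ∃ c : Fin 16, c ≠ w.head hne ∧ c ≠ w.getLast hne := by
    have : ∀ p q : Fin 16, ∃ c : Fin 16, c ≠ p ∧ c ≠ q := by decide
    exact this _ _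
  refine ⟨c, ?_⟩
  unfold IsRed
  rw [List.isChain_cons, List.isChain_append]
  refine ⟨?_, hw, by simp, ?_⟩
  · intro y hy
    rw [List.head?_append_of_ne_nil _ hne, List.head?_eq_some_head hne] at hy
    simp only [Option.mem_def, Option.some.injEq] at hy
    rw [← hy]
    exact hc1
  · intro x hx y hy
    rw [List.getLast?_eq_some_getLast hne] at hx
    simp only [Option.mem_def, Option.some.injEq] at hx
    simp only [List.head?_cons, Option.mem_def, Option.some.injEq] at hy
    rw [← hx, ← hy]
    exact hc2.symm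

lemma exists_conj_seq (w : List (Fin 16)) (hw : IsRed w) (hne : w ≠ []) :
    ∃ (v : ℕ → List (Fin 16)) (c : ℕ → Fin 16), v 0 = w ∧ (∀ n, v (n+1) = c n :: (v n ++ [c n])) ∧
      (∀ n, IsRed (v n)) ∧ Function.Injective v := by
  choose f hf using fun z : {w : List (Fin 16) // IsRed w ∧ w ≠ []} => exists_conj_letter z.1 z.2.1 z.2.2
  let F : {w : List (Fin 16) // IsRed w ∧ w ≠ []} → {w : List (Fin 16) // IsRed w ∧ w ≠ []} :=
    fun z => ⟨f z :: (z.1 ++ [f z]), hf z, by simp⟩
  let V : ℕ → {w : List (Fin 16) // IsRed w ∧ w ≠ []} := fun n => F^[n] ⟨w, hw, hne⟩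
  have hV : ∀ n, V (n+1) = F (V n) := fun n => Function.iterate_succ_apply' _ _ _
  have hlen : ∀ n, (V n).1.length = w.length + 2 * n := by
    intro n
    induction n with
    | zero => rfl
    | succ n ih =>
      rw [hV]
      show (f (V n) :: ((V n).1 ++ [f (V n)])).length = _
      simp only [List.length_cons, List.length_append, List.length_nil]
      omega
  refine ⟨fun n => (V n).1, fun n => f (V n), rfl, fun n => ?_, fun n => (V n).2.1, ?_⟩
  · show (V (n+1)).1 = _
    rw [hV]
  · intro m n hmn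
    have h1 := hlen m
    have h2 := hlen n
    have h3 : (V m).1 = (V n).1 := hmn
    rw [h3] at h1
    omega

section words

variable {A : Type u} [CStarAlgebra A] {t : PTr A} {g : Fin 16 → A}

/-- the linear span of the words is the generated algebra -/
lemma adjoin_le_span (hg : ∀ i, star (g i) = g i) {x : A}
    (hx : x ∈ StarAlgebra.adjoin ℂ (Set.range g)) : x ∈ Submodule.span ℂ (Set.range (ev g)) := by
  induction hx using StarAlgebra.adjoin_induction with
  | mem x h =>
    obtain ⟨i, rfl⟩ := h
    exact Submodule.subset_span ⟨[i], by simp⟩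
  | algebraMap r =>
    rw [Algebra.algebraMap_eq_smul_one]
    exact Submodule.smul_mem _ _ (Submodule.subset_span ⟨[], rfl⟩)
  | add x y _ _ h1 h2 => exact Submodule.add_mem _ h1 h2
  | mul x y hx hy h1 h2 =>
    clear hx hy
    induction h1 using Submodule.span_induction with
    | mem x hx =>
      obtain ⟨v, rfl⟩ := hx
      induction h2 using Submodule.span_induction with
      | mem y hy =>
        obtain ⟨w, rfl⟩ := hy
        exact Submodule.subset_span ⟨v ++ w, ev_append _ _ _⟩
      | zero => simp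
      | add y z _ _ h3 h4 => rw [mul_add]; exact Submodule.add_mem _ h3 h4
      | smul c y _ h3 => rw [mul_smul_comm]; exact Submodule.smul_mem _ _ h3
    | zero => simp
    | add y z _ _ h3 h4 => rw [add_mul]; exact Submodule.add_mem _ h3 h4
    | smul c y _ h3 => rw [smul_mul_assoc]; exact Submodule.smul_mem _ _ h3
  | star x hx h =>
    clear hx
    induction h using Submodule.span_induction with
    | mem x hx =>
      obtain ⟨v, rfl⟩ := hx
      rw [ev_reverse_star hg]
      exact Submodule.subset_span ⟨_, rfl⟩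
    | zero => simp
    | add y z _ _ h3 h4 => rw [star_add]; exact Submodule.add_mem _ h3 h4
    | smul c y _ h3 => rw [star_smul]; exact Submodule.smul_mem _ _ h3

lemma ev_mem_adjoin (w : List (Fin 16)) : ev g w ∈ StarAlgebra.adjoin ℂ (Set.range g) := by
  induction w with
  | nil => exact one_mem _
  | cons i w ih => rw [ev_cons]; exact mul_mem (StarAlgebra.subset_adjoin ℂ _ ⟨i, rfl⟩) ih

/-- free involutions -/
structure FreeInv (t : PTr A) (g : Fin 16 → A) : Prop where
  sa : ∀ i, star (g i) = g i
  sq : ∀ i, g i * g i = 1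
  tr : ∀ w, t.tr (ev g w) = if red w = [] then 1 else 0

variable (hg : FreeInv t g)
include hg

lemma FreeInv.tr_pair {v w : List (Fin 16)} (hv : IsRed v) (hw : IsRed w) :
    t.tr (star (ev g v) * ev g w) = if v = w then 1 else 0 := by
  rw [ev_reverse_star hg.sa, ← ev_append, hg.tr]
  have := red_reverse_append_iff v w
  rw [red_of_isRed hv, red_of_isRed hw] at this
  simp only [this]

lemma FreeInv.orthonormal (G : GNSData A t) (v : ℕ → List (Fin 16)) (hv : ∀ n, IsRed (v n))
    (hinj : Function.Injective v) : Orthonormal ℂ (fun n => G.π (ev g (v n)) G.ξ) := by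
  classical
  rw [orthonormal_iff_ite]
  intro i j
  rw [G.inner_eq, hg.tr_pair (hv i) (hv j)]
  simp only [hinj.eq_iff]

/-- coefficients of a central element are conjugation invariant -/
lemma FreeInv.coef_conj (x : A) (hx : ∀ i, t.n2 (g i * x - x * g i) = 0) (c : Fin 16) (v : List (Fin 16)) :
    t.tr (star (ev g (c :: (v ++ [c]))) * x) = t.tr (star (ev g v) * x) := by
  have e1 : ev g (c :: (v ++ [c])) = g c * ev g v * g c := by
    rw [ev_cons, ev_append, ev_cons, ev_nil, mul_one, mul_assoc]
  rw [e1, star_mul, star_mul, hg.sa, ← mul_assoc (g c), mul_assoc (g c * _), mul_assoc (g c), t.tr_comm]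
  have h1 : t.tr (star (ev g v) * (g c * x) * g c - star (ev g v) * (x * g c) * g c) = 0 := by
    have h2 : star (ev g v) * (g c * x) * g c - star (ev g v) * (x * g c) * g c =
        star (ev g v) * ((g c * x - x * g c) * g c) := by noncomm_ring
    rw [h2]
    have h3 := t.norm_tr_le (ev g v) ((g c * x - x * g c) * g c)
    have h4 := t.n2_mul_le' (g c * x - x * g c) (g c)
    rw [hx, zero_mul] at h4
    have h5 := t.n2_nonneg ((g c * x - x * g c) * g c)
    have h6 : t.n2 ((g c * x - x * g c) * g c) = 0 := le_antisymm h4 h5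
    rw [h6, mul_zero] at h3
    exact norm_le_zero_iff.mp h3
  rw [map_sub] at h1
  rw [sub_eq_zero.mp h1]
  congr 1
  simp only [mul_assoc, hg.sq, mul_one]

lemma FreeInv.coef_zero (G : GNSData A t) (x : A) (hx : ∀ i, t.n2 (g i * x - x * g i) = 0)
    (w : List (Fin 16)) (hw : IsRed w) (hne : w ≠ []) : t.tr (star (ev g w) * x) = 0 := by
  obtain ⟨v, c, hv0, hvs, hvr, hinj⟩ := exists_conj_seq w hw hne
  have h1 : ∀ n, t.tr (star (ev g (v n)) * x) = t.tr (star (ev g w) * x) := by
    intro n
    induction n with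
    | zero => rw [hv0]
    | succ n ih => rw [hvs, hg.coef_conj x hx, ih]
  have ho := hg.orthonormal G v hvr hinj
  by_contra hne0
  have hpos : 0 < ‖t.tr (star (ev g w) * x)‖ ^ 2 := by positivity
  obtain ⟨N, hN⟩ := exists_nat_gt (‖G.π x G.ξ‖ ^ 2 / ‖t.tr (star (ev g w) * x)‖ ^ 2)
  have h2 := ho.sum_inner_products_le (x := G.π x G.ξ) (s := Finset.range N)
  have h3 : ∀ n, inner ℂ (G.π (ev g (v n)) G.ξ) (G.π x G.ξ) = t.tr (star (ev g w) * x) := fun n => by
    rw [G.inner_eq, h1]
  simp only [h3, Finset.sum_const, Finset.card_range, nsmul_eq_mul] at h2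
  rw [div_lt_iff₀ hpos] at hN
  linarith

lemma FreeInv.scalar (G : GNSData A t) (x : A) (hx : ∀ i, t.n2 (g i * x - x * g i) = 0)
    (ha : Approx t (StarAlgebra.adjoin ℂ (Set.range g)) x) :
    t.n2 (x - algebraMap ℂ A (t.tr x)) = 0 := by
  set x' := x - algebraMap ℂ A (t.tr x) with hx'
  have h1 : ∀ w, t.tr (star (ev g w) * x') = 0 := by
    intro w
    rw [hx', mul_sub, map_sub, Algebra.algebraMap_eq_smul_one, mul_smul_comm, mul_one, map_smul,
      t.tr_star, hg.tr, ← ev_red hg.sq w]
    by_cases h : red w = []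
    · rw [h]; simp
    · rw [hg.coef_zero G x hx _ (isRed_red w) h, if_neg h]; simp
  have h2 : ∀ d ∈ Submodule.span ℂ (Set.range (ev g)), t.tr (star d * x') = 0 := by
    intro d hd
    induction hd using Submodule.span_induction with
    | mem d hd => obtain ⟨w, rfl⟩ := hd; exact h1 w
    | zero => simp
    | add d e _ _ h3 h4 => rw [star_add, add_mul, map_add, h3, h4, add_zero]
    | smul c d _ h3 => rw [star_smul, smul_mul_assoc, map_smul, h3, smul_zero]
  have ha' : Approx t (StarAlgebra.adjoin ℂ (Set.range g)) x' := by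
    have := ha.add (Approx.of_mem (t := t) (algebraMap_mem (StarAlgebra.adjoin ℂ (Set.range g)) (-(t.tr x))))
    rw [map_neg, ← sub_eq_add_neg] at this
    exact this
  by_contra hne
  have hpos : 0 < t.n2 x' := lt_of_le_of_ne (t.n2_nonneg _) (Ne.symm hne)
  obtain ⟨d, hd, hd2⟩ := ha' (t.n2 x') hpos
  have h3 := h2 d (adjoin_le_span hg.sa hd)
  have h4 : t.tr (star x' * x') = t.tr (star (x' - d) * x') := by
    rw [star_sub x' d, sub_mul, map_sub, h3, sub_zero]
  have h5 := t.norm_tr_le (x' - d) x'
  rw [← h4, t.tr_self_eq, Complex.norm_real, Real.norm_of_nonneg (by positivity)] at h5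
  nlinarith

end words

section factor

variable {A : Type u} [CStarAlgebra A] {t : PTr A} {g : Fin 16 → A} (hg : FreeInv t g) (G : GNSData A t)
variable [hB : Fact (BallComplete t)]
include hg

/-- the elements of the algebra given by elements of the adjoin -/
noncomputable def vnOf {D : StarSubalgebra ℂ A} (G : GNSData A t) {x : A} (hx : Approx t D x) : vnClosure D G :=
  ⟨G.π x, x, rfl, hx⟩

theorem FreeInv.isIIOne : IsIIOneFactor (vnTr (StarAlgebra.adjoin ℂ (Set.range g)) G) := by
  refine ⟨vn_isVN _ _, ?_, ?_⟩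
  · rintro ⟨_, x, rfl, hx⟩ hc
    refine ⟨t.tr x, ?_⟩
    have h1 : ∀ i, t.n2 (g i * x - x * g i) = 0 := fun i => by
      have h2 := hc (vnOf G (Approx.of_mem (StarAlgebra.subset_adjoin ℂ _ ⟨i, rfl⟩)))
      have h3 : G.π x * G.π (g i) = G.π (g i) * G.π x := congrArg Subtype.val h2
      rw [← map_mul, ← map_mul] at h3
      exact G.n2_sub_of_eq h3.symm
    have h2 := hg.scalar G x h1 hx
    apply Subtype.ext
    show G.π x = algebraMap ℂ _ (t.tr x)
    rw [← AlgHomClass.commutes G.π]
    apply G.eq_of_xi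
    have h3 := G.norm_eq (x - algebraMap ℂ A (t.tr x))
    rw [h2, map_sub] at h3
    exact sub_eq_zero.mp (norm_eq_zero.mp h3)
  · intro hfd
    obtain ⟨v, c, hv0, hvs, hvr, hinj⟩ := exists_conj_seq [0] (by simp [IsRed]) (by simp)
    have ho := (hg.orthonormal G v hvr hinj).linearIndependent
    let L : vnClosure (StarAlgebra.adjoin ℂ (Set.range g)) G →ₗ[ℂ] G.H :=
      { toFun := fun T => T.1 G.ξ
        map_add' := fun _ _ => rfl
        map_smul' := fun _ _ => rfl }
    have h1 : LinearIndependent ℂ (fun n : ℕ => vnOf G (Approx.of_mem (t := t) (ev_mem_adjoin (g := g) (v n)))) := by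
      apply LinearIndependent.of_comp L
      exact ho
    exact Module.Finite.not_linearIndependent_of_infinite _ h1

theorem FreeInv.isSep : IsSep (vnTr (StarAlgebra.adjoin ℂ (Set.range g)) G) := by
  set D := StarAlgebra.adjoin ℂ (Set.range g) with hD
  let E : Submodule ℂ G.H := Submodule.span ℂ (Set.range fun w : List (Fin 16) => G.π (ev g w) G.ξ)
  have hE : TopologicalSpace.IsSeparable (E : Set G.H) :=
    (Set.countable_range _).isSeparable.span
  have hE2 : TopologicalSpace.IsSeparable (closure (E : Set G.H)) := hE.closure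
  have hM : Set.range (fun T : vnClosure D G => T.1 G.ξ) ⊆ closure (E : Set G.H) := by
    rintro _ ⟨⟨_, x, rfl, hx⟩, rfl⟩
    rw [Metric.mem_closure_iff]
    intro ε hε
    obtain ⟨d, hd, h1⟩ := hx ε hε
    refine ⟨G.π d G.ξ, ?_, ?_⟩
    · have h2 := adjoin_le_span hg.sa hd
      show G.π d G.ξ ∈ E
      clear h1 hd
      induction h2 using Submodule.span_induction with
      | mem d hd => obtain ⟨w, rfl⟩ := hd; exact Submodule.subset_span ⟨w, rfl⟩
      | zero => rw [map_zero]; exact E.zero_mem
      | add d e _ _ h3 h4 => rw [map_add]; exact E.add_mem h3 h4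
      | smul c d _ h3 => rw [map_smul]; exact E.smul_mem _ h3
    · rw [dist_eq_norm]
      show ‖G.π x G.ξ - G.π d G.ξ‖ < ε
      rw [← G.norm_eq, map_sub] at h1
      exact h1
  obtain ⟨c, hc1, hc2, hc3⟩ := (hE2.mono hM).exists_countable_dense_subset
  choose f hf using fun z : c => hc1 z.2
  have : Countable c := hc2.to_subtype
  refine ⟨Set.range f, Set.countable_range f, fun T ε hε => ?_⟩
  have h1 := hc3 ⟨T, rfl⟩
  rw [Metric.mem_closure_iff] at h1
  obtain ⟨z, hz, hz2⟩ := h1 ε hε
  refine ⟨f ⟨z, hz⟩, ⟨_, rfl⟩, ?_⟩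
  rw [vnTr_n2]
  have h2 := hf ⟨z, hz⟩
  simp only at h2
  rw [dist_eq_norm, ← h2] at hz2
  exact hz2

end factor

end Pool.Agent.Helper234.Brown
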