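import Pool.Agent.Helper234.BrownP

open scoped BoundedContinuousFunction ComplexOrder Topology InnerProductSpace
open Filter

namespace Pool.Agent.Helper234.Brown

universe u v w

section lift

variable {A : Type u} [CStarAlgebra A] {t : PTr A} (D : StarSubalgebra ℂ A) (G : GNSData A t)
variable {Q : Type v} [Ring Q] [StarRing Q] [Algebra ℂ Q]

/-- a homomorphism killing null vectors descends to the von Neumann closure -/
noncomputable def vnLift (χ : A →⋆ₐ[ℂ] Q) (hχ : ∀ x, t.n2 x = 0 → χ x = 0) : vnClosure D G →⋆ₐ[ℂ] Q :=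
  have key : ∀ (T : vnClosure D G) (x : A), G.π x = T.1 → χ T.2.choose = χ x := fun T x hx => by
    have h1 := T.2.choose_spec.1
    have h2 : t.n2 (T.2.choose - x) = 0 := G.n2_sub_of_eq (h1.trans hx.symm)
    have h3 := hχ _ h2
    rw [map_sub] at h3
    exact sub_eq_zero.mp h3
  have spec : ∀ T : vnClosure D G, G.π T.2.choose = T.1 := fun T => T.2.choose_spec.1
  { toFun := fun T => χ T.2.choose
    map_one' := by rw [key 1 1 (map_one _), map_one]
    map_mul' := fun S T => by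
      rw [key (S * T) (S.2.choose * T.2.choose) (by rw [map_mul, spec, spec]; rfl), map_mul]
    map_zero' := by rw [key 0 0 (map_zero _), map_zero]
    map_add' := fun S T => by
      rw [key (S + T) (S.2.choose + T.2.choose) (by rw [map_add, spec, spec]; rfl), map_add]
    commutes' := fun r => by
      rw [key _ (algebraMap ℂ A r) (AlgHomClass.commutes G.π r), AlgHomClass.commutes]
    map_star' := fun T => by
      rw [key (star T) (star T.2.choose) (by rw [map_star, spec]; rfl), map_star] }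

lemma vnLift_apply (χ : A →⋆ₐ[ℂ] Q) (hχ : ∀ x, t.n2 x = 0 → χ x = 0) (T : vnClosure D G) (x : A)
    (hx : G.π x = T.1) : vnLift D G χ hχ T = χ x := by
  show χ T.2.choose = χ x
  have h1 := T.2.choose_spec.1
  have h2 : t.n2 (T.2.choose - x) = 0 := G.n2_sub_of_eq (h1.trans hx.symm)
  have h3 := hχ _ h2
  rw [map_sub] at h3
  exact sub_eq_zero.mp h3

end lift

section two

variable {R : Type u} [CStarAlgebra R] (t : PTr R) (U : Ultrafilter ℕ)

/-- the quotient map as a star algebra homomorphism -/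
noncomputable def clsA : (ℕ →ᵇ R) →⋆ₐ[ℂ] Ultrapower t U where
  toFun x := cls t U x
  map_one' := map_one _
  map_mul' := map_mul _
  map_zero' := map_zero _
  map_add' := map_add _
  commutes' _ := rfl
  map_star' _ := rfl

/-- the square of the algebra of bounded sequences with its trace -/
noncomputable abbrev tr2 : PTr ((ℕ →ᵇ R) × (ℕ →ᵇ R)) := (t.ultra U).prod (t.ultra U)

lemma ev_pair {A B : Type*} [Monoid A] [Monoid B] (a : Fin 16 → A) (b : Fin 16 → B) (w : List (Fin 16)) :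
    ev (fun i => (a i, b i)) w = (ev a w, ev b w) := by
  induction w with
  | nil => rfl
  | cons i w ih => rw [ev_cons, ev_cons, ev_cons, ih]; rfl

variable {t U} {a b : Fin 16 → (ℕ →ᵇ R)} (ha : FreeInv (t.ultra U) a) (hb : FreeInv (t.ultra U) b)

include ha hb in
lemma FreeInv.pair : FreeInv (tr2 t U) (fun i => (a i, b i)) where
  sa i := Prod.ext (ha.sa i) (hb.sa i)
  sq i := Prod.ext (ha.sq i) (hb.sq i)
  tr w := by
    rw [PTr.prod_tr, ev_pair]
    show (1/2 : ℂ) * ((t.ultra U).tr (ev a w) + (t.ultra U).tr (ev b w)) = _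
    rw [ha.tr, hb.tr]
    split_ifs <;> norm_num

variable (G : GNSData ((ℕ →ᵇ R) × (ℕ →ᵇ R)) (tr2 t U))

/-- the generated algebra -/
noncomputable abbrev DD (a b : Fin 16 → (ℕ →ᵇ R)) : StarSubalgebra ℂ ((ℕ →ᵇ R) × (ℕ →ᵇ R)) :=
  StarAlgebra.adjoin ℂ (Set.range fun i => (a i, b i))

/-- first homomorphism -/
noncomputable def hom1 (a b : Fin 16 → (ℕ →ᵇ R)) : vnClosure (DD a b) G →⋆ₐ[ℂ] Ultrapower t U :=
  vnLift (DD a b) G ((clsA t U).comp (StarAlgHom.fst ℂ _ _)) (fun x hx => by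
    show cls t U x.1 = 0
    rw [← map_zero (cls t U), cls_eq_iff, sub_zero]
    have h1 := PTr.n2_fst_le (t.ultra U) (t.ultra U) x
    rw [hx, mul_zero] at h1
    exact le_antisymm h1 ((t.ultra U).n2_nonneg _))

/-- second homomorphism -/
noncomputable def hom2 (a b : Fin 16 → (ℕ →ᵇ R)) : vnClosure (DD a b) G →⋆ₐ[ℂ] Ultrapower t U :=
  vnLift (DD a b) G ((clsA t U).comp (StarAlgHom.snd ℂ _ _)) (fun x hx => by
    show cls t U x.2 = 0
    rw [← map_zero (cls t U), cls_eq_iff, sub_zero]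
    have h1 := PTr.n2_snd_le (t.ultra U) (t.ultra U) x
    rw [hx, mul_zero] at h1
    exact le_antisymm h1 ((t.ultra U).n2_nonneg _))

lemma hom1_apply (T : vnClosure (DD a b) G) (x) (hx : G.π x = T.1) : hom1 G a b T = cls t U x.1 :=
  vnLift_apply _ _ _ _ T x hx

lemma hom2_apply (T : vnClosure (DD a b) G) (x) (hx : G.π x = T.1) : hom2 G a b T = cls t U x.2 :=
  vnLift_apply _ _ _ _ T x hx

include ha hb in
lemma tr_fst_eq {x : (ℕ →ᵇ R) × (ℕ →ᵇ R)} (hx : Approx (tr2 t U) (DD a b) x) :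
    (t.ultra U).tr x.1 = (tr2 t U).tr x ∧ (t.ultra U).tr x.2 = (tr2 t U).tr x := by
  have h1 : ∀ d ∈ DD a b, (t.ultra U).tr d.1 = (t.ultra U).tr d.2 := by
    intro d hd
    have h2 := adjoin_le_span (ha.pair hb).sa hd
    clear hd
    induction h2 using Submodule.span_induction with
    | mem d hd =>
      obtain ⟨w, rfl⟩ := hd
      rw [ev_pair]
      show (t.ultra U).tr (ev a w) = (t.ultra U).tr (ev b w)
      rw [ha.tr, hb.tr]
    | zero => rfl
    | add d e _ _ h3 h4 =>
      show (t.ultra U).tr (d.1 + e.1) = (t.ultra U).tr (d.2 + e.2)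
      rw [map_add, map_add, h3, h4]
    | smul c d _ h3 =>
      show (t.ultra U).tr (c • d.1) = (t.ultra U).tr (c • d.2)
      rw [map_smul, map_smul, h3]
  have h2 : (t.ultra U).tr x.1 = (t.ultra U).tr x.2 := by
    rw [← sub_eq_zero, ← norm_le_zero_iff]
    apply le_of_forall_pos_le_add
    intro ε hε
    obtain ⟨d, hd, h3⟩ := hx (ε/4) (by positivity)
    have h4 := PTr.n2_fst_le (t.ultra U) (t.ultra U) (x - d)
    have h5 := PTr.n2_snd_le (t.ultra U) (t.ultra U) (x - d)
    have h6 := (t.ultra U).norm_tr_le_n2 (x - d).1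
    have h7 := (t.ultra U).norm_tr_le_n2 (x - d).2
    have h8 : (t.ultra U).tr x.1 - (t.ultra U).tr x.2 =
        (t.ultra U).tr (x - d).1 - (t.ultra U).tr (x - d).2 := by
      show _ = (t.ultra U).tr (x.1 - d.1) - (t.ultra U).tr (x.2 - d.2)
      rw [map_sub, map_sub, h1 d hd]; ring
    rw [h8]
    refine (norm_sub_le _ _).trans ?_
    linarith
  have h3 := PTr.prod_tr (t.ultra U) (t.ultra U) x
  rw [← h2] at h3
  have h4 : (tr2 t U).tr x = (t.ultra U).tr x.1 := by rw [h3]; ring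
  exact ⟨h4.symm, by rw [h4, h2]⟩

variable [hB : Fact (BallComplete (tr2 t U))]

include ha hb in
lemma un2_hom1 (T : vnClosure (DD a b) G) : un2 t U (hom1 G a b T) = (vnTr (DD a b) G).n2 T := by
  obtain ⟨_, x, rfl, hx⟩ := T
  rw [hom1_apply G _ x rfl, un2_cls, vnTr_n2]
  show _ = ‖G.π x G.ξ‖
  rw [G.norm_eq, PTr.n2, PTr.n2]
  have := (tr_fst_eq ha hb (hx.star.mul hx)).1
  rw [← this]; rfl

include ha hb in
lemma un2_hom2 (T : vnClosure (DD a b) G) : un2 t U (hom2 G a b T) = (vnTr (DD a b) G).n2 T := by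
  obtain ⟨_, x, rfl, hx⟩ := T
  rw [hom2_apply G _ x rfl, un2_cls, vnTr_n2]
  show _ = ‖G.π x G.ξ‖
  rw [G.norm_eq, PTr.n2, PTr.n2]
  have := (tr_fst_eq ha hb (hx.star.mul hx)).2
  rw [← this]; rfl

end two

end Pool.Agent.Helper234.Brown
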