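import Pool.Agent.Helper234.BrownQ

open scoped BoundedContinuousFunction ComplexOrder Topology InnerProductSpace
open Filter

namespace Pool.Agent.Helper234.Brown

universe u v w

section seqs

variable {R : Type u} [CStarAlgebra R] {t : PTr R}

lemma norm_le_one_of_sq {x : R} (h1 : star x = x) (h2 : x * x = 1) : ‖x‖ ≤ 1 := by
  have h3 : ‖x‖ * ‖x‖ = ‖(1 : R)‖ := by
    rw [← CStarRing.norm_star_mul_self, h1, h2]
  have h4 : ‖(1 : R)‖ ≤ 1 := by
    have : IsStarProjection (1 : R) := ⟨by simp [IsIdempotentElem], by simp [isSelfAdjoint_iff]⟩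
    exact this.norm_le
  nlinarith [norm_nonneg x]

lemma Level.perm_sa {L : ℕ} {η : ℝ} (E : Level t L η) (i : Fin 16) :
    star (E.mu.perm (E.σ i)) = E.mu.perm (E.σ i) := by
  rw [E.mu.perm_star, inv_eq_of_mul_eq_one_left (E.inv i)]

lemma Level.perm_sq {L : ℕ} {η : ℝ} (E : Level t L η) (i : Fin 16) :
    E.mu.perm (E.σ i) * E.mu.perm (E.σ i) = 1 := by
  rw [E.mu.perm_mul, E.inv, E.mu.perm_one]

/-- sequence of involutions from levels -/
noncomputable def levelSeq {L : ℕ → ℕ} {η : ℕ → ℝ} (E : ∀ n, Level t (L n) (η n)) (i : Fin 16) : ℕ →ᵇ R :=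
  BoundedContinuousFunction.ofNormedAddCommGroupDiscrete (fun n => (E n).mu.perm ((E n).σ i)) 1
    (fun n => norm_le_one_of_sq ((E n).perm_sa i) ((E n).perm_sq i))

lemma levelSeq_apply {L : ℕ → ℕ} {η : ℕ → ℝ} (E : ∀ n, Level t (L n) (η n)) (i : Fin 16) (n : ℕ) :
    levelSeq E i n = (E n).mu.perm ((E n).σ i) := rfl

lemma ev_apply (a : Fin 16 → (ℕ →ᵇ R)) (w : List (Fin 16)) (n : ℕ) : ev a w n = ev (fun i => a i n) w := by
  induction w with
  | nil => rfl
  | cons i w ih => rw [ev_cons, ev_cons, ← ih]; rfl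

lemma levelSeq_free {U : Ultrafilter ℕ} (hU : (U : Filter ℕ) ≤ cofinite) {L : ℕ → ℕ} {η : ℕ → ℝ}
    (E : ∀ n, Level t (L n) (η n)) (hL : ∀ n, n ≤ L n) (hη : ∀ n, η n ≤ 1 / ((n : ℝ) + 1)) :
    FreeInv (t.ultra U) (levelSeq E) where
  sa i := by ext n; exact (E n).perm_sa i
  sq i := by ext n; exact (E n).perm_sq i
  tr w := by
    have hsq : ∀ i, levelSeq E i * levelSeq E i = 1 := fun i => by ext n; exact (E n).perm_sq i
    split_ifs with h
    · rw [← ev_red hsq, h, ev_nil, (t.ultra U).tr_one]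
    · have h1 := t.tendsto_ultra U (ev (levelSeq E) w)
      have h2 : Tendsto (fun n => t.tr (ev (levelSeq E) w n)) (U : Filter ℕ) (𝓝 0) := by
        have h3 : Tendsto (fun n : ℕ => 1 / ((n : ℝ) + 1)) (U : Filter ℕ) (𝓝 0) := by
          refine tendsto_one_div_add_atTop_nhds_zero_nat.mono_left ?_
          rw [← Nat.cofinite_eq_atTop]; exact hU
        refine squeeze_zero_norm' ?_ h3
        have h4 : {n : ℕ | w.length ≤ n} ∈ (U : Filter ℕ) := by
          apply hU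
          rw [Nat.cofinite_eq_atTop]
          exact eventually_ge_atTop _
        filter_upwards [h4] with n hn
        rw [ev_apply]
        exact ((E n).small w (le_trans hn (hL n)) h).trans (hη n)
      exact tendsto_nhds_unique h1 h2

end seqs

section noconj

variable {R : Type u} [CStarAlgebra R] {t : PTr R}

/-- the two sequences of levels -/
structure Pair (t : PTr R) where
  D : ∀ n : ℕ, Level t n (1 / ((n : ℝ) + 1))
  m : ℕ → ℕ
  hm : ∀ n : ℕ, ((n : ℝ) + 1) * (Fintype.card (D n).X : ℝ) ^ 4 < (9 / 8) ^ m n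
  D' : ∀ n : ℕ, Level t (max n (2 * m n)) (min (1 / ((n : ℝ) + 1)) ((1/2) ^ m n))

lemma exists_pair (hR : IsHyperfinite t) : Nonempty (Pair t) := by
  obtain ⟨j, hj, -⟩ := hR.matrices
  have h1 : ∀ n : ℕ, Nonempty (Level t n (1 / ((n : ℝ) + 1))) := fun n =>
    exists_level j hj n _ (by positivity)
  let D := fun n => Classical.choice (h1 n)
  have h2 : ∀ n : ℕ, ∃ m : ℕ, ((n : ℝ) + 1) * (Fintype.card (D n).X : ℝ) ^ 4 < (9 / 8) ^ m := fun n =>
    pow_unbounded_of_one_lt _ (by norm_num)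
  choose m hm using h2
  have h3 : ∀ n : ℕ, Nonempty (Level t (max n (2 * m n)) (min (1 / ((n : ℝ) + 1)) ((1/2) ^ m n))) := fun n =>
    exists_level j hj _ _ (lt_min (by positivity) (by positivity))
  exact ⟨⟨D, m, hm, fun n => Classical.choice (h3 n)⟩⟩

namespace Pair

variable (P : Pair t)

/-- first family -/
noncomputable def a : Fin 16 → (ℕ →ᵇ R) := levelSeq P.D
/-- second family -/
noncomputable def b : Fin 16 → (ℕ →ᵇ R) := levelSeq P.D'

lemma a_free {U : Ultrafilter ℕ} (hU : (U : Filter ℕ) ≤ cofinite) : FreeInv (t.ultra U) P.a :=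
  levelSeq_free hU P.D (fun _ => le_rfl) (fun _ => le_rfl)

lemma b_free {U : Ultrafilter ℕ} (hU : (U : Filter ℕ) ≤ cofinite) : FreeInv (t.ultra U) P.b :=
  levelSeq_free hU P.D' (fun _ => le_max_left _ _) (fun _ => min_le_left _ _)

lemma single (n : ℕ) (x : R) (C : ℝ) (hC : ‖x‖ ≤ C) (hn : 8 * C ^ 2 ≤ n)
    (h1 : ∀ i, t.n2 (P.a i n * x - x * P.b i n) < 1 / 8) (h2 : 1 / 2 < t.n2 x) : False := by
  set A : Fin 16 → R := fun i => (P.D n).mu.perm ((P.D n).σ i) with hA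
  set B : Fin 16 → R := fun i => (P.D' n).mu.perm ((P.D' n).σ i) with hB
  have hAsa : ∀ i, star (A i) = A i := fun i => (P.D n).perm_sa i
  have hBsa : ∀ i, star (B i) = B i := fun i => (P.D' n).perm_sa i
  have hBsq : ∀ i, B i * B i = 1 := fun i => (P.D' n).perm_sq i
  have h1' : ∀ i, t.n2 (A i * x - x * B i) < 1 / 8 := h1
  have h3 : 12 * t.n2 x ≤ t.n2 (avgOp A B x) := by
    have e1 : (16 : ℂ) • x = avgOp A B x + ∑ i, (x - A i * x * B i) := by
      unfold avgOp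
      rw [Finset.sum_sub_distrib, Finset.sum_const, Finset.card_univ, Fintype.card_fin,
        add_sub_cancel]
      rw [← Nat.cast_smul_eq_nsmul ℂ]; norm_num
    have e2 : t.n2 (∑ i, (x - A i * x * B i)) ≤ ∑ _i : Fin 16, (1/8 : ℝ) := by
      have gen : ∀ s : Finset (Fin 16), t.n2 (∑ i ∈ s, (x - A i * x * B i)) ≤ ∑ _i ∈ s, (1/8 : ℝ) := by
        intro s
        classical
        induction s using Finset.induction_on with
        | empty => simp
        | insert i s hi ih =>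
          rw [Finset.sum_insert hi, Finset.sum_insert hi]
          refine (t.n2_add_le _ _).trans (add_le_add ?_ ih)
          have e3 : x - A i * x * B i = -((A i * x - x * B i) * B i) := by
            rw [sub_mul, mul_assoc x, hBsq, mul_one]; abel
          rw [e3, t.n2_neg, t.n2_mul_unitary (by rw [hBsa, hBsq])]
          exact (h1' i).le
      exact gen _
    have e3 := t.n2_smul (16 : ℂ) x
    rw [e1] at e3
    have e4 := t.n2_add_le (avgOp A B x) (∑ i, (x - A i * x * B i))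
    have e5 : ‖(16 : ℂ)‖ = 16 := by norm_num
    rw [e5] at e3
    have e6 : ∑ _i : Fin 16, (1/8 : ℝ) = 2 := by
      rw [Finset.sum_const, Finset.card_univ, Fintype.card_fin, nsmul_eq_mul]; norm_num
    rw [e6] at e2
    linarith
  have h4 := avgOp_growth' t A B hAsa hBsa x h3 (by linarith) (P.m n)
  have h5 := avgOp_upper t (P.D n).mu (P.D n).σ B hBsa hBsq (P.m n) ((1/2) ^ P.m n) (by positivity)
    (by rw [← mul_pow]; norm_num) (fun w hw hr =>
      ((P.D' n).small w (hw.trans (le_max_right _ _)) hr).trans (min_le_right _ _)) x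
  have h6 := P.hm n
  set N : ℝ := (Fintype.card (P.D n).X : ℝ) with hN
  set m := P.m n with hm
  have h7 : 0 ≤ N ^ 4 := by positivity
  have h8 : (12 ^ m * t.n2 x) ^ 2 ≤ 2 * ‖x‖ ^ 2 * N ^ 4 * 128 ^ m := by
    refine le_trans ?_ h5
    have := t.n2_nonneg x
    gcongr
  have h9 : (12 ^ m * t.n2 x) ^ 2 = 144 ^ m * t.n2 x ^ 2 := by
    rw [mul_pow, ← pow_mul, mul_comm m 2, pow_mul]; norm_num
  have h10 : (144 : ℝ) ^ m = (9/8) ^ m * 128 ^ m := by rw [← mul_pow]; norm_num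
  rw [h9, h10] at h8
  have h11 : (0 : ℝ) < 128 ^ m := by positivity
  have h12 : (9/8) ^ m * t.n2 x ^ 2 ≤ 2 * ‖x‖ ^ 2 * N ^ 4 := by
    have : (9/8 : ℝ) ^ m * t.n2 x ^ 2 * 128 ^ m ≤ 2 * ‖x‖ ^ 2 * N ^ 4 * 128 ^ m := by linarith
    exact le_of_mul_le_mul_right this h11
  have h13 : (1 / 4 : ℝ) ≤ t.n2 x ^ 2 := by nlinarith
  have h14 : (9/8 : ℝ) ^ m * (1 / 4) ≤ 2 * ‖x‖ ^ 2 * N ^ 4 :=
    (mul_le_mul_of_nonneg_left h13 (by positivity)).trans h12
  have h15 : ‖x‖ ^ 2 ≤ C ^ 2 := by gcongr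
  have h16 : 8 * ‖x‖ ^ 2 * N ^ 4 ≤ (n : ℝ) * N ^ 4 := by
    apply mul_le_mul_of_nonneg_right _ h7
    linarith
  nlinarith

/-- no bounded sequence intertwines -/
lemma no_intertwiner {U : Ultrafilter ℕ} (hU : (U : Filter ℕ) ≤ cofinite) (x : ℕ →ᵇ R)
    (h1 : ∀ i, (t.ultra U).n2 (P.a i * x - x * P.b i) < 1 / 8) (h2 : 1 / 2 < (t.ultra U).n2 x) : False := by
  have e1 : ∀ i, ∀ᶠ n in (U : Filter ℕ), t.n2 (P.a i n * x n - x n * P.b i n) < 1 / 8 := fun i =>
    (t.tendsto_n2 U (P.a i * x - x * P.b i)).eventually_lt_const (h1 i)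
  have e2 : ∀ᶠ n in (U : Filter ℕ), 1 / 2 < t.n2 (x n) := (t.tendsto_n2 U x).eventually_const_lt h2
  obtain ⟨N, hN⟩ := exists_nat_ge (8 * ‖x‖ ^ 2)
  have e3 : ∀ᶠ n in (U : Filter ℕ), N ≤ n := by
    apply hU
    rw [Nat.cofinite_eq_atTop]
    exact eventually_ge_atTop N
  have e4 := eventually_all.mpr e1
  obtain ⟨n, hn1, hn2, hn3⟩ := (e4.and (e2.and e3)).exists
  refine P.single n (x n) ‖x‖ (x.norm_coe_le_norm n) (hN.trans (by exact_mod_cast hn3)) hn1 hn2

end Pair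

end noconj

end Pool.Agent.Helper234.Brown
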