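import Pool.Agent.Helper234.BrownR

open scoped BoundedContinuousFunction ComplexOrder Topology InnerProductSpace
open Filter

namespace Pool.Agent.Helper234.Brown

universe u v w

section propQ

variable {R : Type u} [CStarAlgebra R] {t : PTr R} {U : Ultrafilter ℕ}
variable {M : Type v} [CStarAlgebra M] {s : PTr M}

lemma exists_bound (X : Ultrapower t U) : ∃ K : ℝ, 0 ≤ K ∧ (∀ Y, un2 t U (X * Y) ≤ K * un2 t U Y) ∧
    ∀ Y, un2 t U (Y * X) ≤ K * un2 t U Y := by
  obtain ⟨x, rfl⟩ := Ideal.Quotient.mk_surjective X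
  refine ⟨‖x‖, norm_nonneg _, fun Y => ?_, fun Y => ?_⟩
  · obtain ⟨y, rfl⟩ := Ideal.Quotient.mk_surjective Y
    rw [← map_mul]
    exact (t.ultra U).n2_mul_le x y
  · obtain ⟨y, rfl⟩ := Ideal.Quotient.mk_surjective Y
    rw [← map_mul, mul_comm]
    exact (t.ultra U).n2_mul_le' y x

/-- the distance for a fixed unitary -/
noncomputable def distAt (a : ℕ → M) (π ρ : M →⋆ₐ[ℂ] Ultrapower t U) (u : unitary (Ultrapower t U)) : ℝ :=
  Real.sqrt (∑' n : ℕ, (1 / 4 : ℝ) ^ (n + 1) *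
      un2 t U (π (a n) - (u : Ultrapower t U) * ρ (a n) * star (u : Ultrapower t U)) ^ 2)

/-- continuity at an element -/
def PropQ (a : ℕ → M) (π ρ : M →⋆ₐ[ℂ] Ultrapower t U) (T : M) : Prop :=
  ∀ ε : ℝ, 0 < ε → ∃ δ : ℝ, 0 < δ ∧ ∀ u : unitary (Ultrapower t U), distAt a π ρ u < δ →
    un2 t U (π T - (u : Ultrapower t U) * ρ T * star (u : Ultrapower t U)) < ε

lemma un2_conj (u : unitary (Ultrapower t U)) (X : Ultrapower t U) :
    un2 t U ((u : Ultrapower t U) * X * star (u : Ultrapower t U)) = un2 t U X := by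
  rw [un2_mul_unitary (by simp), un2_unitary_mul (by simp)]

variable {a : ℕ → M} {π ρ : M →⋆ₐ[ℂ] Ultrapower t U}

lemma PropQ.gen (ha : ∀ n, ‖a n‖ ≤ 1) (hπ : ∀ x, un2 t U (π x) = s.n2 x)
    (hρ : ∀ x, un2 t U (ρ x) = s.n2 x) (n : ℕ) : PropQ a π ρ (a n) := by
  intro ε hε
  refine ⟨ε / 2 ^ (n+1), by positivity, fun u hu => ?_⟩
  set f : ℕ → ℝ := fun n => un2 t U (π (a n) - (u : Ultrapower t U) * ρ (a n) * star (u : Ultrapower t U)) with hf
  have hf0 : ∀ n, 0 ≤ f n := fun n => un2_nonneg _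
  have hf2 : ∀ n, f n ≤ 2 := fun n => by
    refine (un2_sub_le _ _).trans ?_
    rw [un2_conj, hπ, hρ]
    have := (s.n2_le_norm (a n)).trans (ha n)
    linarith
  have hs := summable_sq 2 hf0 hf2
  have h1 : (1 / 4 : ℝ) ^ (n + 1) * f n ^ 2 ≤ ∑' n : ℕ, (1 / 4 : ℝ) ^ (n + 1) * f n ^ 2 :=
    hs.le_tsum n (fun m _ => by positivity)
  have h2 : (1/2 : ℝ) ^ (n+1) * f n ≤ distAt a π ρ u := by
    apply Real.le_sqrt_of_sq_le
    refine le_trans (le_of_eq ?_) h1
    rw [mul_pow, ← pow_mul, mul_comm (n+1) 2, pow_mul]; norm_num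
  have h3 := lt_of_le_of_lt h2 hu
  rw [lt_div_iff₀ (by positivity)] at h3
  have h4 : (1/2 : ℝ) ^ (n+1) * f n * 2 ^ (n+1) = f n := by
    rw [mul_right_comm, ← mul_pow]; norm_num
  rw [h4] at h3
  exact h3

lemma PropQ.algMap (r : ℂ) : PropQ a π ρ (algebraMap ℂ M r) := by
  intro ε hε
  refine ⟨1, one_pos, fun u _ => ?_⟩
  have h : π (algebraMap ℂ M r) - (u : Ultrapower t U) * ρ (algebraMap ℂ M r) *
      star (u : Ultrapower t U) = 0 := by
    rw [AlgHomClass.commutes, AlgHomClass.commutes, ← Algebra.commutes, mul_assoc]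
    simp
  rw [h]
  have : un2 t U (0 : Ultrapower t U) = 0 := by
    rw [← map_zero (cls t U), un2_cls, PTr.n2_zero]
  rw [this]
  exact hε

lemma PropQ.add {x y : M} (hx : PropQ a π ρ x) (hy : PropQ a π ρ y) : PropQ a π ρ (x + y) := by
  intro ε hε
  obtain ⟨δ, hδ, h1⟩ := hx (ε/2) (by positivity)
  obtain ⟨δ', hδ', h2⟩ := hy (ε/2) (by positivity)
  refine ⟨min δ δ', lt_min hδ hδ', fun u hu => ?_⟩
  have h3 := h1 u (lt_of_lt_of_le hu (min_le_left _ _))
  have h4 := h2 u (lt_of_lt_of_le hu (min_le_right _ _))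
  have e : π (x + y) - (u : Ultrapower t U) * ρ (x + y) * star (u : Ultrapower t U) =
      (π x - (u : Ultrapower t U) * ρ x * star (u : Ultrapower t U)) +
      (π y - (u : Ultrapower t U) * ρ y * star (u : Ultrapower t U)) := by
    rw [map_add, map_add]; noncomm_ring
  rw [e]
  have := un2_add_le (π x - (u : Ultrapower t U) * ρ x * star (u : Ultrapower t U))
      (π y - (u : Ultrapower t U) * ρ y * star (u : Ultrapower t U))
  linarith

lemma PropQ.star {x : M} (hx : PropQ a π ρ x) : PropQ a π ρ (star x) := by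
  intro ε hε
  obtain ⟨δ, hδ, h1⟩ := hx ε hε
  refine ⟨δ, hδ, fun u hu => ?_⟩
  have e : π (Star.star x) - (u : Ultrapower t U) * ρ (Star.star x) * Star.star (u : Ultrapower t U) =
      Star.star (π x - (u : Ultrapower t U) * ρ x * Star.star (u : Ultrapower t U)) := by
    rw [map_star, map_star, star_sub, star_mul, star_mul, star_star, mul_assoc]
  rw [e, un2_star]
  exact h1 u hu

lemma PropQ.mul {x y : M} (hx : PropQ a π ρ x) (hy : PropQ a π ρ y) : PropQ a π ρ (x * y) := by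
  intro ε hε
  obtain ⟨K, hK, hK1, -⟩ := exists_bound (π x)
  obtain ⟨K', hK', -, hK2⟩ := exists_bound (ρ y)
  obtain ⟨δ, hδ, h1⟩ := hx (ε/(2*(K'+1))) (by positivity)
  obtain ⟨δ', hδ', h2⟩ := hy (ε/(2*(K+1))) (by positivity)
  refine ⟨min δ δ', lt_min hδ hδ', fun u hu => ?_⟩
  have h3 := h1 u (lt_of_lt_of_le hu (min_le_left _ _))
  have h4 := h2 u (lt_of_lt_of_le hu (min_le_right _ _))
  set X := π x - (u : Ultrapower t U) * ρ x * Star.star (u : Ultrapower t U) with hX
  set Y := π y - (u : Ultrapower t U) * ρ y * Star.star (u : Ultrapower t U) with hY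
  have hu1 : Star.star (u : Ultrapower t U) * (u : Ultrapower t U) = 1 := by simp
  have e : π (x * y) - (u : Ultrapower t U) * ρ (x * y) * Star.star (u : Ultrapower t U) =
      π x * Y + X * (u : Ultrapower t U) * ρ y * Star.star (u : Ultrapower t U) := by
    rw [map_mul, map_mul, hX, hY]
    have e2 : (π x - (u : Ultrapower t U) * ρ x * Star.star (u : Ultrapower t U)) *
        (u : Ultrapower t U) * ρ y * Star.star (u : Ultrapower t U) =
        π x * ((u : Ultrapower t U) * ρ y * Star.star (u : Ultrapower t U)) -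
        (u : Ultrapower t U) * ρ x * (Star.star (u : Ultrapower t U) * (u : Ultrapower t U)) *
         (ρ y * Star.star (u : Ultrapower t U)) := by noncomm_ring
    rw [e2, hu1]
    noncomm_ring
  rw [e]
  have h5 := un2_add_le (π x * Y) (X * (u : Ultrapower t U) * ρ y * Star.star (u : Ultrapower t U))
  have h6 := hK1 Y
  have h7 : un2 t U (X * (u : Ultrapower t U) * ρ y * Star.star (u : Ultrapower t U)) ≤ K' * un2 t U X := by
    rw [un2_mul_unitary (by simp)]
    refine (hK2 _).trans ?_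
    rw [un2_mul_unitary (by simp)]
  have hX0 := un2_nonneg X
  have hY0 := un2_nonneg Y
  rw [lt_div_iff₀ (by positivity)] at h3 h4
  nlinarith

lemma PropQ.adjoin (ha : ∀ n, ‖a n‖ ≤ 1) (hπ : ∀ x, un2 t U (π x) = s.n2 x)
    (hρ : ∀ x, un2 t U (ρ x) = s.n2 x) {x : M} (hx : x ∈ StarAlgebra.adjoin ℂ (Set.range a)) :
    PropQ a π ρ x := by
  induction hx using StarAlgebra.adjoin_induction with
  | mem x h => obtain ⟨n, rfl⟩ := h; exact PropQ.gen ha hπ hρ n
  | algebraMap r => exact PropQ.algMap r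
  | add x y _ _ h1 h2 => exact h1.add h2
  | mul x y _ _ h1 h2 => exact h1.mul h2
  | star x _ h => exact h.star

lemma PropQ.all (ha : ∀ n, ‖a n‖ ≤ 1) (hgen : Generates s a) (hπ : ∀ x, un2 t U (π x) = s.n2 x)
    (hρ : ∀ x, un2 t U (ρ x) = s.n2 x) (x : M) : PropQ a π ρ x := by
  intro ε hε
  obtain ⟨d, hd, h1⟩ := hgen x (ε/4) (by positivity)
  obtain ⟨δ, hδ, h2⟩ := PropQ.adjoin ha hπ hρ hd (ε/2) (by positivity)
  refine ⟨δ, hδ, fun u hu => ?_⟩
  have h3 := h2 u hu
  have e : π x - (u : Ultrapower t U) * ρ x * Star.star (u : Ultrapower t U) =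
      (π (x - d) - (u : Ultrapower t U) * ρ (x - d) * Star.star (u : Ultrapower t U)) +
      (π d - (u : Ultrapower t U) * ρ d * Star.star (u : Ultrapower t U)) := by
    rw [map_sub, map_sub]; noncomm_ring
  rw [e]
  have h4 := un2_add_le (π (x - d) - (u : Ultrapower t U) * ρ (x - d) * Star.star (u : Ultrapower t U))
      (π d - (u : Ultrapower t U) * ρ d * Star.star (u : Ultrapower t U))
  have h5 := un2_sub_le (π (x - d)) ((u : Ultrapower t U) * ρ (x - d) * Star.star (u : Ultrapower t U))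
  rw [un2_conj, hπ, hρ] at h5
  linarith

/-- if the distance vanishes then finitely many elements are simultaneously almost conjugate -/
lemma exists_unitary (ha : ∀ n, ‖a n‖ ≤ 1) (hgen : Generates s a) (hπ : ∀ x, un2 t U (π x) = s.n2 x)
    (hρ : ∀ x, un2 t U (ρ x) = s.n2 x) (h0 : brownDist t U a π ρ = 0) (T : Fin 16 → M) (ε : ℝ) (hε : 0 < ε) :
    ∃ u : unitary (Ultrapower t U), ∀ i,
      un2 t U (π (T i) - (u : Ultrapower t U) * ρ (T i) * star (u : Ultrapower t U)) < ε := by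
  choose δ hδ h1 using fun i => PropQ.all ha hgen hπ hρ (T i) ε hε
  have h2 : 0 < Finset.univ.inf' Finset.univ_nonempty δ := by
    rw [Finset.lt_inf'_iff]
    exact fun i _ => hδ i
  have h3 : brownDist t U a π ρ < Finset.univ.inf' Finset.univ_nonempty δ := by rw [h0]; exact h2
  obtain ⟨u, hu⟩ := exists_lt_of_ciInf_lt h3
  refine ⟨u, fun i => h1 i u (lt_of_lt_of_le hu (Finset.inf'_le _ (Finset.mem_univ i)))⟩

end propQ

section final

variable {R : Type u} [CStarAlgebra R] {t : PTr R} {U : Ultrafilter ℕ}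

theorem exists_two_homs (hR : IsHyperfinite t) (hU : (U : Filter ℕ) ≤ cofinite) :
    ∃ (M : Type u) (_ : CStarAlgebra M) (s : PTr M), IsIIOneFactor s ∧ IsSep s ∧
      ∃ π ρ : M →⋆ₐ[ℂ] Ultrapower t U, (∀ x, un2 t U (π x) = s.n2 x) ∧ (∀ x, un2 t U (ρ x) = s.n2 x) ∧
        ∀ a : ℕ → M, (∀ n, ‖a n‖ ≤ 1) → Generates s a → brownDist t U a π ρ ≠ 0 := by
  obtain ⟨P⟩ := exists_pair hR
  have ha := P.a_free hU
  have hb := P.b_free hU
  have hg := ha.pair hb
  have hBC : BallComplete (t.ultra U) := ballComplete_ultra t U hU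
  have hB : Fact (BallComplete (tr2 t U)) := ⟨hBC.prod hBC⟩
  obtain ⟨G⟩ := exists_gns (tr2 t U)
  refine ⟨vnClosure (DD P.a P.b) G, inferInstance, vnTr (DD P.a P.b) G, hg.isIIOne G, hg.isSep G,
    hom1 G P.a P.b, hom2 G P.a P.b, un2_hom1 ha hb G, un2_hom2 ha hb G, ?_⟩
  intro a ha1 hgen h0
  have hmem : ∀ i, Approx (tr2 t U) (DD P.a P.b) (P.a i, P.b i) := fun i =>
    Approx.of_mem (StarAlgebra.subset_adjoin ℂ _ ⟨i, rfl⟩)
  obtain ⟨u, hu⟩ := exists_unitary ha1 hgen (un2_hom1 ha hb G) (un2_hom2 ha hb G) h0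
    (fun i => vnOf G (hmem i)) (1/8) (by norm_num)
  obtain ⟨x, hx⟩ := Ideal.Quotient.mk_surjective (u : Ultrapower t U)
  apply P.no_intertwiner hU x
  · intro i
    have h1 := hu i
    rw [hom1_apply G _ (P.a i, P.b i) rfl, hom2_apply G _ (P.a i, P.b i) rfl] at h1
    rw [← un2_mul_unitary (u := (u : Ultrapower t U)) (by simp)] at h1
    have h2 : (cls t U (P.a i) - (u : Ultrapower t U) * cls t U (P.b i) * star (u : Ultrapower t U)) *
        (u : Ultrapower t U) = cls t U (P.a i) * (u : Ultrapower t U) -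
        (u : Ultrapower t U) * cls t U (P.b i) := by
      rw [sub_mul, mul_assoc _ (star (u : Ultrapower t U))]
      simp
    rw [h2, ← hx, ← map_mul, ← map_mul, ← map_sub] at h1
    exact h1
  · have h3 : un2 t U (u : Ultrapower t U) = 1 := by
      have := un2_unitary_mul (t := t) (U := U) (u := (u : Ultrapower t U)) (by simp) 1
      rw [mul_one] at this
      rw [this, ← map_one (cls t U), un2_cls, PTr.n2_one]
    rw [← hx, un2_cls] at h3
    rw [h3]
    norm_num

theorem main (hR : IsHyperfinite t) (hU : (U : Filter ℕ) ≤ cofinite) :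
    ∃ (M : Type u) (_ : CStarAlgebra M) (s : PTr M), IsIIOneFactor s ∧ IsSep s ∧
      EmbedsInUltrapower s t U ∧
      ∀ a : ℕ → M, (∀ n, ‖a n‖ ≤ 1) → Generates s a →
        ∀ (B : Type w) (_ : NormedAddCommGroup B) (_ : NormedSpace ℝ B) (Φ : HomSpace M t U → B),
          IsAffine Φ → ¬ IsIsometric a Φ := by
  obtain ⟨M, i1, s, h1, h2, π, ρ, h3, h4, h5⟩ := exists_two_homs hR hU
  refine ⟨M, i1, s, h1, h2, ⟨π, h3⟩, ?_⟩
  intro a ha hgen B i2 i3 Φ hΦ hiso
  exact h5 a ha hgen (dist_eq_zero_of_embedding hR s a ha π ρ h3 h4 (fun σ => Φ (homClass σ)) hΦ hiso)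

end final

end Pool.Agent.Helper234.Brown
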