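import Pool.Agent.Helper234.BrownS

open scoped BoundedContinuousFunction ComplexOrder Topology InnerProductSpace
open Filter

namespace Pool.Agent.Helper234.Brown

universe u v w

section unitaries

variable {A : Type u} [CStarAlgebra A]

lemma norm_unitary_le {w : A} (hw : w ∈ unitary A) : ‖w‖ ≤ 1 := by
  have h1 : ‖(1 : A)‖ ≤ 1 := by
    have : IsStarProjection (1 : A) := ⟨by simp [IsIdempotentElem], by simp [isSelfAdjoint_iff]⟩
    exact this.norm_le
  have h2 : ‖w‖ * ‖w‖ = ‖(1 : A)‖ := by rw [← CStarRing.norm_star_mul_self, hw.1]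
  nlinarith [norm_nonneg w]

/-- an invertible contraction is the mean of two unitaries -/
lemma exists_unitary_avg (c : A) (hc : IsUnit c) (h1 : ‖c‖ ≤ 1) :
    ∃ w1 ∈ unitary A, ∃ w2 ∈ unitary A, (2 : ℂ) • c = w1 + w2 := by
  let _ : PartialOrder A := CStarAlgebra.spectralOrder A
  have _ : StarOrderedRing A := CStarAlgebra.spectralOrderedRing A
  set q := CFC.abs c with hq
  have hqq : q * q = star c * c := CFC.abs_mul_abs c
  have hq0 : 0 ≤ q := CFC.abs_nonneg c
  have hqsa : IsSelfAdjoint q := IsSelfAdjoint.of_nonneg hq0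
  have hqn : ‖q‖ ≤ 1 := by rw [hq, CFC.norm_abs]; exact h1
  have hqu : IsUnit q := by
    have h2 : IsUnit (q * q) := by rw [hqq]; exact hc.star.mul hc
    exact ((Commute.refl q).isUnit_mul_iff.mp h2).1
  obtain ⟨Q, hQ⟩ := hqu
  have hQsa : star ((Q⁻¹ : Aˣ) : A) = ((Q⁻¹ : Aˣ) : A) := by
    have h3 : star (Q : A) = Q := by rw [hQ]; exact hqsa
    have h4 : star ((Q⁻¹ : Aˣ) : A) * Q = 1 := by
      rw [← h3, ← star_mul, Units.mul_inv, star_one]
    calc star ((Q⁻¹ : Aˣ) : A) = star ((Q⁻¹ : Aˣ) : A) * (Q * ((Q⁻¹ : Aˣ) : A)) := by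
          rw [Units.mul_inv, mul_one]
      _ = _ := by rw [← mul_assoc, h4, one_mul]
  set w := c * ((Q⁻¹ : Aˣ) : A) with hw
  have hw1 : star w * w = 1 := by
    rw [hw, star_mul, hQsa, show ((Q⁻¹ : Aˣ) : A) * star c * (c * ((Q⁻¹ : Aˣ) : A)) =
      ((Q⁻¹ : Aˣ) : A) * (star c * c) * ((Q⁻¹ : Aˣ) : A) by simp only [mul_assoc], ← hqq, ← hQ,
      ← mul_assoc, Units.inv_mul, one_mul, Units.mul_inv]
  have hwu : IsUnit w := hc.mul (Units.isUnit _)
  have hw2 : w * star w = 1 := by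
    obtain ⟨W, hW⟩ := hwu
    have h5 : star w = ((W⁻¹ : Aˣ) : A) := by
      calc star w = star w * (W * ((W⁻¹ : Aˣ) : A)) := by rw [Units.mul_inv, mul_one]
        _ = _ := by rw [← mul_assoc, hW, hw1, one_mul]
    rw [h5, ← hW, Units.mul_inv]
  have hwmem : w ∈ unitary A := ⟨hw1, hw2⟩
  have hz := hqsa.self_add_I_smul_cfcSqrt_sub_sq_mem_unitary q hqn
  set r := CFC.sqrt (1 - q ^ 2) with hr
  have hrsa : star r = r := (CFC.sqrt_nonneg (1 - q ^ 2)).isSelfAdjoint
  set z := q + Complex.I • r with hzdef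
  refine ⟨w * z, mul_mem hwmem hz, w * star z, mul_mem hwmem (Unitary.star_mem hz), ?_⟩
  have h6 : z + star z = (2 : ℂ) • q := by
    rw [hzdef, star_add, star_smul, hrsa, hqsa.star_eq, Complex.star_def, Complex.conj_I]
    module
  rw [← mul_add, h6, mul_smul_comm, hw, mul_assoc, ← hQ, Units.inv_mul, mul_one]

variable (t : PTr A)

lemma re_tr_le (v : A) {w : A} (hw : w ∈ unitary A) : (t.tr (star w * v)).re ≤ t.n2 v := by
  have h1 := t.norm_tr_le w v
  have h2 : t.n2 w = 1 := by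
    have := t.n2_unitary_mul (u := w) hw.1 1
    rwa [mul_one, t.n2_one] at this
  rw [h2, one_mul] at h1
  exact (Complex.re_le_norm _).trans h1

/-- Russo-Dye type estimate -/
lemma exists_unitary_re (v b : A) (hb : ‖b‖ < 1) (ε : ℝ) (hε : 0 < ε) :
    ∃ w ∈ unitary A, (t.tr (star b * v)).re ≤ (t.tr (star w * v)).re + ε := by
  let f : unitary A → ℝ := fun w => (t.tr (star (w : A) * v)).re
  have hbdd : BddAbove (Set.range f) := ⟨t.n2 v, by
    rintro _ ⟨w, rfl⟩
    exact re_tr_le t v w.2⟩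
  set S := ⨆ w, f w with hS
  obtain ⟨u, hu⟩ := exists_lt_of_lt_ciSup (show S - ε / 2 < ⨆ w, f w by rw [← hS]; linarith)
  have hub : ‖star (u : A) * b‖ < 1 := by
    refine lt_of_le_of_lt (norm_mul_le _ _) ?_
    have h1 : ‖star (u : A)‖ ≤ 1 := by
      rw [norm_star]
      exact norm_unitary_le u.2
    calc ‖star (u : A)‖ * ‖b‖ ≤ 1 * ‖b‖ := by gcongr
      _ < 1 := by linarith
  have hunit : IsUnit (1 + star (u : A) * b) := by
    have := isUnit_one_sub_of_norm_lt_one (x := -(star (u : A) * b)) (by rwa [norm_neg])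
    simpa using this
  have hone : ‖(1 : A)‖ ≤ 1 := by
    have : IsStarProjection (1 : A) := ⟨by simp [IsIdempotentElem], by simp [isSelfAdjoint_iff]⟩
    exact this.norm_le
  obtain ⟨w1, hw1, w2, hw2, h12⟩ := exists_unitary_avg ((2⁻¹ : ℂ) • (1 + star (u : A) * b))
    (by
      rw [show (2⁻¹ : ℂ) • (1 + star (u : A) * b) = algebraMap ℂ A 2⁻¹ * (1 + star (u : A) * b) by
        rw [Algebra.smul_def]]
      refine IsUnit.mul ?_ hunit
      exact (IsUnit.mk0 _ (by norm_num)).map (algebraMap ℂ A)) (by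
      rw [norm_smul]
      have h2 := norm_add_le (1 : A) (star (u : A) * b)
      have h3 : ‖(2⁻¹ : ℂ)‖ = 2⁻¹ := by norm_num
      rw [h3]
      linarith)
  rw [smul_smul, mul_inv_cancel₀ (by norm_num), one_smul] at h12
  have h4 : (u : A) + b = u * w1 + u * w2 := by
    rw [← mul_add, ← h12, mul_add, mul_one, ← mul_assoc, u.2.2, one_mul]
  have h5 : (t.tr (star ((u : A) + b) * v)).re ≤ 2 * S := by
    rw [h4, star_add, add_mul, map_add, Complex.add_re]
    have e1 : (t.tr (star ((u : A) * w1) * v)).re ≤ S := le_ciSup hbdd ⟨_, mul_mem u.2 hw1⟩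
    have e2 : (t.tr (star ((u : A) * w2) * v)).re ≤ S := le_ciSup hbdd ⟨_, mul_mem u.2 hw2⟩
    linarith
  rw [star_add, add_mul, map_add, Complex.add_re] at h5
  refine ⟨u, u.2, ?_⟩
  have h6 : f u = (t.tr (star (u : A) * v)).re := rfl
  rw [← h6]
  rw [← h6] at h5
  linarith

/-- contractions are close to unitaries -/
lemma exists_unitary_near (v : A) (hv : ‖v‖ ≤ 1) (ε : ℝ) (hε : 0 < ε) :
    ∃ w ∈ unitary A, t.n2 (v - w) ^ 2 ≤ 1 - t.n2 v ^ 2 + ε := by
  have hε' : 0 < min (ε / 4) 1 := lt_min (by linarith) one_pos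
  set η := min (ε / 4) 1 with hη
  have hη1 : η ≤ 1 := min_le_right _ _
  have hη4 : η ≤ ε / 4 := min_le_left _ _
  set b : A := (((1 - η / 2 : ℝ)) : ℂ) • v with hb
  have hbn : ‖b‖ < 1 := by
    rw [hb, norm_smul, Complex.norm_real, Real.norm_of_nonneg (by linarith)]
    have := norm_nonneg v
    nlinarith
  obtain ⟨w, hw, h1⟩ := exists_unitary_re t v b hbn η hε'
  refine ⟨w, hw, ?_⟩
  have h2 : (t.tr (star b * v)).re = (1 - η / 2) * t.n2 v ^ 2 := by
    rw [hb, star_smul, smul_mul_assoc, map_smul, t.tr_self_eq, Complex.star_def, Complex.conj_ofReal,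
      smul_eq_mul, ← Complex.ofReal_mul, Complex.ofReal_re]
  have h3 : t.n2 v ≤ 1 := (t.n2_le_norm v).trans hv
  have h4 : t.n2 w ^ 2 = 1 := by
    have := t.n2_unitary_mul (u := w) hw.1 1
    rw [mul_one, t.n2_one] at this
    rw [this, one_pow]
  have h5 : t.n2 (v - w) ^ 2 = t.n2 v ^ 2 + t.n2 w ^ 2 - 2 * (t.tr (star w * v)).re := by
    rw [t.n2_sq, t.n2_sq, t.n2_sq, star_sub, sub_mul, mul_sub, mul_sub, map_sub, map_sub, map_sub]
    have h6 : t.tr (star v * w) = (starRingEnd ℂ) (t.tr (star w * v)) := by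
      rw [← t.tr_star, star_mul, star_star]
    rw [h6]
    simp only [Complex.sub_re, Complex.conj_re]
    ring
  rw [h5, h4]
  rw [h2] at h1
  have h7 := t.n2_nonneg v
  have h8 : t.n2 v ^ 2 ≤ 1 := by nlinarith
  have h9 : η * t.n2 v ^ 2 ≤ η := by nlinarith
  linarith

end unitaries

section lift

variable {R : Type u} [CStarAlgebra R] {t : PTr R} {U : Ultrafilter ℕ}

/-- unitaries of the ultrapower lift to sequences of unitaries -/
lemma exists_unitary_lift (hU : (U : Filter ℕ) ≤ cofinite) (X : Ultrapower t U) (hX : star X * X = 1) :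
    ∃ w : ℕ →ᵇ R, ‖w‖ ≤ 1 ∧ (∀ n, w n ∈ unitary R) ∧ cls t U w = X := by
  obtain ⟨G⟩ := exists_gns (t.ultra U)
  obtain ⟨x, rfl⟩ := Ideal.Quotient.mk_surjective X
  have h1 : (t.ultra U).n2 (star x * x - 1) = 0 := by
    rw [← cls_eq_iff, map_mul, map_one]
    exact hX
  have h2 : G.π (star x * x) = 1 := by
    rw [← map_one G.π]
    apply G.eq_of_xi
    have h3 := G.norm_eq (star x * x - 1)
    rw [h1, map_sub] at h3
    exact sub_eq_zero.mp (norm_eq_zero.mp h3)
  have h4 : ‖G.π x‖ ≤ 1 := by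
    have h5 : ‖G.π x‖ * ‖G.π x‖ = ‖(1 : G.H →L[ℂ] G.H)‖ := by
      rw [← CStarRing.norm_star_mul_self, ← map_star, ← map_mul, h2]
    have h6 : ‖(1 : G.H →L[ℂ] G.H)‖ ≤ 1 := ContinuousLinearMap.norm_id_le
    nlinarith [norm_nonneg (G.π x)]
  obtain ⟨y, hy1, hy2⟩ := G.lift_contraction x h4
  have h7 : cls t U y = cls t U x := by
    rw [cls_eq_iff]
    exact G.n2_sub_of_eq hy2
  choose w hw1 hw2 using fun n : ℕ => exists_unitary_near t (y n) ((y.norm_coe_le_norm n).trans hy1)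
    (1 / ((n : ℝ) + 1)) (by positivity)
  have hwn : ∀ n, ‖w n‖ ≤ 1 := fun n => norm_unitary_le (hw1 n)
  let W : ℕ →ᵇ R := BoundedContinuousFunction.ofNormedAddCommGroupDiscrete w 1 hwn
  refine ⟨W, ?_, hw1, ?_⟩
  · rw [BoundedContinuousFunction.norm_le zero_le_one]
    exact hwn
  · rw [← h7, cls_eq_iff]
    have h8 : Tendsto (fun n => t.n2 ((W - y) n) ^ 2) (U : Filter ℕ) (𝓝 (((t.ultra U).n2 (W - y)) ^ 2)) :=
      (t.tendsto_n2 U (W - y)).pow 2
    have hy3 : (t.ultra U).n2 y = 1 := by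
      have h9 : (t.ultra U).tr (star y * y) = 1 := by
        have h10 : cls t U (star y * y) = cls t U 1 := by
          rw [map_mul, ← star_cls, h7, map_one]; exact hX
        have h11 := congrArg (utr t U) h10
        rw [utr_cls, utr_cls, (t.ultra U).tr_one] at h11
        exact h11
      rw [PTr.n2, h9]; simp
    have h12 : Tendsto (fun n : ℕ => 1 - t.n2 (y n) ^ 2 + 1 / ((n : ℝ) + 1)) (U : Filter ℕ) (𝓝 0) := by
      have a1 := (t.tendsto_n2 U y).pow 2
      rw [hy3] at a1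
      have a2 : Tendsto (fun n : ℕ => 1 / ((n : ℝ) + 1)) (U : Filter ℕ) (𝓝 0) := by
        refine tendsto_one_div_add_atTop_nhds_zero_nat.mono_left ?_
        rw [← Nat.cofinite_eq_atTop]; exact hU
      have a3 := (tendsto_const_nhds (x := (1:ℝ)).sub a1).add a2
      simpa using a3
    have h13 : ((t.ultra U).n2 (W - y)) ^ 2 ≤ 0 := by
      refine le_of_tendsto_of_tendsto' h8 h12 (fun n => ?_)
      have := hw2 n
      rw [t.n2_sub_comm] at this
      exact this
    have h14 := (t.ultra U).n2_nonneg (W - y)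
    nlinarith

end lift

end Pool.Agent.Helper234.Brown
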