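import Pool.Agent.Helper234.BrownDefs1
import Pool.Agent.Helper234.BrownT

open scoped BoundedContinuousFunction ComplexOrder Topology InnerProductSpace
open Filter

namespace Pool.Agent.Helper234.Brown

universe u v w

namespace PTr

variable {A : Type u} [CStarAlgebra A] (t : PTr A)

lemma norm_tr_mul_le_n1 (x z : A) : ‖t.tr (x * z)‖ ≤ t.n1 x * ‖z‖ := by
  rcases (norm_nonneg z).eq_or_lt with h | h
  · rw [norm_eq_zero.mp h.symm]; simp
  · have hz : ‖((‖z‖ : ℂ)⁻¹) • z‖ ≤ 1 := by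
      rw [norm_smul, norm_inv, Complex.norm_real, norm_norm, inv_mul_cancel₀ h.ne']
    have h1 := t.le_n1 x hz
    rw [mul_smul_comm, map_smul, norm_smul, norm_inv, Complex.norm_real, norm_norm,
      inv_mul_le_iff₀ h] at h1
    linarith

lemma n1_mul_le (x z : A) : t.n1 (x * z) ≤ t.n1 x * ‖z‖ := t.n1_le (fun y hy => by
  rw [mul_assoc]
  refine (t.norm_tr_mul_le_n1 x (z * y)).trans ?_
  have h1 := t.n1_nonneg x
  gcongr
  calc ‖z * y‖ ≤ ‖z‖ * ‖y‖ := norm_mul_le _ _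
    _ ≤ ‖z‖ * 1 := by gcongr
    _ = ‖z‖ := mul_one _)

lemma n1_mul_le' (x z : A) : t.n1 (z * x) ≤ ‖z‖ * t.n1 x := t.n1_le (fun y hy => by
  rw [mul_assoc, t.tr_comm, mul_assoc]
  refine (t.norm_tr_mul_le_n1 x (y * z)).trans ?_
  have h1 := t.n1_nonneg x
  rw [mul_comm]
  gcongr
  calc ‖y * z‖ ≤ ‖y‖ * ‖z‖ := norm_mul_le _ _
    _ ≤ 1 * ‖z‖ := by gcongr
    _ = ‖z‖ := one_mul _)

lemma n2_sq_le_n1 (x : A) : t.n2 x ^ 2 ≤ t.n1 x * ‖x‖ := by
  have h1 := t.norm_tr_mul_le_n1 x (star x)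
  rw [t.tr_comm, t.tr_self_eq, norm_star, Complex.norm_real, Real.norm_of_nonneg (by positivity)] at h1
  exact h1

end PTr

section ultra

variable {R : Type u} [CStarAlgebra R] (t : PTr R) (U : Ultrafilter ℕ)

lemma un1_cls (x : ℕ →ᵇ R) : un1 t U (cls t U x) = (t.ultra U).n1 x := rfl

lemma tendsto_n1 (hU : (U : Filter ℕ) ≤ cofinite) (x : ℕ →ᵇ R) :
    Tendsto (fun n => t.n1 (x n)) (U : Filter ℕ) (𝓝 ((t.ultra U).n1 x)) := by
  have hb : ∀ n, ‖(t.n1 (x n) : ℂ)‖ ≤ ‖x‖ := fun n => by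
    rw [Complex.norm_real, Real.norm_of_nonneg (t.n1_nonneg _)]
    exact (t.n1_le_n2 _).trans ((t.n2_le_norm _).trans (x.norm_coe_le_norm n))
  have h0 := tendsto_limUnder_ultra U (fun n => (t.n1 (x n) : ℂ)) ‖x‖ hb
  set L := limUnder (U : Filter ℕ) fun n => (t.n1 (x n) : ℂ) with hL
  have h1 : Tendsto (fun n => t.n1 (x n)) (U : Filter ℕ) (𝓝 L.re) :=
    (Complex.continuous_re.tendsto _).comp h0
  have hle : (t.ultra U).n1 x ≤ L.re := by
    apply PTr.n1_le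
    intro y hy
    have h2 := (t.tendsto_ultra U (x * y)).norm
    refine le_of_tendsto_of_tendsto' h2 h1 (fun n => ?_)
    exact t.le_n1 (x n) ((y.norm_coe_le_norm n).trans hy)
  have hge : L.re ≤ (t.ultra U).n1 x := by
    have hex : ∀ n : ℕ, ∃ y : R, ‖y‖ ≤ 1 ∧ t.n1 (x n) - 1 / ((n : ℝ) + 1) ≤ ‖t.tr (x n * y)‖ := fun n => by
      have : Nonempty {y : R // ‖y‖ ≤ 1} := ⟨⟨0, by simp⟩⟩
      obtain ⟨y, hy⟩ := exists_lt_of_lt_ciSup (show t.n1 (x n) - 1 / ((n : ℝ) + 1) <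
        ⨆ y : {y : R // ‖y‖ ≤ 1}, ‖t.tr (x n * y)‖ by
          have : 0 < 1 / ((n : ℝ) + 1) := by positivity
          change _ < t.n1 (x n)
          linarith)
      exact ⟨y, y.2, hy.le⟩
    choose y hy1 hy2 using hex
    let Y : ℕ →ᵇ R := BoundedContinuousFunction.ofNormedAddCommGroupDiscrete y 1 hy1
    have hY : ‖Y‖ ≤ 1 := by
      rw [BoundedContinuousFunction.norm_le zero_le_one]
      exact hy1
    refine le_trans ?_ ((t.ultra U).le_n1 x hY)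
    have h2 := (t.tendsto_ultra U (x * Y)).norm
    have h3 : Tendsto (fun n : ℕ => t.n1 (x n) - 1 / ((n : ℝ) + 1)) (U : Filter ℕ) (𝓝 (L.re - 0)) := by
      refine h1.sub ?_
      refine tendsto_one_div_add_atTop_nhds_zero_nat.mono_left ?_
      rw [← Nat.cofinite_eq_atTop]; exact hU
    rw [sub_zero] at h3
    exact le_of_tendsto_of_tendsto' h3 h2 hy2
  rwa [le_antisymm hge hle] at h1

lemma un1_nonneg (X : Ultrapower t U) : 0 ≤ un1 t U X := by
  obtain ⟨x, rfl⟩ := Ideal.Quotient.mk_surjective X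
  exact (t.ultra U).n1_nonneg x

end ultra

end Pool.Agent.Helper234.Brown
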