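import Pool.Agent.Helper234.BrownU

open scoped BoundedContinuousFunction ComplexOrder Topology InnerProductSpace
open Filter

namespace Pool.Agent.Helper234.Brown

universe u v w

/-- tuples of 16 self-adjoint unitaries -/
structure Tup (R : Type u) [CStarAlgebra R] where
  y : Fin 16 → R
  sa : ∀ i, star (y i) = y i
  sq : ∀ i, y i * y i = 1

instance (R : Type u) [CStarAlgebra R] : TopologicalSpace (Tup R) := ⊥
instance (R : Type u) [CStarAlgebra R] : DiscreteTopology (Tup R) := ⟨rfl⟩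

/-- restriction of a trace along a homomorphism -/
noncomputable def PTr.comap {A : Type u} {B : Type v} [CStarAlgebra A] [CStarAlgebra B] (t : PTr B) (φ : A →⋆ₐ[ℂ] B) :
    PTr A where
  tr := t.tr.comp φ.toAlgHom.toLinearMap
  tr_one := by
    show t.tr (φ 1) = 1
    rw [map_one, t.tr_one]
  tr_comm x y := by
    show t.tr (φ (x * y)) = t.tr (φ (y * x))
    rw [map_mul φ, map_mul φ, t.tr_comm]
  tr_nonneg x := by
    show 0 ≤ t.tr (φ (star x * x))
    rw [map_mul φ, map_star]
    exact t.tr_nonneg _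

lemma PTr.comap_tr {A : Type u} {B : Type v} [CStarAlgebra A] [CStarAlgebra B] (t : PTr B) (φ : A →⋆ₐ[ℂ] B)
    (x : A) : (t.comap φ).tr x = t.tr (φ x) := rfl

lemma PTr.comap_n2 {A : Type u} {B : Type v} [CStarAlgebra A] [CStarAlgebra B] (t : PTr B) (φ : A →⋆ₐ[ℂ] B)
    (x : A) : (t.comap φ).n2 x = t.n2 (φ x) := by
  unfold PTr.n2
  rw [comap_tr, map_mul φ, map_star]

section micro

variable {R : Type u} [CStarAlgebra R] (t : PTr R)

/-- nearly free tuples -/
def NF (N : ℕ) (y : Tup R) : Prop :=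
  ∀ w : List (Fin 16), w.length ≤ N → red w ≠ [] → ‖t.tr (ev y.y w)‖ ≤ 1 / ((N : ℝ) + 1)

variable {t}

lemma NF.mono {N N' : ℕ} (h : N ≤ N') {y : Tup R} (hy : NF t N' y) : NF t N y := by
  intro w hw hr
  refine (hy w (hw.trans h) hr).trans ?_
  have : (N : ℝ) ≤ N' := by exact_mod_cast h
  gcongr

/-- coordinate functions -/
noncomputable def gen (i : Fin 16) : Tup R →ᵇ R :=
  BoundedContinuousFunction.ofNormedAddCommGroupDiscrete (fun y => y.y i) 1
    (fun y => norm_le_one_of_sq (y.sa i) (y.sq i))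

lemma gen_apply (i : Fin 16) (y : Tup R) : gen i y = y.y i := rfl

lemma ev_gen (w : List (Fin 16)) (y : Tup R) : ev gen w y = ev y.y w := by
  induction w with
  | nil => rfl
  | cons i w ih => rw [ev_cons, ev_cons, ← ih]; rfl

/-- the algebra of noncommutative polynomials on tuples -/
noncomputable abbrev DA (R : Type u) [CStarAlgebra R] : StarSubalgebra ℂ (Tup R →ᵇ R) :=
  StarAlgebra.adjoin ℂ (Set.range gen)

variable (t)

/-- uniformly approximable functions -/
def UA (T : Tup R →ᵇ R) : Prop :=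
  ∀ ε : ℝ, 0 < ε → ∃ d ∈ DA R, ∃ N, ∀ y, NF t N y → t.n2 (T y - d y) < ε

variable {t}

lemma UA.of_mem {T : Tup R →ᵇ R} (h : T ∈ DA R) : UA t T := fun ε hε => ⟨T, h, 0, fun y _ => by simpa using hε⟩

lemma UA.add {x y : Tup R →ᵇ R} (hx : UA t x) (hy : UA t y) : UA t (x + y) := by
  intro ε hε
  obtain ⟨d, hd, N, h1⟩ := hx (ε/2) (by positivity)
  obtain ⟨e, he, N', h2⟩ := hy (ε/2) (by positivity)
  refine ⟨d + e, add_mem hd he, max N N', fun z hz => ?_⟩
  have a1 := h1 z (hz.mono (le_max_left _ _))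
  have a2 := h2 z (hz.mono (le_max_right _ _))
  rw [show (x + y) z - (d + e) z = (x z - d z) + (y z - e z) by
    simp only [BoundedContinuousFunction.coe_add, Pi.add_apply]; abel]
  have := t.n2_add_le (x z - d z) (y z - e z)
  linarith

lemma UA.star {x : Tup R →ᵇ R} (hx : UA t x) : UA t (star x) := by
  intro ε hε
  obtain ⟨d, hd, N, h1⟩ := hx ε hε
  refine ⟨Star.star d, star_mem hd, N, fun z hz => ?_⟩
  show t.n2 (Star.star (x z) - Star.star (d z)) < ε
  rw [← star_sub, t.n2_star]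
  exact h1 z hz

lemma UA.mul {x y : Tup R →ᵇ R} (hx : UA t x) (hy : UA t y) : UA t (x * y) := by
  intro ε hε
  have hxp : 0 < ‖x‖ + 1 := by positivity
  obtain ⟨e, he, N', h2⟩ := hy (ε/(2 * (‖x‖ + 1))) (by positivity)
  obtain ⟨d, hd, N, h1⟩ := hx (ε/(2 * (‖e‖ + 1))) (by positivity)
  refine ⟨d * e, mul_mem hd he, max N N', fun z hz => ?_⟩
  have a1 := h1 z (hz.mono (le_max_left _ _))
  have a2 := h2 z (hz.mono (le_max_right _ _))
  rw [show (x * y) z - (d * e) z = x z * (y z - e z) + (x z - d z) * e z by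
    simp only [BoundedContinuousFunction.coe_mul, Pi.mul_apply]; noncomm_ring]
  have h3 := t.n2_add_le (x z * (y z - e z)) ((x z - d z) * e z)
  have h4 := t.n2_mul_le (x z) (y z - e z)
  have h5 := t.n2_mul_le' (x z - d z) (e z)
  have hxz := x.norm_coe_le_norm z
  have hez := e.norm_coe_le_norm z
  have n1 := t.n2_nonneg (y z - e z)
  have n2 := t.n2_nonneg (x z - d z)
  have h6 : ‖x z‖ * t.n2 (y z - e z) < ε/2 := by
    rw [lt_div_iff₀ (by positivity)] at a2
    rw [lt_div_iff₀ (by positivity)]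
    rcases n1.eq_or_lt with h0 | h0
    · rw [← h0]; linarith
    · nlinarith [norm_nonneg (x z)]
  have h7 : t.n2 (x z - d z) * ‖e z‖ < ε/2 := by
    rw [lt_div_iff₀ (by positivity)] at a1
    rw [lt_div_iff₀ (by positivity)]
    rcases n2.eq_or_lt with h0 | h0
    · rw [← h0]; linarith
    · nlinarith [norm_nonneg (e z)]
  linarith

variable (t)

/-- the algebra of uniformly approximable functions -/
noncomputable def UAlg : StarSubalgebra ℂ (Tup R →ᵇ R) where
  carrier := {T | UA t T}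
  mul_mem' := UA.mul
  add_mem' := UA.add
  algebraMap_mem' r := UA.of_mem (algebraMap_mem _ r)
  star_mem' := UA.star

instance : IsClosed (UAlg t : Set (Tup R →ᵇ R)) := by
  apply IsSeqClosed.isClosed
  intro T S hT hS ε hε
  rw [Metric.tendsto_atTop] at hS
  obtain ⟨n, hn⟩ := hS (ε/2) (by positivity)
  have hn := hn n le_rfl
  obtain ⟨d, hd, N, h1⟩ := hT n (ε/2) (by positivity)
  refine ⟨d, hd, N, fun y hy => ?_⟩
  have h2 := h1 y hy
  have h3 := t.n2_sub_tri (S y) (T n y) (d y)
  have h4 : t.n2 (S y - T n y) ≤ dist (T n) S := by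
    rw [t.n2_sub_comm, dist_eq_norm]
    exact (t.n2_le_norm _).trans ((T n - S).norm_coe_le_norm y)
  linarith

variable {t}

/-- uniform convergence of traces -/
def Conv (t : PTr R) (T : Tup R →ᵇ R) : Prop :=
  ∀ ε : ℝ, 0 < ε → ∃ N, ∀ y y', NF t N y → NF t N y' → ‖t.tr (T y) - t.tr (T y')‖ < ε

lemma conv_span {d : Tup R →ᵇ R} (hd : d ∈ Submodule.span ℂ (Set.range (ev (gen (R := R))))) : Conv t d := by
  induction hd using Submodule.span_induction with
  | mem d hd =>
    obtain ⟨w, rfl⟩ := hd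
    intro ε hε
    obtain ⟨N, hN⟩ := exists_nat_gt (2 / ε)
    refine ⟨max N w.length, fun y y' hy hy' => ?_⟩
    rw [ev_gen, ev_gen]
    by_cases hr : red w = []
    · rw [← ev_red y.sq, ← ev_red y'.sq, hr]
      simpa using hε
    · have h1 := hy w (le_max_right _ _) hr
      have h2 := hy' w (le_max_right _ _) hr
      refine lt_of_le_of_lt (norm_sub_le _ _) ?_
      have h3 : (N : ℝ) ≤ (max N w.length : ℕ) := by exact_mod_cast le_max_left _ _
      have h4 : 2 / ε < (max N w.length : ℕ) + 1 := by linarith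
      rw [div_lt_iff₀ hε] at h4
      have h5 : (0 : ℝ) < (max N w.length : ℕ) + 1 := by positivity
      have h6 : 1 / (((max N w.length : ℕ) : ℝ) + 1) + 1 / (((max N w.length : ℕ) : ℝ) + 1) < ε := by
        rw [← add_div, div_lt_iff₀ h5]
        linarith
      linarith
  | zero => exact fun ε hε => ⟨0, fun y y' _ _ => by simpa using hε⟩
  | add d e _ _ h1 h2 =>
    intro ε hε
    obtain ⟨N, h1⟩ := h1 (ε/2) (by positivity)
    obtain ⟨N', h2⟩ := h2 (ε/2) (by positivity)
    refine ⟨max N N', fun y y' hy hy' => ?_⟩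
    have a1 := h1 y y' (hy.mono (le_max_left _ _)) (hy'.mono (le_max_left _ _))
    have a2 := h2 y y' (hy.mono (le_max_right _ _)) (hy'.mono (le_max_right _ _))
    simp only [BoundedContinuousFunction.coe_add, Pi.add_apply, map_add]
    rw [show t.tr (d y) + t.tr (e y) - (t.tr (d y') + t.tr (e y')) =
      (t.tr (d y) - t.tr (d y')) + (t.tr (e y) - t.tr (e y')) by ring]
    refine lt_of_le_of_lt (norm_add_le _ _) ?_
    linarith
  | smul c d _ h1 =>
    intro ε hε
    obtain ⟨N, h1⟩ := h1 (ε/(‖c‖ + 1)) (by positivity)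
    refine ⟨N, fun y y' hy hy' => ?_⟩
    have a1 := h1 y y' hy hy'
    simp only [BoundedContinuousFunction.coe_smul, map_smul, smul_eq_mul]
    rw [← mul_sub, norm_mul]
    rw [lt_div_iff₀ (by positivity)] at a1
    have := norm_nonneg (t.tr (d y) - t.tr (d y'))
    rcases this.eq_or_lt with h0 | h0
    · rw [← h0]; linarith
    · nlinarith [norm_nonneg c]

lemma gen_sa (i : Fin 16) : star (gen (R := R) i) = gen i := by
  ext y; exact y.sa i

lemma gen_sq (i : Fin 16) : gen (R := R) i * gen i = 1 := by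
  ext y; exact y.sq i

lemma UA.conv {T : Tup R →ᵇ R} (hT : UA t T) : Conv t T := by
  intro ε hε
  obtain ⟨d, hd, N, h1⟩ := hT (ε/3) (by positivity)
  obtain ⟨N', h2⟩ := conv_span (t := t) (adjoin_le_span gen_sa hd) (ε/3) (by positivity)
  refine ⟨max N N', fun y y' hy hy' => ?_⟩
  have a1 := h1 y (hy.mono (le_max_left _ _))
  have a2 := h1 y' (hy'.mono (le_max_left _ _))
  have a3 := h2 y y' (hy.mono (le_max_right _ _)) (hy'.mono (le_max_right _ _))
  have b1 := t.norm_tr_le_n2 (T y - d y)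
  have b2 := t.norm_tr_le_n2 (T y' - d y')
  rw [map_sub] at b1 b2
  have e : t.tr (T y) - t.tr (T y') = (t.tr (T y) - t.tr (d y)) + (t.tr (d y) - t.tr (d y')) -
    (t.tr (T y') - t.tr (d y')) := by ring
  rw [e]
  refine lt_of_le_of_lt (norm_sub_le _ _) ?_
  have := norm_add_le (t.tr (T y) - t.tr (d y)) (t.tr (d y) - t.tr (d y'))
  linarith

end micro

end Pool.Agent.Helper234.Brown
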