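import Pool.Agent.Helper234.BrownV

open scoped BoundedContinuousFunction ComplexOrder Topology InnerProductSpace
open Filter

namespace Pool.Agent.Helper234.Brown

universe u v w

section micro

variable {R : Type u} [CStarAlgebra R] {t : PTr R} {U : Ultrafilter ℕ}

/-- evaluation along a sequence of tuples -/
noncomputable def evalSeq (c : ℕ → Tup R) : (Tup R →ᵇ R) →⋆ₐ[ℂ] (ℕ →ᵇ R) where
  toFun T := BoundedContinuousFunction.ofNormedAddCommGroupDiscrete (fun n => T (c n)) ‖T‖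
    (fun n => T.norm_coe_le_norm (c n))
  map_one' := by ext; rfl
  map_mul' x y := by ext; rfl
  map_zero' := by ext; rfl
  map_add' x y := by ext; rfl
  commutes' r := by ext; rfl
  map_star' x := by ext; rfl

lemma evalSeq_apply (c : ℕ → Tup R) (T : Tup R →ᵇ R) (n : ℕ) : evalSeq c T n = T (c n) := rfl

/-- sequences of microstates -/
def MS (t : PTr R) (U : Ultrafilter ℕ) (c : ℕ → Tup R) : Prop :=
  ∀ N, ∀ᶠ n in (U : Filter ℕ), NF t N (c n)

/-- trace defined by a sequence -/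
noncomputable def msTr (t : PTr R) (U : Ultrafilter ℕ) (c : ℕ → Tup R) : PTr (UAlg t) :=
  (t.ultra U).comap ((evalSeq c).comp (UAlg t).subtype)

lemma msTr_tr (c : ℕ → Tup R) (T : UAlg t) : (msTr t U c).tr T = (t.ultra U).tr (evalSeq c T.1) := rfl

lemma msTr_n2 (c : ℕ → Tup R) (T : UAlg t) : (msTr t U c).n2 T = (t.ultra U).n2 (evalSeq c T.1) :=
  PTr.comap_n2 _ _ _

lemma MS.unif_tr {c : ℕ → Tup R} (hc : MS t U c) (T : UAlg t) (ε : ℝ) (hε : 0 < ε) :
    ∃ N, ∀ y, NF t N y → ‖t.tr (T.1 y) - (msTr t U c).tr T‖ ≤ ε := by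
  obtain ⟨N, hN⟩ := UA.conv T.2 ε hε
  refine ⟨N, fun y hy => ?_⟩
  have h1 := t.tendsto_ultra U (evalSeq c T.1)
  have h2 : Tendsto (fun n => ‖t.tr (T.1 y) - t.tr (evalSeq c T.1 n)‖) (U : Filter ℕ)
      (𝓝 ‖t.tr (T.1 y) - (msTr t U c).tr T‖) := (tendsto_const_nhds.sub h1).norm
  refine le_of_tendsto h2 ?_
  filter_upwards [hc N] with n hn
  exact (hN y (c n) hy hn).le

lemma MS.unif_n2 {c : ℕ → Tup R} (hc : MS t U c) (T : UAlg t) (ε : ℝ) (hε : 0 < ε) :
    ∃ N, ∀ y, NF t N y → |t.n2 (T.1 y) ^ 2 - (msTr t U c).n2 T ^ 2| ≤ ε := by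
  obtain ⟨N, hN⟩ := hc.unif_tr (star T * T) ε hε
  refine ⟨N, fun y hy => ?_⟩
  have h1 := hN y hy
  have h2 : t.tr ((star T * T : UAlg t).1 y) = ((t.n2 (T.1 y) ^ 2 : ℝ) : ℂ) := t.tr_self_eq _
  rw [h2, (msTr t U c).tr_self_eq, ← Complex.ofReal_sub, Complex.norm_real] at h1
  exact h1

lemma MS.unif_lt {c : ℕ → Tup R} (hc : MS t U c) (T : UAlg t) (r : ℝ) (hr : (msTr t U c).n2 T < r) :
    ∃ N, ∀ y, NF t N y → t.n2 (T.1 y) < r := by
  have h0 := (msTr t U c).n2_nonneg T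
  have hpos : 0 < r ^ 2 - (msTr t U c).n2 T ^ 2 := by nlinarith
  obtain ⟨N, hN⟩ := hc.unif_n2 T ((r ^ 2 - (msTr t U c).n2 T ^ 2) / 2) (by positivity)
  refine ⟨N, fun y hy => ?_⟩
  have h1 := (abs_le.mp (hN y hy)).2
  have h2 : t.n2 (T.1 y) ^ 2 < r ^ 2 := by linarith
  exact lt_of_pow_lt_pow_left₀ 2 (by linarith) h2

/-- all microstate sequences define the same 2-norm -/
lemma MS.n2_eq {c c' : ℕ → Tup R} (hc : MS t U c) (hc' : MS t U c') (T : UAlg t) :
    (t.ultra U).n2 (evalSeq c' T.1) = (msTr t U c).n2 T := by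
  have h1 := (t.tendsto_n2 U (evalSeq c' T.1)).pow 2
  have h2 : ((t.ultra U).n2 (evalSeq c' T.1)) ^ 2 = (msTr t U c).n2 T ^ 2 := by
    apply eq_of_forall_dist_le
    intro ε hε
    obtain ⟨N, hN⟩ := hc.unif_n2 T ε hε
    have h3 := (h1.sub_const ((msTr t U c).n2 T ^ 2)).abs
    rw [Real.dist_eq]
    refine le_of_tendsto h3 ?_
    filter_upwards [hc' N] with n hn
    exact hN _ hn
  exact (sq_eq_sq₀ (PTr.n2_nonneg _ _) (PTr.n2_nonneg _ _)).mp h2

lemma ms_ballComplete (hv : IsVN t) {c : ℕ → Tup R} (hc : MS t U c) :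
    BallComplete (msTr t U c) := by
  classical
  intro x hx hcau
  set τ := msTr t U c with hτ
  choose N0 hN0 using fun i : ℕ => hcau ((1/2)^i) (by positivity)
  let ψ : ℕ → ℕ := fun i => ∑ l ∈ Finset.range (i+1), N0 l
  have hψmono : ∀ i, ψ i ≤ ψ (i+1) := fun i => by
    show ∑ l ∈ Finset.range (i+1), N0 l ≤ ∑ l ∈ Finset.range (i+1+1), N0 l
    rw [Finset.sum_range_succ _ (i+1)]
    omega
  have hψφ : ∀ i, N0 i ≤ ψ i := fun i => by
    show N0 i ≤ ∑ l ∈ Finset.range (i+1), N0 l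
    rw [Finset.sum_range_succ]
    omega
  let z : ℕ → UAlg t := fun i => x (ψ i)
  have hz : ∀ i, τ.n2 (z (i+1) - z i) < (1/2)^i := fun i =>
    hN0 i _ ((hψφ i).trans (hψmono i)) _ (hψφ i)
  choose K0 hK0 using fun i : ℕ => hc.unif_lt (z (i+1) - z i) ((1/2)^i) (hz i)
  let K : ℕ → ℕ := fun i => ∑ l ∈ Finset.range (i+1), K0 l
  have hKmono : Monotone K := monotone_nat_of_le_succ (fun i => by
    show ∑ l ∈ Finset.range (i+1), K0 l ≤ ∑ l ∈ Finset.range (i+1+1), K0 l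
    rw [Finset.sum_range_succ _ (i+1)]
    omega)
  have hK0K : ∀ i, K0 i ≤ K i := fun i => by
    show K0 i ≤ ∑ l ∈ Finset.range (i+1), K0 l
    rw [Finset.sum_range_succ]
    omega
  have hK : ∀ i y, NF t (K i) y → t.n2 ((z (i+1)).1 y - (z i).1 y) ≤ (1/2)^i := fun i y hy =>
    (hK0 i y (hy.mono (hK0K i))).le
  have hzn : ∀ i y, ‖(z i).1 y‖ ≤ 1 := fun i y => ((z i).1.norm_coe_le_norm y).trans (hx _)
  have hex : ∀ y, ∃ r : R, ‖r‖ ≤ 1 ∧ ∀ i, NF t (K i) y → t.n2 ((z i).1 y - r) ≤ 2 * (1/2)^i := by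
    intro y
    by_cases hall : ∀ i, NF t (K i) y
    · have hch : ∀ i k, t.n2 ((z (i+k)).1 y - (z i).1 y) ≤ 2 * (1/2 : ℝ)^i := fun i k => by
        have h2 := n2_chain t (fun l => (z l).1 y) i k (fun l _ _ => hK l y (hall l))
        refine h2.trans ?_
        have : (0:ℝ) ≤ 2 * (1/2)^(i+k) := by positivity
        linarith
      obtain ⟨r, hr1, hr2⟩ := hv.complete (fun i => (z i).1 y) (fun i => hzn i y) (fun ε hε => by
        obtain ⟨i, hi⟩ : ∃ i : ℕ, (1/2 : ℝ)^i < ε/4 := exists_pow_lt_of_lt_one (by positivity) (by norm_num)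
        refine ⟨i, fun m hm n hn => ?_⟩
        obtain ⟨k, rfl⟩ := Nat.exists_eq_add_of_le hm
        obtain ⟨l, rfl⟩ := Nat.exists_eq_add_of_le hn
        have a1 := hch i k
        have a2 := hch i l
        have a3 := t.n2_sub_tri ((z (i+k)).1 y) ((z i).1 y) ((z (i+l)).1 y)
        rw [t.n2_sub_comm ((z i).1 y)] at a3
        linarith)
      refine ⟨r, hr1, fun i _ => ?_⟩
      have h3 : Tendsto (fun k => t.n2 ((z (k + i)).1 y - r)) atTop (𝓝 0) := hr2.comp (tendsto_add_atTop_nat i)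
      have h4 : Tendsto (fun k => 2 * (1/2 : ℝ)^i + t.n2 ((z (k + i)).1 y - r)) atTop (𝓝 (2 * (1/2 : ℝ)^i)) := by
        simpa using h3.const_add (2 * (1/2 : ℝ)^i)
      refine ge_of_tendsto' h4 (fun k => ?_)
      have a1 := hch i k
      have a2 := t.n2_sub_tri ((z i).1 y) ((z (k + i)).1 y) r
      rw [t.n2_sub_comm, add_comm i k] at a1
      linarith
    · push Not at hall
      let k := Nat.find hall
      have hk : ¬ NF t (K k) y := Nat.find_spec hall
      have hk2 : ∀ l < k, NF t (K l) y := fun l hl => by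
        by_contra h
        exact Nat.find_min hall hl h
      refine ⟨(z k).1 y, hzn k y, fun i hi => ?_⟩
      have hik : i < k := by
        by_contra h
        exact hk (hi.mono (hKmono (not_lt.mp h)))
      obtain ⟨m, hm⟩ := Nat.exists_eq_add_of_le hik.le
      have h2 := n2_chain t (fun l => (z l).1 y) i m (fun l _ hl => hK l y (hk2 l (by omega)))
      rw [t.n2_sub_comm, hm]
      refine h2.trans ?_
      have : (0:ℝ) ≤ 2 * (1/2)^(i+m) := by positivity
      linarith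
  choose r hr1 hr2 using hex
  let T : Tup R →ᵇ R := BoundedContinuousFunction.ofNormedAddCommGroupDiscrete r 1 hr1
  have hT : UA t T := by
    intro ε hε
    obtain ⟨i, hi⟩ : ∃ i : ℕ, (1/2 : ℝ)^i < ε/4 := exists_pow_lt_of_lt_one (by positivity) (by norm_num)
    obtain ⟨d, hd, N, h1⟩ := (z i).2 (ε/2) (by positivity)
    refine ⟨d, hd, max N (K i), fun y hy => ?_⟩
    have a1 := h1 y (hy.mono (le_max_left _ _))
    have a2 := hr2 y i (hy.mono (le_max_right _ _))
    have a3 := t.n2_sub_tri (T y) ((z i).1 y) (d y)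
    rw [t.n2_sub_comm (T y) ((z i).1 y)] at a3
    change t.n2 ((z i).1 y - T y) ≤ _ at a2
    linarith
  have hTn : ‖T‖ ≤ 1 := by
    rw [BoundedContinuousFunction.norm_le zero_le_one]
    exact hr1
  have key : ∀ i, τ.n2 (z i - ⟨T, hT⟩) ≤ 2 * (1/2)^i := fun i => by
    rw [hτ, msTr_n2]
    refine le_of_tendsto (t.tendsto_n2 U _) ?_
    filter_upwards [hc (K i)] with n hn
    exact hr2 (c n) i hn
  refine ⟨⟨T, hT⟩, hTn, ?_⟩
  rw [Metric.tendsto_atTop]
  intro ε hε
  obtain ⟨i, hi⟩ : ∃ i : ℕ, (1/2 : ℝ)^i < ε/3 := exists_pow_lt_of_lt_one (by positivity) (by norm_num)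
  refine ⟨ψ i, fun n hn => ?_⟩
  rw [Real.dist_eq, sub_zero, abs_of_nonneg (τ.n2_nonneg _)]
  have h1 := τ.n2_sub_tri (x n) (z i) ⟨T, hT⟩
  have h2 := hN0 i n ((hψφ i).trans hn) (ψ i) (hψφ i)
  have h3 := key i
  change τ.n2 (x n - z i) < _ at h2
  linarith

/-- the generators inside `UAlg` -/
noncomputable def genU (t : PTr R) (i : Fin 16) : UAlg t :=
  ⟨gen i, UA.of_mem (StarAlgebra.subset_adjoin ℂ _ ⟨i, rfl⟩)⟩

lemma ev_genU (w : List (Fin 16)) : (ev (genU t) w).1 = ev gen w := by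
  induction w with
  | nil => rfl
  | cons i w ih => rw [ev_cons, ev_cons, ← ih]; rfl

lemma ms_free {c : ℕ → Tup R} (hc : MS t U c) :
    FreeInv (msTr t U c) (genU t) where
  sa i := Subtype.ext (gen_sa i)
  sq i := Subtype.ext (gen_sq i)
  tr w := by
    have hsq : ∀ i, genU t i * genU t i = 1 := fun i => Subtype.ext (gen_sq i)
    split_ifs with h
    · rw [← ev_red hsq, h, ev_nil, PTr.tr_one]
    · rw [msTr_tr, ev_genU]
      have h1 := t.tendsto_ultra U (evalSeq c (ev gen w))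
      have h2 : Tendsto (fun n => t.tr (evalSeq c (ev gen w) n)) (U : Filter ℕ) (𝓝 0) := by
        rw [Metric.tendsto_nhds]
        intro ε hε
        obtain ⟨N, hN⟩ := exists_nat_gt (1 / ε)
        filter_upwards [hc (max N w.length)] with n hn
        rw [dist_zero_right, evalSeq_apply, ev_gen]
        refine lt_of_le_of_lt (hn w (le_max_right _ _) h) ?_
        have h3 : (N : ℝ) ≤ (max N w.length : ℕ) := by exact_mod_cast le_max_left _ _
        rw [div_lt_iff₀ hε] at hN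
        rw [div_lt_iff₀ (by positivity)]
        nlinarith
      exact tendsto_nhds_unique h1 h2

/-- every element of `UAlg` is approximable -/
lemma ms_approx {c : ℕ → Tup R} (hc : MS t U c) (T : UAlg t) :
    Approx (msTr t U c) (StarAlgebra.adjoin ℂ (Set.range (genU t))) T := by
  intro ε hε
  obtain ⟨d, hd, N, hN⟩ := T.2 (ε/2) (by positivity)
  have hd2 : ∃ d' ∈ StarAlgebra.adjoin ℂ (Set.range (genU t)), d'.1 = d := by
    have h1 : DA R = (StarAlgebra.adjoin ℂ (Set.range (genU t))).map (UAlg t).subtype := by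
      have h2 : (UAlg t).subtype '' Set.range (genU t) = Set.range gen := by
        rw [← Set.range_comp]; rfl
      rw [StarAlgHom.map_adjoin, h2]
    rw [h1] at hd
    obtain ⟨d', hd', rfl⟩ := hd
    exact ⟨d', hd', rfl⟩
  obtain ⟨d', hd', rfl⟩ := hd2
  refine ⟨d', hd', ?_⟩
  rw [msTr_n2]
  refine lt_of_le_of_lt (b := ε/2) ?_ (by linarith)
  refine le_of_tendsto (t.tendsto_n2 U _) ?_
  filter_upwards [hc N] with n hn
  exact (hN (c n) hn).le

end micro

end Pool.Agent.Helper234.Brown
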