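import Pool.Agent.Helper234.BrownW

open scoped BoundedContinuousFunction ComplexOrder Topology InnerProductSpace
open Filter

namespace Pool.Agent.Helper234.Brown

universe u v w

section abs

variable {A : Type u} [CStarAlgebra A] {τ : PTr A} {D : StarSubalgebra ℂ A} (G : GNSData A τ)

/-- the canonical map to the von Neumann algebra -/
noncomputable def jA (hall : ∀ x, Approx τ D x) : A →⋆ₐ[ℂ] vnClosure D G where
  toFun x := ⟨G.π x, x, rfl, hall x⟩
  map_one' := Subtype.ext (map_one _)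
  map_mul' _ _ := Subtype.ext (map_mul _ _ _)
  map_zero' := Subtype.ext (map_zero _)
  map_add' _ _ := Subtype.ext (map_add _ _ _)
  commutes' r := Subtype.ext (AlgHomClass.commutes G.π r)
  map_star' _ := Subtype.ext (map_star _ _)

lemma jA_surj (hall : ∀ x, Approx τ D x) (T : vnClosure D G) : ∃ x, jA G hall x = T := by
  obtain ⟨_, x, rfl, hx⟩ := T
  exact ⟨x, rfl⟩

lemma jA_lift (hall : ∀ x, Approx τ D x) (T : vnClosure D G) (hT : ‖T‖ ≤ 1) :
    ∃ x, ‖x‖ ≤ 1 ∧ jA G hall x = T := by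
  obtain ⟨_, x, rfl, hx⟩ := T
  obtain ⟨y, hy1, hy2⟩ := G.lift_contraction x hT
  exact ⟨y, hy1, Subtype.ext hy2⟩

variable {R : Type v} [CStarAlgebra R] {t : PTr R} {U : Ultrafilter ℕ}

/-- homomorphisms descend -/
noncomputable def liftHom (D : StarSubalgebra ℂ A) (χ : A →⋆ₐ[ℂ] Ultrapower t U)
    (hχ : ∀ x, un2 t U (χ x) = τ.n2 x) : vnClosure D G →⋆ₐ[ℂ] Ultrapower t U :=
  vnLift D G χ (fun x hx => un2_eq_zero (by rw [hχ, hx]))

lemma liftHom_jA (hall : ∀ x, Approx τ D x) (χ : A →⋆ₐ[ℂ] Ultrapower t U)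
    (hχ : ∀ x, un2 t U (χ x) = τ.n2 x) (x : A) : liftHom G D χ hχ (jA G hall x) = χ x :=
  vnLift_apply _ _ _ _ (jA G hall x) x rfl

variable [hB : Fact (BallComplete τ)]

lemma n2_jA (hall : ∀ x, Approx τ D x) (x : A) : (vnTr D G).n2 (jA G hall x) = τ.n2 x := by
  rw [vnTr_n2]
  show ‖G.π x G.ξ‖ = _
  rw [G.norm_eq]

lemma un2_liftHom (hall : ∀ x, Approx τ D x) (χ : A →⋆ₐ[ℂ] Ultrapower t U)
    (hχ : ∀ x, un2 t U (χ x) = τ.n2 x) (T : vnClosure D G) :
    un2 t U (liftHom G D χ hχ T) = (vnTr D G).n2 T := by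
  obtain ⟨x, rfl⟩ := jA_surj G hall T
  rw [liftHom_jA, n2_jA, hχ]

/-- 2-norm preserving homomorphisms are determined by the generators -/
lemma hom_ext {g : Fin 16 → A} (hD : D = StarAlgebra.adjoin ℂ (Set.range g)) (hall : ∀ x, Approx τ D x)
    (π ρ : vnClosure D G →⋆ₐ[ℂ] Ultrapower t U)
    (hπ : ∀ T, un2 t U (π T) = (vnTr D G).n2 T) (hρ : ∀ T, un2 t U (ρ T) = (vnTr D G).n2 T)
    (h : ∀ i, π (jA G hall (g i)) = ρ (jA G hall (g i))) : π = ρ := by
  have h1 : ∀ d ∈ StarAlgebra.adjoin ℂ (Set.range g), π (jA G hall d) = ρ (jA G hall d) := by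
    intro d hd
    induction hd using StarAlgebra.adjoin_induction with
    | mem d hd => obtain ⟨i, rfl⟩ := hd; exact h i
    | algebraMap r => rw [AlgHomClass.commutes, AlgHomClass.commutes, AlgHomClass.commutes]
    | add x y _ _ h2 h3 => rw [map_add, map_add, map_add, h2, h3]
    | mul x y _ _ h2 h3 => rw [map_mul, map_mul, map_mul, h2, h3]
    | star x _ h2 => rw [map_star, map_star, map_star, h2]
  ext T
  obtain ⟨x, rfl⟩ := jA_surj G hall T
  rw [← sub_eq_zero]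
  apply un2_eq_zero
  apply le_antisymm _ (un2_nonneg _)
  apply le_of_forall_pos_le_add
  intro ε hε
  obtain ⟨d, hd, h2⟩ := hall x (ε/2) (by positivity)
  rw [hD] at hd
  have e : π (jA G hall x) - ρ (jA G hall x) = π (jA G hall (x - d)) - ρ (jA G hall (x - d)) := by
    simp only [map_sub, h1 d hd]
    abel
  rw [e]
  refine (un2_sub_le _ _).trans ?_
  rw [hπ, hρ, n2_jA]
  linarith

end abs

end Pool.Agent.Helper234.Brown
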