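import Pool.Agent.Helper234.BrownX

open scoped BoundedContinuousFunction ComplexOrder Topology InnerProductSpace
open Filter

namespace Pool.Agent.Helper234.Brown

universe u v w

/-- A separable II_1 factor whose elements are functions of microstates. -/
structure MicroAlg {R : Type u} [CStarAlgebra R] (t : PTr R) (U : Ultrafilter ℕ) where
  M : Type u
  [inst : CStarAlgebra M]
  s : PTr M
  factor : IsIIOneFactor s
  sep : IsSep s
  g : Fin 16 → M
  hom : ∀ c : ℕ → Tup R, MS t U c → (M →⋆ₐ[ℂ] Ultrapower t U)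
  un2_hom : ∀ c hc T, un2 t U (hom c hc T) = s.n2 T
  hom_g : ∀ c hc i (x : ℕ →ᵇ R), (∀ n, x n = (c n).y i) → hom c hc (g i) = cls t U x
  ext : ∀ π ρ : M →⋆ₐ[ℂ] Ultrapower t U, (∀ T, un2 t U (π T) = s.n2 T) →
    (∀ T, un2 t U (ρ T) = s.n2 T) → (∀ i, π (g i) = ρ (g i)) → π = ρ
  lift : ∀ T : M, ‖T‖ ≤ 1 → ∃ F : Tup R → R, (∀ y, ‖F y‖ ≤ 1) ∧
    ∀ c hc (x : ℕ →ᵇ R), (∀ n, x n = F (c n)) → hom c hc T = cls t U x

attribute [instance] MicroAlg.inst

/-- abstract construction -/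
lemma microAlg_of {R : Type u} [CStarAlgebra R] {t : PTr R} {U : Ultrafilter ℕ} {A : Type u} [CStarAlgebra A]
    (τ : PTr A) (hB : BallComplete τ) (g : Fin 16 → A) (hg : FreeInv τ g)
    (hall : ∀ x, Approx τ (StarAlgebra.adjoin ℂ (Set.range g)) x)
    (χ : ∀ c : ℕ → Tup R, MS t U c → (A →⋆ₐ[ℂ] Ultrapower t U))
    (hχ : ∀ c hc x, un2 t U (χ c hc x) = τ.n2 x)
    (hχg : ∀ c hc i (x : ℕ →ᵇ R), (∀ n, x n = (c n).y i) → χ c hc (g i) = cls t U x)
    (hlift : ∀ a : A, ‖a‖ ≤ 1 → ∃ F : Tup R → R, (∀ y, ‖F y‖ ≤ 1) ∧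
      ∀ c hc (x : ℕ →ᵇ R), (∀ n, x n = F (c n)) → χ c hc a = cls t U x) : Nonempty (MicroAlg t U) := by
  have hF : Fact (BallComplete τ) := ⟨hB⟩
  obtain ⟨G⟩ := exists_gns τ
  refine ⟨⟨vnClosure (StarAlgebra.adjoin ℂ (Set.range g)) G, vnTr _ G, hg.isIIOne G, hg.isSep G,
    fun i => jA G hall (g i), fun c hc => liftHom G _ (χ c hc) (hχ c hc),
    fun c hc T => un2_liftHom G hall (χ c hc) (hχ c hc) T, ?_, ?_, ?_⟩⟩
  · intro c hc i x hx
    rw [liftHom_jA G hall (χ c hc) (hχ c hc)]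
    exact hχg c hc i x hx
  · intro π ρ h1 h2 h3
    exact hom_ext G rfl hall π ρ h1 h2 h3
  · intro T hT
    obtain ⟨a, ha1, ha2⟩ := jA_lift G hall T hT
    obtain ⟨F, hF1, hF2⟩ := hlift a ha1
    refine ⟨F, hF1, fun c hc x hx => ?_⟩
    rw [← ha2, liftHom_jA G hall (χ c hc) (hχ c hc)]
    exact hF2 c hc x hx

section

variable {R : Type u} [CStarAlgebra R] {t : PTr R} {U : Ultrafilter ℕ}

/-- evaluation homomorphism into the ultrapower -/
noncomputable def msChi (t : PTr R) (U : Ultrafilter ℕ) (c : ℕ → Tup R) : UAlg t →⋆ₐ[ℂ] Ultrapower t U :=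
  (clsA t U).comp ((evalSeq c).comp (UAlg t).subtype)

lemma msChi_apply (c : ℕ → Tup R) (x : UAlg t) : msChi t U c x = cls t U (evalSeq c x.1) := rfl

theorem exists_microAlg (hv : IsVN t) {c₀ : ℕ → Tup R} (h0 : MS t U c₀) : Nonempty (MicroAlg t U) := by
  refine microAlg_of (msTr t U c₀) (ms_ballComplete hv h0) (genU t) (ms_free h0) (ms_approx h0)
    (fun c _ => msChi t U c) ?_ ?_ ?_
  · intro c hc x
    rw [msChi_apply, un2_cls, h0.n2_eq hc]
  · intro c hc i x hx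
    rw [msChi_apply]
    congr 1
    ext n
    exact (hx n).symm
  · intro a ha
    refine ⟨fun y => a.1 y, fun y => (a.1.norm_coe_le_norm y).trans ha, fun c hc x hx => ?_⟩
    rw [msChi_apply]
    congr 1
    ext n
    exact (hx n).symm

end

end Pool.Agent.Helper234.Brown
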