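import Pool.Agent.Helper234.BrownY

open scoped BoundedContinuousFunction ComplexOrder Topology InnerProductSpace
open Filter

namespace Pool.Agent.Helper234.Brown

universe u v w

section mid

variable {R : Type u} [CStarAlgebra R] {t : PTr R} {j : ℕ → (Matrix (Fin 2) (Fin 2) ℂ →⋆ₐ[ℂ] R)} {S : R →⋆ₐ[ℂ] R}
variable (h : IsShift t j S) (hv : IsVN t)

lemma corner_one_add : h.corner hv 0 1 + h.corner hv 1 1 = 1 := by
  show j 0 (mu 0 0) * S 1 + j 0 (mu 1 1) * S 1 = 1
  rw [map_one, mul_one, mul_one, ← map_add, show mu 0 0 + mu 1 1 = 1 by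
      rw [← sum_mu, Fin.sum_univ_two], map_one]

/-- block sum of two elements -/
noncomputable def blk (x y : R) : R := h.corner hv 0 x + h.corner hv 1 y

lemma blk_mul (x y x' y' : R) : blk h hv x y * blk h hv x' y' = blk h hv (x * x') (y * y') := by
  unfold blk
  rw [add_mul, mul_add, mul_add, corner_orth h hv 0 1 (by decide), corner_orth h hv 1 0 (by decide),
    ← map_mul, ← map_mul]
  abel

lemma blk_star (x y : R) : star (blk h hv x y) = blk h hv (star x) (star y) := by
  unfold blk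
  rw [star_add, map_star, map_star]

lemma blk_one : blk h hv 1 1 = 1 := corner_one_add h hv

lemma blk_tr (x y : R) : t.tr (blk h hv x y) = (t.tr x + t.tr y) / 2 := by
  unfold blk
  rw [map_add, corner_tr, corner_tr]
  ring

/-- block sum of tuples -/
noncomputable def midTup (y z : Tup R) : Tup R where
  y i := blk h hv (y.y i) (z.y i)
  sa i := by rw [blk_star, y.sa, z.sa]
  sq i := by rw [blk_mul, y.sq, z.sq, blk_one]

lemma ev_midTup (y z : Tup R) (w : List (Fin 16)) :
    ev (midTup h hv y z).y w = blk h hv (ev y.y w) (ev z.y w) := by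
  induction w with
  | nil => exact (blk_one h hv).symm
  | cons i w ih =>
    rw [ev_cons, ev_cons, ev_cons, ih]
    exact blk_mul h hv _ _ _ _

lemma NF_midTup {N : ℕ} {y z : Tup R} (hy : NF t N y) (hz : NF t N z) : NF t N (midTup h hv y z) := by
  intro w hw hr
  rw [ev_midTup, blk_tr, norm_div]
  have h1 := hy w hw hr
  have h2 := hz w hw hr
  have h3 := norm_add_le (t.tr (ev y.y w)) (t.tr (ev z.y w))
  have h4 : ‖(2 : ℂ)‖ = 2 := by norm_num
  rw [h4, div_le_iff₀ two_pos]
  linarith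

variable {U : Ultrafilter ℕ}

/-- block sum of sequences -/
noncomputable def midSeq (c c' : ℕ → Tup R) : ℕ → Tup R := fun n => midTup h hv (c n) (c' n)

lemma MS.mid {c c' : ℕ → Tup R} (hc : MS t U c) (hc' : MS t U c') : MS t U (midSeq h hv c c') := fun N => by
  filter_upwards [hc N, hc' N] with n h1 h2
  exact NF_midTup h hv h1 h2

/-- bounded sequence of coordinates -/
noncomputable def coordSeq (c : ℕ → Tup R) (i : Fin 16) : ℕ →ᵇ R :=
  BoundedContinuousFunction.ofNormedAddCommGroupDiscrete (fun n => (c n).y i) 1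
    (fun n => norm_le_one_of_sq ((c n).sa i) ((c n).sq i))

lemma hom_mid (P : MicroAlg t U) {c c' : ℕ → Tup R} (hc : MS t U c) (hc' : MS t U c') :
    P.hom _ (hc.mid h hv hc') = midHom h hv U (P.hom c hc) (P.hom c' hc') := by
  apply P.ext
  · exact P.un2_hom _ _
  · intro T
    have h1 := un2_midHom_sq h hv U (P.hom c hc) (P.hom c' hc') T
    rw [P.un2_hom, P.un2_hom, add_halves] at h1
    exact (sq_eq_sq₀ (un2_nonneg _) (PTr.n2_nonneg _ _)).mp h1
  · intro i
    rw [midHom_apply, P.hom_g c hc i (coordSeq c i) (fun _ => rfl),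
      P.hom_g c' hc' i (coordSeq c' i) (fun _ => rfl), cornerU_cls, cornerU_cls, ← map_add]
    exact P.hom_g _ _ i _ (fun _ => rfl)

end mid

section dist

variable {R : Type u} [CStarAlgebra R] {t : PTr R} {U : Ultrafilter ℕ}

/-- finite level distance at a unitary -/
noncomputable def distV (t : PTr R) (F : ℕ → Tup R → R) (y y' : Tup R) (v : R) : ℝ :=
  Real.sqrt (∑' l : ℕ, (1 / 4 : ℝ) ^ (l + 1) * t.n1 (F l y - v * F l y' * star v) ^ 2)

/-- finite level distance -/
noncomputable def distF (t : PTr R) (F : ℕ → Tup R → R) (y y' : Tup R) : ℝ :=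
  ⨅ v : unitary R, distV t F y y' v

/-- ultrapower distance at a unitary -/
noncomputable def distAt1 {M : Type v} [CStarAlgebra M] (a : ℕ → M) (π ρ : M →⋆ₐ[ℂ] Ultrapower t U)
    (X : Ultrapower t U) : ℝ :=
  Real.sqrt (∑' n : ℕ, (1 / 4 : ℝ) ^ (n + 1) * un1 t U (π (a n) - X * ρ (a n) * star X) ^ 2)

lemma n1_diff_le {x y v : R} (hx : ‖x‖ ≤ 1) (hy : ‖y‖ ≤ 1) (hvn : ‖v‖ ≤ 1) :
    t.n1 (x - v * y * star v) ≤ 2 := by
  refine (t.n1_le_n2 _).trans ((t.n2_le_norm _).trans ?_)
  refine (norm_sub_le _ _).trans ?_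
  have h1 : ‖v * y * star v‖ ≤ 1 := by
    calc ‖v * y * star v‖ ≤ ‖v * y‖ * ‖star v‖ := norm_mul_le _ _
      _ ≤ (‖v‖ * ‖y‖) * ‖v‖ := by rw [norm_star]; gcongr; exact norm_mul_le _ _
      _ ≤ (1 * 1) * 1 := by gcongr
      _ = 1 := by norm_num
  linarith

variable (P : MicroAlg t U) {a : ℕ → P.M} {F : ℕ → Tup R → R}

lemma tendsto_distV (hU : (U : Filter ℕ) ≤ cofinite) (hF : ∀ l y, ‖F l y‖ ≤ 1)
    (hFa : ∀ l, ∀ c hc (x : ℕ →ᵇ R), (∀ n, x n = F l (c n)) → P.hom c hc (a l) = cls t U x)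
    {c c' : ℕ → Tup R} (hc : MS t U c) (hc' : MS t U c') (W : ℕ →ᵇ R) (hW : ∀ n, W n ∈ unitary R) :
    Tendsto (fun n => distV t F (c n) (c' n) (W n)) (U : Filter ℕ)
      (𝓝 (distAt1 a (P.hom c hc) (P.hom c' hc') (cls t U W))) := by
  unfold distV distAt1
  refine (Real.continuous_sqrt.tendsto _).comp ?_
  have hWn : ∀ n, ‖W n‖ ≤ 1 := fun n => norm_unitary_le (hW n)
  refine tendsto_tsum_of_dominated_convergence (bound := fun l => (1/4 : ℝ) ^ (l+1) * 2 ^ 2)
    (summable_w.mul_right _) ?_ ?_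
  · intro l
    let x : ℕ →ᵇ R := BoundedContinuousFunction.ofNormedAddCommGroupDiscrete (fun n => F l (c n)) 1
      (fun n => hF l _)
    let x' : ℕ →ᵇ R := BoundedContinuousFunction.ofNormedAddCommGroupDiscrete (fun n => F l (c' n)) 1
      (fun n => hF l _)
    rw [hFa l c hc x (fun _ => rfl), hFa l c' hc' x' (fun _ => rfl), star_cls, ← map_mul, ← map_mul,
      ← map_sub, un1_cls]
    exact ((tendsto_n1 t U hU (x - W * x' * star W)).pow 2).const_mul _
  · refine Eventually.of_forall (fun n l => ?_)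
    have h0 := t.n1_nonneg (F l (c n) - W n * F l (c' n) * star (W n))
    have h1 : t.n1 (F l (c n) - W n * F l (c' n) * star (W n)) ≤ 2 := n1_diff_le (hF l _) (hF l _) (hWn n)
    rw [Real.norm_of_nonneg (by positivity)]
    gcongr

lemma distF_le (y y' : Tup R) {v : R} (hv : v ∈ unitary R) : distF t F y y' ≤ distV t F y y' v := by
  refine ciInf_le ⟨0, ?_⟩ (⟨v, hv⟩ : unitary R)
  rintro _ ⟨v, rfl⟩
  exact Real.sqrt_nonneg _

lemma exists_distV_lt (y y' : Tup R) (r : ℝ) (hr : distF t F y y' < r) :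
    ∃ v ∈ unitary R, distV t F y y' v < r := by
  obtain ⟨v, hv⟩ := exists_lt_of_ciInf_lt hr
  exact ⟨v, v.2, hv⟩

/-- the distance formula -/
theorem tendsto_distF (hU : (U : Filter ℕ) ≤ cofinite) (hF : ∀ l y, ‖F l y‖ ≤ 1)
    (hFa : ∀ l, ∀ c hc (x : ℕ →ᵇ R), (∀ n, x n = F l (c n)) → P.hom c hc (a l) = cls t U x)
    {c c' : ℕ → Tup R} (hc : MS t U c) (hc' : MS t U c') :
    Tendsto (fun n => distF t F (c n) (c' n)) (U : Filter ℕ)
      (𝓝 (brownDist1 t U a (P.hom c hc) (P.hom c' hc'))) := by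
  set D := brownDist1 t U a (P.hom c hc) (P.hom c' hc') with hD
  have hDle : ∀ X : Ultrapower t U, X ∈ unitary (Ultrapower t U) → D ≤ distAt1 a (P.hom c hc) (P.hom c' hc') X := by
    intro X hX
    refine ciInf_le ⟨0, ?_⟩ (⟨X, hX⟩ : unitary (Ultrapower t U))
    rintro _ ⟨v, rfl⟩
    exact Real.sqrt_nonneg _
  rw [Metric.tendsto_nhds]
  intro ε hε
  have hup : ∀ᶠ n in (U : Filter ℕ), distF t F (c n) (c' n) < D + ε := by
    obtain ⟨X, hX⟩ := exists_lt_of_ciInf_lt (show brownDist1 t U a (P.hom c hc) (P.hom c' hc') < D + ε by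
      rw [← hD]; linarith)
    obtain ⟨W, hW1, hW2, hW3⟩ := exists_unitary_lift hU (X : Ultrapower t U) X.2.1
    have h1 := tendsto_distV P hU hF hFa hc hc' W hW2
    rw [hW3] at h1
    filter_upwards [h1.eventually_lt_const hX] with n hn
    exact lt_of_le_of_lt (distF_le _ _ (hW2 n)) hn
  have hlow : ∀ᶠ n in (U : Filter ℕ), D - ε < distF t F (c n) (c' n) := by
    by_contra hcon
    have hcon2 : ∀ᶠ n in (U : Filter ℕ), ¬ (D - ε < distF t F (c n) (c' n)) :=
      Ultrafilter.eventually_not.mpr hcon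
    choose W hW1 hW2 using fun n : ℕ => exists_distV_lt (t := t) (F := F) (c n) (c' n)
      (distF t F (c n) (c' n) + ε / 2) (by linarith)
    let W' : ℕ →ᵇ R := BoundedContinuousFunction.ofNormedAddCommGroupDiscrete W 1
      (fun n => norm_unitary_le (hW1 n))
    have h1 := tendsto_distV P hU hF hFa hc hc' W' hW1
    have hWu : cls t U W' ∈ unitary (Ultrapower t U) := by
      constructor
      · rw [star_cls, ← map_mul, ← map_one (cls t U)]
        congr 1
        ext n
        exact (hW1 n).1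
      · rw [star_cls, ← map_mul, ← map_one (cls t U)]
        congr 1
        ext n
        exact (hW1 n).2
    have h2 := hDle _ hWu
    have h3 : distAt1 a (P.hom c hc) (P.hom c' hc') (cls t U W') ≤ D - ε / 2 := by
      refine le_of_tendsto h1 ?_
      filter_upwards [hcon2] with n hn
      have := hW2 n
      change distV t F (c n) (c' n) (W n) ≤ _
      linarith
    linarith
  filter_upwards [hup, hlow] with n h1 h2
  rw [Real.dist_eq, abs_lt]
  constructor <;> linarith

end dist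

end Pool.Agent.Helper234.Brown
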