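import Pool.Agent.Helper234.BrownZ

open scoped BoundedContinuousFunction ComplexOrder Topology InnerProductSpace
open Filter

namespace Pool.Agent.Helper234.Brown

universe u v w

lemma exists_diag {U : Ultrafilter ℕ} (hU : (U : Filter ℕ) ≤ cofinite) (E : ℕ → Set ℕ)
    (hE : ∀ k, ∀ᶠ n in (U : Filter ℕ), n ∈ E k) :
    ∃ κ : ℕ → ℕ, (∀ᶠ n in (U : Filter ℕ), n ∈ E (κ n)) ∧ ∀ i, ∀ᶠ n in (U : Filter ℕ), i ≤ κ n := by
  classical
  refine ⟨fun n => Nat.findGreatest (fun k => n ∈ E k) n, ?_, ?_⟩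
  · filter_upwards [hE 0] with n hn
    exact Nat.findGreatest_spec (P := fun k => n ∈ E k) (m := 0) (Nat.zero_le _) hn
  · intro i
    have h1 : ∀ᶠ n in (U : Filter ℕ), i ≤ n := by
      apply hU
      rw [Nat.cofinite_eq_atTop]
      exact eventually_ge_atTop i
    filter_upwards [hE i, h1] with n hn hin
    exact Nat.le_findGreatest hin hn

section

variable {R : Type u} [CStarAlgebra R] {t : PTr R} {U : Ultrafilter ℕ}
variable {j : ℕ → (Matrix (Fin 2) (Fin 2) ℂ →⋆ₐ[ℂ] R)} {S : R →⋆ₐ[ℂ] R}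

/-- saturation: approximate configurations give exact ones -/
theorem saturation (h : IsShift t j S) (hv : IsVN t) (hU : (U : Filter ℕ) ≤ cofinite)
    (P : MicroAlg t U) {a : ℕ → P.M} {F : ℕ → Tup R → R} (hF : ∀ l y, ‖F l y‖ ≤ 1)
    (hFa : ∀ l, ∀ c hc (x : ℕ →ᵇ R), (∀ n, x n = F l (c n)) → P.hom c hc (a l) = cls t U x)
    (x₀ : ℕ → Tup R) (h0 : MS t U x₀) (L N : ℕ → ℕ → Tup R) (hL : ∀ k, MS t U (L k))
    (hN : ∀ k, MS t U (N k)) (ε₀ : ℝ)
    (h1 : ∀ k, brownDist1 t U a (P.hom x₀ h0) (P.hom (L k) (hL k)) - 1 / ((k : ℝ) + 1) ≤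
      brownDist1 t U a (P.hom x₀ h0) (P.hom _ ((hL k).mid h hv (hN k))))
    (h2 : ∀ k, brownDist1 t U a (P.hom x₀ h0) (P.hom (N k) (hN k)) - 1 / ((k : ℝ) + 1) ≤
      brownDist1 t U a (P.hom x₀ h0) (P.hom _ ((hL k).mid h hv (hN k))))
    (h3 : ∀ k, ε₀ ≤ brownDist1 t U a (P.hom (L k) (hL k)) (P.hom (N k) (hN k))) :
    ∃ (L' N' : ℕ → Tup R) (hL' : MS t U L') (hN' : MS t U N'),
      brownDist1 t U a (P.hom x₀ h0) (P.hom L' hL') ≤
        brownDist1 t U a (P.hom x₀ h0) (P.hom _ (hL'.mid h hv hN')) ∧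
      brownDist1 t U a (P.hom x₀ h0) (P.hom N' hN') ≤
        brownDist1 t U a (P.hom x₀ h0) (P.hom _ (hL'.mid h hv hN')) ∧
      ε₀ ≤ brownDist1 t U a (P.hom L' hL') (P.hom N' hN') := by
  have key : ∀ (c c' : ℕ → Tup R) (hc : MS t U c) (hc' : MS t U c') (r : ℝ), 0 < r →
      ∀ᶠ n in (U : Filter ℕ), |distF t F (c n) (c' n) -
        brownDist1 t U a (P.hom c hc) (P.hom c' hc')| < r := fun c c' hc hc' r hr => by
    have := tendsto_distF P hU hF hFa hc hc'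
    rw [Metric.tendsto_nhds] at this
    exact this r hr
  have hpos : ∀ k : ℕ, 0 < 1 / ((k : ℝ) + 1) := fun k => by positivity
  let E : ℕ → Set ℕ := fun k => {n | NF t k (L k n) ∧ NF t k (N k n) ∧
    |distF t F (x₀ n) (L k n) - brownDist1 t U a (P.hom x₀ h0) (P.hom (L k) (hL k))| < 1 / ((k : ℝ) + 1) ∧
    |distF t F (x₀ n) (N k n) - brownDist1 t U a (P.hom x₀ h0) (P.hom (N k) (hN k))| < 1 / ((k : ℝ) + 1) ∧
    |distF t F (x₀ n) (midSeq h hv (L k) (N k) n) -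
      brownDist1 t U a (P.hom x₀ h0) (P.hom _ ((hL k).mid h hv (hN k)))| < 1 / ((k : ℝ) + 1) ∧
    |distF t F (L k n) (N k n) - brownDist1 t U a (P.hom (L k) (hL k)) (P.hom (N k) (hN k))| <
      1 / ((k : ℝ) + 1)}
  have hE : ∀ k, ∀ᶠ n in (U : Filter ℕ), n ∈ E k := fun k => by
    filter_upwards [hL k k, hN k k, key _ _ h0 (hL k) _ (hpos k), key _ _ h0 (hN k) _ (hpos k),
      key _ _ h0 ((hL k).mid h hv (hN k)) _ (hpos k), key _ _ (hL k) (hN k) _ (hpos k)] with n a1 a2 a3 a4 a5 a6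
    exact ⟨a1, a2, a3, a4, a5, a6⟩
  obtain ⟨κ, hκ1, hκ2⟩ := exists_diag hU E hE
  have hL' : MS t U (fun n => L (κ n) n) := fun M => by
    filter_upwards [hκ1, hκ2 M] with n a1 a2
    exact a1.1.mono a2
  have hN' : MS t U (fun n => N (κ n) n) := fun M => by
    filter_upwards [hκ1, hκ2 M] with n a1 a2
    exact a1.2.1.mono a2
  have hsmall : ∀ r : ℝ, 0 < r → ∀ᶠ n in (U : Filter ℕ), 1 / ((κ n : ℝ) + 1) < r := fun r hr => by
    obtain ⟨M, hM⟩ := exists_nat_gt (1 / r)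
    filter_upwards [hκ2 M] with n hn
    have h4 : (M : ℝ) ≤ κ n := by exact_mod_cast hn
    rw [div_lt_iff₀ hr] at hM
    rw [div_lt_iff₀ (by positivity)]
    nlinarith
  refine ⟨fun n => L (κ n) n, fun n => N (κ n) n, hL', hN', ?_, ?_, ?_⟩
  · apply le_of_forall_pos_le_add
    intro r hr
    obtain ⟨n, a1, a2, a3, a4⟩ := (hκ1.and ((hsmall (r/6) (by positivity)).and
      ((key _ _ h0 hL' (r/6) (by positivity)).and
        (key _ _ h0 (hL'.mid h hv hN') (r/6) (by positivity))))).exists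
    obtain ⟨-, -, b1, b2, b3, b4⟩ := a1
    have c1 := h1 (κ n)
    rw [abs_lt] at a3 a4 b1 b3
    have e : distF t F (x₀ n) (midSeq h hv (L (κ n)) (N (κ n)) n) =
      distF t F (x₀ n) (midSeq h hv (fun n => L (κ n) n) (fun n => N (κ n) n) n) := rfl
    rw [e] at b3
    linarith [a3.1, a3.2, a4.1, a4.2, b1.1, b1.2, b3.1, b3.2]
  · apply le_of_forall_pos_le_add
    intro r hr
    obtain ⟨n, a1, a2, a3, a4⟩ := (hκ1.and ((hsmall (r/6) (by positivity)).and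
      ((key _ _ h0 hN' (r/6) (by positivity)).and
        (key _ _ h0 (hL'.mid h hv hN') (r/6) (by positivity))))).exists
    obtain ⟨-, -, b1, b2, b3, b4⟩ := a1
    have c1 := h2 (κ n)
    rw [abs_lt] at a3 a4 b2 b3
    have e : distF t F (x₀ n) (midSeq h hv (L (κ n)) (N (κ n)) n) =
      distF t F (x₀ n) (midSeq h hv (fun n => L (κ n) n) (fun n => N (κ n) n) n) := rfl
    rw [e] at b3
    linarith [a3.1, a3.2, a4.1, a4.2, b2.1, b2.2, b3.1, b3.2]
  · apply le_of_forall_pos_le_add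
    intro r hr
    obtain ⟨n, a1, a2, a3⟩ := (hκ1.and ((hsmall (r/6) (by positivity)).and
      (key _ _ hL' hN' (r/6) (by positivity)))).exists
    obtain ⟨-, -, b1, b2, b3, b4⟩ := a1
    have c1 := h3 (κ n)
    rw [abs_lt] at a3 b4
    linarith [a3.1, a3.2, b4.1, b4.2]

end

end Pool.Agent.Helper234.Brown
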