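import Pool.Agent.Helper234.BrownZA

open scoped BoundedContinuousFunction ComplexOrder Topology InnerProductSpace
open Filter

namespace Pool.Agent.Helper234.Brown

universe u v w

section finite

variable {R : Type u} [CStarAlgebra R] {t : PTr R}

lemma IsMU.map {X : Type} [Fintype X] [DecidableEq X] {e : X → X → R} (h : IsMU e) (θ : R →⋆ₐ[ℂ] R) :
    IsMU (fun p q => θ (e p q)) where
  mul_eq p q r s := by
    rw [← map_mul, h.mul_eq]
    split_ifs <;> simp
  star_eq p q := by rw [← map_star, h.star_eq]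
  sum_eq := by rw [← map_sum, h.sum_eq, map_one]

lemma IsMU.map_perm {X : Type} [Fintype X] [DecidableEq X] {e : X → X → R} (h : IsMU e) (θ : R →⋆ₐ[ℂ] R)
    (σ : Equiv.Perm X) : θ (h.perm σ) = (h.map θ).perm σ := by
  unfold IsMU.perm
  rw [map_sum]

lemma avgOp_n2_le (A B : Fin 16 → R) (hA : ∀ i, A i * A i = 1) (hAs : ∀ i, star (A i) = A i)
    (hB : ∀ i, B i * B i = 1) (hBs : ∀ i, star (B i) = B i) (x : R) :
    t.n2 (avgOp A B x) ≤ 16 * t.n2 x := by
  have gen : ∀ s : Finset (Fin 16), t.n2 (∑ i ∈ s, A i * x * B i) ≤ ∑ _i ∈ s, t.n2 x := by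
    intro s
    classical
    induction s using Finset.induction_on with
    | empty => simp
    | insert i s hi ih =>
      rw [Finset.sum_insert hi, Finset.sum_insert hi]
      refine (t.n2_add_le _ _).trans (add_le_add ?_ ih)
      rw [t.n2_mul_unitary (by rw [hBs, hB]), t.n2_unitary_mul (by rw [hAs, hA])]
  have h1 := gen Finset.univ
  rw [Finset.sum_const, Finset.card_univ, Fintype.card_fin, nsmul_eq_mul] at h1
  exact_mod_cast h1

/-- the level for each integer -/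
structure Levels (t : PTr R) where
  q : ℕ → ℕ
  E : ∀ k, Level t (q k) ((1/2) ^ (q k))
  m : ℕ → ℕ
  hm : ∀ k : ℕ, ((k : ℝ) + 1) * (Fintype.card (E k).X : ℝ) ^ 4 < (9 / 8) ^ m k
  hq : ∀ k k', k < k' → 2 * m k ≤ q k'
  hqk : ∀ k, k ≤ q k

lemma exists_levels (j : ℕ → (Matrix (Fin 2) (Fin 2) ℂ →⋆ₐ[ℂ] R))
    (hj : ∀ k l, k ≠ l → ∀ x y, j k x * j l y = j l y * j k x) : Nonempty (Levels t) := by
  have h1 : ∀ q : ℕ, Nonempty (Level t q ((1/2) ^ q)) := fun q =>
    exists_level j hj q _ (by positivity)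
  let lev := fun q => Classical.choice (h1 q)
  have h2 : ∀ k q : ℕ, ∃ m : ℕ, ((k : ℝ) + 1) * (Fintype.card (lev q).X : ℝ) ^ 4 < (9 / 8) ^ m := fun k q =>
    pow_unbounded_of_one_lt _ (by norm_num)
  choose m hm using h2
  let q : ℕ → ℕ := fun k => Nat.rec 0 (fun k r => r + 2 * m k r + 1) k
  have hq0 : ∀ k, q (k+1) = q k + 2 * m k (q k) + 1 := fun k => rfl
  have hmono : Monotone q := monotone_nat_of_le_succ (fun k => by rw [hq0]; omega)
  refine ⟨⟨q, fun k => lev (q k), fun k => m k (q k), fun k => hm k (q k), ?_, ?_⟩⟩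
  · intro k k' hk
    have h3 : q (k+1) ≤ q k' := hmono hk
    rw [hq0] at h3
    omega
  · intro k
    induction k with
    | zero => exact Nat.zero_le _
    | succ k ih => rw [hq0]; omega

namespace Levels

variable (Λ : Levels t)

/-- the tuple of a level -/
noncomputable def tup (k : ℕ) : Tup R where
  y i := (Λ.E k).mu.perm ((Λ.E k).σ i)
  sa i := (Λ.E k).perm_sa i
  sq i := (Λ.E k).perm_sq i

lemma nf (k : ℕ) : NF t k (Λ.tup k) := by
  intro w hw hr
  refine ((Λ.E k).small w (hw.trans (Λ.hqk k)) hr).trans ?_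
  have h1 : (k : ℝ) ≤ Λ.q k := by exact_mod_cast Λ.hqk k
  have h2 : ((Λ.q k : ℝ) + 1) ≤ 2 ^ (Λ.q k) := by
    exact_mod_cast Nat.lt_two_pow_self
  rw [div_pow, one_pow]
  have h3 : (k : ℝ) + 1 ≤ 2 ^ Λ.q k := by linarith
  exact one_div_le_one_div_of_le (by positivity) h3

lemma gap_lt (k k' : ℕ) (hk : k < k') (θ θ' : R →⋆ₐ[ℂ] R) (x : R) (C : ℝ) (hC : ‖x‖ ≤ C) :
    t.n2 (avgOp (fun i => θ ((Λ.tup k).y i)) (fun i => θ' ((Λ.tup k').y i)) x) ^ 2 ≤
      144 * t.n2 x ^ 2 + 512 * C ^ 2 / ((k : ℝ) + 1) := by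
  set A : Fin 16 → R := fun i => θ ((Λ.tup k).y i) with hA
  set B : Fin 16 → R := fun i => θ' ((Λ.tup k').y i) with hB
  have hA1 : ∀ i, A i * A i = 1 := fun i => by rw [hA]; simp only [← map_mul, (Λ.tup k).sq, map_one]
  have hA2 : ∀ i, star (A i) = A i := fun i => by rw [hA]; simp only [← map_star, (Λ.tup k).sa]
  have hB1 : ∀ i, B i * B i = 1 := fun i => by rw [hB]; simp only [← map_mul, (Λ.tup k').sq, map_one]
  have hB2 : ∀ i, star (B i) = B i := fun i => by rw [hB]; simp only [← map_star, (Λ.tup k').sa]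
  have hC0 : 0 ≤ C := (norm_nonneg x).trans hC
  have hx0 := t.n2_nonneg x
  have hAeq : A = fun i => ((Λ.E k).mu.map θ).perm ((Λ.E k).σ i) := by
    ext i; exact (Λ.E k).mu.map_perm θ _
  have hBeq : B = fun i => ((Λ.E k').mu.map θ').perm ((Λ.E k').σ i) := by
    ext i; exact (Λ.E k').mu.map_perm θ' _
  by_cases hcase : 12 * t.n2 x ≤ t.n2 (avgOp A B x) ∧ 0 < t.n2 x
  · obtain ⟨h1, h2⟩ := hcase
    set m := Λ.m k with hm
    set N : ℝ := (Fintype.card (Λ.E k).X : ℝ) with hN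
    have h4 := avgOp_growth' t A B hA2 hB2 x h1 h2 m
    have htr : ∀ w : List (Fin 16), w.length ≤ 2 * m → red w ≠ [] → ‖t.tr (ev B w)‖ ≤ (1/2) ^ m := by
      intro w hw hr
      have h5 : t.tr (ev B w) = t.tr (ev (fun i => (Λ.E k').mu.perm ((Λ.E k').σ i)) w) := by
        rw [hBeq, IsMU.ev_perm, IsMU.tr_perm, IsMU.ev_perm, IsMU.tr_perm]
      rw [h5]
      have h6 := Λ.hq k k' hk
      refine ((Λ.E k').small w (hw.trans h6) hr).trans ?_
      exact pow_le_pow_of_le_one (by norm_num) (by norm_num) (by omega)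
    have h5 := avgOp_upper t ((Λ.E k).mu.map θ) (Λ.E k).σ B hB2 hB1 m ((1/2) ^ m) (by positivity)
      (by rw [← mul_pow]; norm_num) htr x
    rw [← hAeq] at h5
    have h6 := Λ.hm k
    have hNpos : 0 < N := by
      by_contra hneg
      have hN0 : N = 0 := le_antisymm (not_lt.mp hneg) (by positivity)
      have h7 : t.n2 ((avgOp A B)^[m] x) ^ 2 ≤ 0 := by
        refine h5.trans ?_
        rw [← hN, hN0]; simp
      have h8 : 0 < 12 ^ m * t.n2 x := by positivity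
      have h9 : t.n2 ((avgOp A B)^[m] x) = 0 := by nlinarith [t.n2_nonneg ((avgOp A B)^[m] x)]
      linarith
    have h7 : 0 < N ^ 4 := by positivity
    have h8 : (12 ^ m * t.n2 x) ^ 2 ≤ 2 * ‖x‖ ^ 2 * N ^ 4 * 128 ^ m := by
      refine le_trans ?_ h5
      gcongr
    have h9 : (12 ^ m * t.n2 x) ^ 2 = 144 ^ m * t.n2 x ^ 2 := by
      rw [mul_pow, ← pow_mul, mul_comm m 2, pow_mul]; norm_num
    have h10 : (144 : ℝ) ^ m = (9/8) ^ m * 128 ^ m := by rw [← mul_pow]; norm_num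
    rw [h9, h10] at h8
    have h11 : (0 : ℝ) < 128 ^ m := by positivity
    have h12 : (9/8) ^ m * t.n2 x ^ 2 ≤ 2 * ‖x‖ ^ 2 * N ^ 4 := by
      have : (9/8 : ℝ) ^ m * t.n2 x ^ 2 * 128 ^ m ≤ 2 * ‖x‖ ^ 2 * N ^ 4 * 128 ^ m := by linarith
      exact le_of_mul_le_mul_right this h11
    have h13 : ((k : ℝ) + 1) * N ^ 4 * t.n2 x ^ 2 ≤ 2 * C ^ 2 * N ^ 4 := by
      calc ((k : ℝ) + 1) * N ^ 4 * t.n2 x ^ 2 ≤ (9/8) ^ m * t.n2 x ^ 2 :=
            mul_le_mul_of_nonneg_right h6.le (sq_nonneg _)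
        _ ≤ 2 * ‖x‖ ^ 2 * N ^ 4 := h12
        _ ≤ 2 * C ^ 2 * N ^ 4 := by gcongr
    have h14 : t.n2 x ^ 2 * ((k : ℝ) + 1) ≤ 2 * C ^ 2 := by
      have : t.n2 x ^ 2 * ((k : ℝ) + 1) * N ^ 4 ≤ 2 * C ^ 2 * N ^ 4 := by linarith
      exact le_of_mul_le_mul_right this h7
    have h15 := avgOp_n2_le (t := t) A B hA1 hA2 hB1 hB2 x
    have h16 : t.n2 (avgOp A B x) ^ 2 ≤ 256 * t.n2 x ^ 2 := by
      have := t.n2_nonneg (avgOp A B x)
      nlinarith
    have h17 : 256 * t.n2 x ^ 2 ≤ 512 * C ^ 2 / ((k : ℝ) + 1) := by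
      rw [le_div_iff₀ (by positivity)]
      linarith
    have h18 := sq_nonneg (t.n2 x)
    linarith
  · have h1 : t.n2 (avgOp A B x) ≤ 12 * t.n2 x := by
      by_contra hneg
      push Not at hneg hcase
      have h2 := hcase hneg.le
      have h3 : t.n2 x = 0 := le_antisymm h2 hx0
      have h15 := avgOp_n2_le (t := t) A B hA1 hA2 hB1 hB2 x
      rw [h3] at h15 hneg
      linarith
    have h2 := t.n2_nonneg (avgOp A B x)
    have h3 : t.n2 (avgOp A B x) ^ 2 ≤ 144 * t.n2 x ^ 2 := by nlinarith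
    have h4 : 0 ≤ 512 * C ^ 2 / ((k : ℝ) + 1) := by positivity
    linarith

end Levels

end finite

section gap

variable {R : Type u} [CStarAlgebra R] (t : PTr R) (U : Ultrafilter ℕ)

/-- asymptotic gap property of two sequences of tuples -/
def EGap (c c' : ℕ → Tup R) : Prop :=
  ∀ (θ θ' : R →⋆ₐ[ℂ] R) (C : ℝ) (ε : ℝ), 0 < ε → ∀ᶠ n in (U : Filter ℕ), ∀ x : R, ‖x‖ ≤ C →
    t.n2 (avgOp (fun i => θ ((c n).y i)) (fun i => θ' ((c' n).y i)) x) ^ 2 ≤ 144 * t.n2 x ^ 2 + ε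

variable {t U}

lemma avgOp_star (A B : Fin 16 → R) (hA : ∀ i, star (A i) = A i) (hB : ∀ i, star (B i) = B i) (x : R) :
    star (avgOp A B x) = avgOp B A (star x) := by
  unfold avgOp
  rw [star_sum]
  refine Finset.sum_congr rfl fun i _ => ?_
  rw [star_mul, star_mul, hA, hB, mul_assoc]

lemma EGap.symm {c c' : ℕ → Tup R} (h : EGap t U c c') : EGap t U c' c := by
  intro θ θ' C ε hε
  filter_upwards [h θ' θ C ε hε] with n hn x hx
  have h1 := hn (star x) (by rwa [norm_star])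
  rw [← avgOp_star _ _ (fun i => by rw [← map_star, (c' n).sa]) (fun i => by rw [← map_star, (c n).sa]),
    t.n2_star, t.n2_star] at h1
  exact h1

/-- leaves -/
noncomputable def leaf (Λ : Levels t) (i : ℕ) : ℕ → Tup R := fun n => Λ.tup (n + i)

lemma leaf_ms (hU : (U : Filter ℕ) ≤ cofinite) (Λ : Levels t) (i : ℕ) : MS t U (leaf Λ i) := fun N => by
  have h1 : ∀ᶠ n in (U : Filter ℕ), N ≤ n := by
    apply hU
    rw [Nat.cofinite_eq_atTop]
    exact eventually_ge_atTop N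
  filter_upwards [h1] with n hn
  exact (Λ.nf (n + i)).mono (by omega)

lemma leaf_gap_lt (hU : (U : Filter ℕ) ≤ cofinite) (Λ : Levels t) (i i' : ℕ) (hi : i < i') :
    EGap t U (leaf Λ i) (leaf Λ i') := by
  intro θ θ' C ε hε
  obtain ⟨N, hN⟩ := exists_nat_gt (512 * C ^ 2 / ε)
  have h1 : ∀ᶠ n in (U : Filter ℕ), N ≤ n := by
    apply hU
    rw [Nat.cofinite_eq_atTop]
    exact eventually_ge_atTop N
  filter_upwards [h1] with n hn x hx
  refine (Λ.gap_lt (n + i) (n + i') (by omega) θ θ' x C hx).trans ?_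
  have h2 : (N : ℝ) ≤ ((n + i : ℕ) : ℝ) := by exact_mod_cast (by omega : N ≤ n + i)
  rw [div_lt_iff₀ hε] at hN
  have h3 : 512 * C ^ 2 / (((n + i : ℕ) : ℝ) + 1) ≤ ε := by
    rw [div_le_iff₀ (by positivity)]
    nlinarith
  linarith

lemma leaf_gap (hU : (U : Filter ℕ) ≤ cofinite) (Λ : Levels t) (i i' : ℕ) (hi : i ≠ i') :
    EGap t U (leaf Λ i) (leaf Λ i') := by
  rcases lt_or_gt_of_ne hi with h | h
  · exact leaf_gap_lt hU Λ i i' h
  · exact (leaf_gap_lt hU Λ i' i h).symm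

variable {j : ℕ → (Matrix (Fin 2) (Fin 2) ℂ →⋆ₐ[ℂ] R)} {S : R →⋆ₐ[ℂ] R}

lemma n2_orth_sq (x y : R) (h : star x * y = 0) : t.n2 (x + y) ^ 2 = t.n2 x ^ 2 + t.n2 y ^ 2 := by
  rw [t.n2_sq, t.n2_sq, t.n2_sq, star_add, add_mul, mul_add, mul_add, h]
  have h2 : star y * x = 0 := by
    have := congrArg star h
    rwa [star_mul, star_star, star_zero] at this
  rw [h2]
  simp

lemma EGap.mid_left (h : IsShift t j S) (hv : IsVN t) {c₁ c₂ c' : ℕ → Tup R} (h1 : EGap t U c₁ c')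
    (h2 : EGap t U c₂ c') : EGap t U (midSeq h hv c₁ c₂) c' := by
  intro θ θ' C ε hε
  filter_upwards [h1 (θ.comp S) θ' C (ε/2) (by positivity), h2 (θ.comp S) θ' C (ε/2) (by positivity)]
    with n a1 a2 x hx
  set e := θ (j 0 (mu 0 0)) with he
  set f := θ (j 0 (mu 1 1)) with hf
  have hee : e * e = e := by rw [he, ← map_mul, ← map_mul, mu_mul, if_pos rfl]
  have hff : f * f = f := by rw [hf, ← map_mul, ← map_mul, mu_mul, if_pos rfl]
  have hef : e * f = 0 := by rw [he, hf, ← map_mul, ← map_mul, mu_mul, if_neg (by decide)]; simp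
  have hsum : e + f = 1 := by
    rw [he, hf, ← map_add, ← map_add, show mu 0 0 + mu 1 1 = 1 by
      rw [← sum_mu, Fin.sum_univ_two], map_one, map_one]
  have hes : star e = e := by rw [he, ← map_star, ← map_star, star_mu]
  have hfs : star f = f := by rw [hf, ← map_star, ← map_star, star_mu]
  have hen : ‖e‖ ≤ 1 := (show IsStarProjection e from ⟨hee, hes⟩).norm_le
  have hfn : ‖f‖ ≤ 1 := (show IsStarProjection f from ⟨hff, hfs⟩).norm_le
  have hA : ∀ i, θ ((midSeq h hv c₁ c₂ n).y i) = e * θ (S ((c₁ n).y i)) + f * θ (S ((c₂ n).y i)) := by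
    intro i
    show θ (j 0 (mu 0 0) * S ((c₁ n).y i) + j 0 (mu 1 1) * S ((c₂ n).y i)) = _
    rw [map_add, map_mul, map_mul]
  have hce : ∀ z, e * θ (S z) = θ (S z) * e := fun z => by
    rw [he, ← map_mul, ← map_mul, h.comm hv]
  have hcf : ∀ z, f * θ (S z) = θ (S z) * f := fun z => by
    rw [hf, ← map_mul, ← map_mul, h.comm hv]
  set B : Fin 16 → R := fun i => θ' ((c' n).y i) with hB
  set p := avgOp (fun i => (θ.comp S) ((c₁ n).y i)) B (e * x) with hp
  set q := avgOp (fun i => (θ.comp S) ((c₂ n).y i)) B (f * x) with hq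
  have hdec : avgOp (fun i => θ ((midSeq h hv c₁ c₂ n).y i)) B x = p + q := by
    rw [hp, hq]
    unfold avgOp
    rw [← Finset.sum_add_distrib]
    refine Finset.sum_congr rfl fun i _ => ?_
    show θ ((midSeq h hv c₁ c₂ n).y i) * x * B i = _
    rw [hA, hce, hcf]
    show (θ (S ((c₁ n).y i)) * e + θ (S ((c₂ n).y i)) * f) * x * B i =
      θ (S ((c₁ n).y i)) * (e * x) * B i + θ (S ((c₂ n).y i)) * (f * x) * B i
    noncomm_ring
  have hep : p = e * p := by
    rw [hp]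
    unfold avgOp
    rw [Finset.mul_sum]
    refine Finset.sum_congr rfl fun i _ => ?_
    show θ (S ((c₁ n).y i)) * (e * x) * B i = e * (θ (S ((c₁ n).y i)) * (e * x) * B i)
    rw [show e * (θ (S ((c₁ n).y i)) * (e * x) * B i) = (e * θ (S ((c₁ n).y i))) * (e * x) * B i by
      simp only [mul_assoc], hce]
    rw [show θ (S ((c₁ n).y i)) * e * (e * x) * B i = θ (S ((c₁ n).y i)) * ((e * e) * x) * B i by
      simp only [mul_assoc], hee]
  have hfq : q = f * q := by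
    rw [hq]
    unfold avgOp
    rw [Finset.mul_sum]
    refine Finset.sum_congr rfl fun i _ => ?_
    show θ (S ((c₂ n).y i)) * (f * x) * B i = f * (θ (S ((c₂ n).y i)) * (f * x) * B i)
    rw [show f * (θ (S ((c₂ n).y i)) * (f * x) * B i) = (f * θ (S ((c₂ n).y i))) * (f * x) * B i by
      simp only [mul_assoc], hcf]
    rw [show θ (S ((c₂ n).y i)) * f * (f * x) * B i = θ (S ((c₂ n).y i)) * ((f * f) * x) * B i by
      simp only [mul_assoc], hff]
  have horth : star p * q = 0 := by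
    rw [hep, hfq, star_mul, hes, show star p * e * (f * q) = star p * (e * f) * q by
      simp only [mul_assoc], hef, mul_zero, zero_mul]
  have horth2 : star (e * x) * (f * x) = 0 := by
    rw [star_mul, hes, show star x * e * (f * x) = star x * (e * f) * x by simp only [mul_assoc],
      hef, mul_zero, zero_mul]
  have hx2 : t.n2 x ^ 2 = t.n2 (e * x) ^ 2 + t.n2 (f * x) ^ 2 := by
    rw [← n2_orth_sq _ _ horth2, ← add_mul, hsum, one_mul]
  have hnx : ∀ g : R, ‖g‖ ≤ 1 → ‖g * x‖ ≤ C := fun g hg => by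
    calc ‖g * x‖ ≤ ‖g‖ * ‖x‖ := norm_mul_le _ _
      _ ≤ 1 * ‖x‖ := by gcongr
      _ ≤ C := by rw [one_mul]; exact hx
  have b1 := a1 (e * x) (hnx e hen)
  have b2 := a2 (f * x) (hnx f hfn)
  rw [hdec, n2_orth_sq _ _ horth, hx2]
  change t.n2 p ^ 2 ≤ _ at b1
  change t.n2 q ^ 2 ≤ _ at b2
  linarith

lemma EGap.mid_both (h : IsShift t j S) (hv : IsVN t) {c₁ c₂ c₃ c₄ : ℕ → Tup R} (h13 : EGap t U c₁ c₃)
    (h14 : EGap t U c₁ c₄) (h23 : EGap t U c₂ c₃) (h24 : EGap t U c₂ c₄) :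
    EGap t U (midSeq h hv c₁ c₂) (midSeq h hv c₃ c₄) := by
  have h1 : EGap t U (midSeq h hv c₁ c₂) c₃ := h13.mid_left h hv h23
  have h2 : EGap t U (midSeq h hv c₁ c₂) c₄ := h14.mid_left h hv h24
  exact (h1.symm.mid_left h hv h2.symm).symm

/-- nodes of the averaging tree -/
noncomputable def node (h : IsShift t j S) (hv : IsVN t) (Λ : Levels t) : ℕ → ℕ → (ℕ → Tup R)
  | 0, i => leaf Λ i
  | m + 1, i => midSeq h hv (node h hv Λ m (2 * i)) (node h hv Λ m (2 * i + 1))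

lemma node_ms (h : IsShift t j S) (hv : IsVN t) (hU : (U : Filter ℕ) ≤ cofinite) (Λ : Levels t) (m i : ℕ) :
    MS t U (node h hv Λ m i) := by
  induction m generalizing i with
  | zero => exact leaf_ms hU Λ i
  | succ m ih => exact (ih _).mid h hv (ih _)

lemma node_gap (h : IsShift t j S) (hv : IsVN t) (hU : (U : Filter ℕ) ≤ cofinite) (Λ : Levels t) (m i i' : ℕ)
    (hi : i ≠ i') : EGap t U (node h hv Λ m i) (node h hv Λ m i') := by
  induction m generalizing i i' with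
  | zero => exact leaf_gap hU Λ i i' hi
  | succ m ih =>
    exact (ih _ _ (by omega)).mid_both h hv (ih _ _ (by omega)) (ih _ _ (by omega)) (ih _ _ (by omega))

end gap

end Pool.Agent.Helper234.Brown
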