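import Pool.Agent.Helper234.BrownZB

open scoped BoundedContinuousFunction ComplexOrder Topology InnerProductSpace
open Filter

namespace Pool.Agent.Helper234.Brown

universe u v w

section

variable {R : Type u} [CStarAlgebra R] {t : PTr R} {U : Ultrafilter ℕ}
variable {M : Type v} [CStarAlgebra M]

lemma un1_le_un2 (X : Ultrapower t U) : un1 t U X ≤ un2 t U X := by
  obtain ⟨x, rfl⟩ := Ideal.Quotient.mk_surjective X
  exact (t.ultra U).n1_le_n2 x

lemma un2_hom_mul_le (π : M →⋆ₐ[ℂ] Ultrapower t U) (T : M) (Y : Ultrapower t U) :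
    un2 t U (π T * Y) ≤ ‖T‖ * un2 t U Y := by
  let _ : PartialOrder M := CStarAlgebra.spectralOrder M
  have _ : StarOrderedRing M := CStarAlgebra.spectralOrderedRing M
  have h : star T * T ≤ algebraMap ℝ M (‖T‖ ^ 2) := CStarAlgebra.star_mul_le_algebraMap_norm_sq
  have h2 := sub_nonneg.mpr h
  rw [CStarAlgebra.nonneg_iff_eq_star_mul_self] at h2
  obtain ⟨b, hb⟩ := h2
  have hY := un2_nonneg Y
  apply le_of_sq_le_sq _ (by positivity)
  have h3 : (0 : ℝ) ≤ un2 t U (π b * Y) ^ 2 := sq_nonneg _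
  have h4 : star (π b * Y) * (π b * Y) = ((‖T‖ ^ 2 : ℝ) : ℂ) • (star Y * Y) - star (π T * Y) * (π T * Y) := by
    have e1 : star (π b * Y) * (π b * Y) = star Y * π (star b * b) * Y := by
      rw [star_mul, map_mul, map_star]; simp only [mul_assoc]
    have e2 : star (π T * Y) * (π T * Y) = star Y * π (star T * T) * Y := by
      rw [star_mul, map_mul, map_star]; simp only [mul_assoc]
    have e3 : star b * b = ((‖T‖ ^ 2 : ℝ) : ℂ) • (1 : M) - star T * T := by
      rw [← hb, Algebra.algebraMap_eq_smul_one, Complex.coe_smul]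
    rw [e1, e2, e3, map_sub, map_smul, map_one, mul_sub, sub_mul, mul_smul_comm, mul_one, smul_mul_assoc]
  have h5 : un2 t U (π b * Y) ^ 2 = ‖T‖ ^ 2 * un2 t U Y ^ 2 - un2 t U (π T * Y) ^ 2 := by
    rw [un2_sq, un2_sq, un2_sq, h4]
    obtain ⟨y, hy⟩ := Ideal.Quotient.mk_surjective (star Y * Y)
    obtain ⟨z, hz⟩ := Ideal.Quotient.mk_surjective (star (π T * Y) * (π T * Y))
    rw [← hy, ← hz]
    show (utr t U (cls t U (((‖T‖ ^ 2 : ℝ) : ℂ) • y) - cls t U z)).re = _
    rw [← map_sub, utr_cls, utr_cls, utr_cls, map_sub, map_smul, smul_eq_mul, Complex.sub_re,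
      Complex.re_ofReal_mul]
  rw [h5] at h3
  rw [mul_pow]
  linarith

lemma un2_mul_hom_le (π : M →⋆ₐ[ℂ] Ultrapower t U) (T : M) (Y : Ultrapower t U) :
    un2 t U (Y * π T) ≤ ‖T‖ * un2 t U Y := by
  rw [← un2_star, star_mul, ← map_star, ← un2_star Y, ← norm_star T]
  exact un2_hom_mul_le π (star T) (star Y)

end

section unif

variable {R : Type u} [CStarAlgebra R] {t : PTr R} {U : Ultrafilter ℕ} (P : MicroAlg t U)

/-- uniform control -/
def PQ (a : ℕ → P.M) (T : P.M) : Prop :=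
  ∀ ε : ℝ, 0 < ε → ∃ δ : ℝ, 0 < δ ∧ ∀ c hc c' hc', ∀ X ∈ unitary (Ultrapower t U),
    distAt1 a (P.hom c hc) (P.hom c' hc') X < δ →
    un2 t U (P.hom c hc T - X * P.hom c' hc' T * star X) < ε

variable {P} {a : ℕ → P.M}

lemma conj_un2 {X : Ultrapower t U} (hX : X ∈ unitary (Ultrapower t U)) (Y : Ultrapower t U) :
    un2 t U (X * Y * star X) = un2 t U Y := by
  have h1 : star X * star (star X) = 1 := by rw [star_star]; exact hX.1
  rw [un2_mul_unitary h1, un2_unitary_mul hX.1]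

lemma PQ.gen (hU : (U : Filter ℕ) ≤ cofinite) (ha : ∀ n, ‖a n‖ ≤ 1) (l : ℕ) : PQ P a (a l) := by
  intro ε hε
  refine ⟨ε ^ 2 / 2 ^ (l + 2), by positivity, fun c hc c' hc' X hX hd => ?_⟩
  set f : ℕ → ℝ := fun n => un1 t U (P.hom c hc (a n) - X * P.hom c' hc' (a n) * star X) with hf
  have hf0 : ∀ n, 0 ≤ f n := fun n => un1_nonneg t U _
  have hf2 : ∀ n, f n ≤ 2 := fun n => by
    refine (un1_le_un2 _).trans ((un2_sub_le _ _).trans ?_)
    rw [conj_un2 hX, P.un2_hom, P.un2_hom]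
    have := (P.s.n2_le_norm (a n)).trans (ha n)
    linarith
  have hs := summable_sq 2 hf0 hf2
  have h1 : (1 / 4 : ℝ) ^ (l + 1) * f l ^ 2 ≤ ∑' n : ℕ, (1 / 4 : ℝ) ^ (n + 1) * f n ^ 2 :=
    hs.le_tsum l (fun m _ => by positivity)
  have h2 : (1/2 : ℝ) ^ (l+1) * f l ≤ distAt1 a (P.hom c hc) (P.hom c' hc') X := by
    apply Real.le_sqrt_of_sq_le
    refine le_trans (le_of_eq ?_) h1
    rw [mul_pow, ← pow_mul, mul_comm (l+1) 2, pow_mul]; norm_num
  have h3 := lt_of_le_of_lt h2 hd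
  have h4 : 2 * f l < ε ^ 2 := by
    rw [lt_div_iff₀ (by positivity)] at h3
    have h5 : (1/2 : ℝ) ^ (l+1) * f l * 2 ^ (l+2) = 2 * f l := by
      rw [mul_right_comm, pow_succ 2 (l+1), ← mul_assoc, ← mul_pow]; norm_num
    rw [h5] at h3
    exact h3
  obtain ⟨F, hF1, hF2⟩ := P.lift (a l) (ha l)
  obtain ⟨W, hW1, hW2, hW3⟩ := exists_unitary_lift hU X hX.1
  let x : ℕ →ᵇ R := BoundedContinuousFunction.ofNormedAddCommGroupDiscrete (fun n => F (c n)) 1
    (fun n => hF1 _)
  let x' : ℕ →ᵇ R := BoundedContinuousFunction.ofNormedAddCommGroupDiscrete (fun n => F (c' n)) 1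
    (fun n => hF1 _)
  have hx : ‖x‖ ≤ 1 := by
    rw [BoundedContinuousFunction.norm_le zero_le_one]; exact fun n => hF1 _
  have hx' : ‖x'‖ ≤ 1 := by
    rw [BoundedContinuousFunction.norm_le zero_le_one]; exact fun n => hF1 _
  have e1 : P.hom c hc (a l) - X * P.hom c' hc' (a l) * star X = cls t U (x - W * x' * star W) := by
    rw [hF2 c hc x (fun _ => rfl), hF2 c' hc' x' (fun _ => rfl), ← hW3, star_cls, ← map_mul,
      ← map_mul, ← map_sub]
  have h6 : f l = (t.ultra U).n1 (x - W * x' * star W) := by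
    rw [hf]; simp only; rw [e1, un1_cls]
  rw [e1, un2_cls]
  have h7 := (t.ultra U).n2_sq_le_n1 (x - W * x' * star W)
  have h8 : ‖x - W * x' * star W‖ ≤ 2 := by
    refine (norm_sub_le _ _).trans ?_
    have h9 : ‖W * x' * star W‖ ≤ 1 := by
      calc ‖W * x' * star W‖ ≤ ‖W * x'‖ * ‖star W‖ := norm_mul_le _ _
        _ ≤ (‖W‖ * ‖x'‖) * ‖W‖ := by rw [norm_star]; gcongr; exact norm_mul_le _ _
        _ ≤ (1 * 1) * 1 := by gcongr
        _ = 1 := by norm_num
    linarith
  rw [← h6] at h7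
  have h10 : (t.ultra U).n2 (x - W * x' * star W) ^ 2 < ε ^ 2 := by
    have := hf0 l
    nlinarith
  exact lt_of_pow_lt_pow_left₀ 2 hε.le h10

lemma PQ.algMap (r : ℂ) : PQ P a (algebraMap ℂ P.M r) := by
  intro ε hε
  refine ⟨1, one_pos, fun c hc c' hc' X hX _ => ?_⟩
  have h : P.hom c hc (algebraMap ℂ P.M r) - X * P.hom c' hc' (algebraMap ℂ P.M r) * star X = 0 := by
    rw [AlgHomClass.commutes, AlgHomClass.commutes, ← Algebra.commutes, mul_assoc, hX.2, mul_one, sub_self]
  rw [h]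
  have : un2 t U (0 : Ultrapower t U) = 0 := by
    rw [← map_zero (cls t U), un2_cls, PTr.n2_zero]
  rw [this]
  exact hε

lemma PQ.add {x y : P.M} (hx : PQ P a x) (hy : PQ P a y) : PQ P a (x + y) := by
  intro ε hε
  obtain ⟨δ, hδ, h1⟩ := hx (ε/2) (by positivity)
  obtain ⟨δ', hδ', h2⟩ := hy (ε/2) (by positivity)
  refine ⟨min δ δ', lt_min hδ hδ', fun c hc c' hc' X hX hu => ?_⟩
  have h3 := h1 c hc c' hc' X hX (lt_of_lt_of_le hu (min_le_left _ _))
  have h4 := h2 c hc c' hc' X hX (lt_of_lt_of_le hu (min_le_right _ _))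
  have e : P.hom c hc (x + y) - X * P.hom c' hc' (x + y) * star X =
      (P.hom c hc x - X * P.hom c' hc' x * star X) + (P.hom c hc y - X * P.hom c' hc' y * star X) := by
    rw [map_add, map_add]; noncomm_ring
  rw [e]
  have := un2_add_le (P.hom c hc x - X * P.hom c' hc' x * star X)
    (P.hom c hc y - X * P.hom c' hc' y * star X)
  linarith

lemma PQ.star {x : P.M} (hx : PQ P a x) : PQ P a (star x) := by
  intro ε hε
  obtain ⟨δ, hδ, h1⟩ := hx ε hε
  refine ⟨δ, hδ, fun c hc c' hc' X hX hu => ?_⟩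
  have e : P.hom c hc (Star.star x) - X * P.hom c' hc' (Star.star x) * Star.star X =
      Star.star (P.hom c hc x - X * P.hom c' hc' x * Star.star X) := by
    rw [map_star, map_star, star_sub, star_mul, star_mul, star_star, mul_assoc]
  rw [e, un2_star]
  exact h1 c hc c' hc' X hX hu

lemma PQ.mul {x y : P.M} (hx : PQ P a x) (hy : PQ P a y) : PQ P a (x * y) := by
  intro ε hε
  obtain ⟨δ, hδ, h1⟩ := hx (ε/(2*(‖y‖+1))) (by positivity)
  obtain ⟨δ', hδ', h2⟩ := hy (ε/(2*(‖x‖+1))) (by positivity)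
  refine ⟨min δ δ', lt_min hδ hδ', fun c hc c' hc' u hX hu => ?_⟩
  have h3 := h1 c hc c' hc' u hX (lt_of_lt_of_le hu (min_le_left _ _))
  have h4 := h2 c hc c' hc' u hX (lt_of_lt_of_le hu (min_le_right _ _))
  set X := P.hom c hc x - u * P.hom c' hc' x * Star.star u with hXdef
  set Y := P.hom c hc y - u * P.hom c' hc' y * Star.star u with hYdef
  have hu1 : Star.star u * u = 1 := hX.1
  have hu1' : Star.star u * Star.star (Star.star u) = 1 := by rw [star_star]; exact hX.1
  have e : P.hom c hc (x * y) - u * P.hom c' hc' (x * y) * Star.star u =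
      P.hom c hc x * Y + X * u * P.hom c' hc' y * Star.star u := by
    rw [map_mul, map_mul, hXdef, hYdef]
    have e2 : (P.hom c hc x - u * P.hom c' hc' x * Star.star u) * u * P.hom c' hc' y * Star.star u =
        P.hom c hc x * (u * P.hom c' hc' y * Star.star u) -
        u * P.hom c' hc' x * (Star.star u * u) * (P.hom c' hc' y * Star.star u) := by noncomm_ring
    rw [e2, hu1]
    noncomm_ring
  rw [e]
  have h5 := un2_add_le (P.hom c hc x * Y) (X * u * P.hom c' hc' y * Star.star u)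
  have h6 := un2_hom_mul_le (P.hom c hc) x Y
  have h7 : un2 t U (X * u * P.hom c' hc' y * Star.star u) ≤ ‖y‖ * un2 t U X := by
    rw [un2_mul_unitary hu1']
    refine (un2_mul_hom_le (P.hom c' hc') y (X * u)).trans ?_
    rw [un2_mul_unitary hX.2]
  have hX0 := un2_nonneg X
  have hY0 := un2_nonneg Y
  rw [lt_div_iff₀ (by positivity)] at h3 h4
  nlinarith

lemma PQ.adjoin (hU : (U : Filter ℕ) ≤ cofinite) (ha : ∀ n, ‖a n‖ ≤ 1) {x : P.M}
    (hx : x ∈ StarAlgebra.adjoin ℂ (Set.range a)) : PQ P a x := by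
  induction hx using StarAlgebra.adjoin_induction with
  | mem x h => obtain ⟨n, rfl⟩ := h; exact PQ.gen hU ha n
  | algebraMap r => exact PQ.algMap r
  | add x y _ _ h1 h2 => exact h1.add h2
  | mul x y _ _ h1 h2 => exact h1.mul h2
  | star x _ h => exact h.star

lemma PQ.all (hU : (U : Filter ℕ) ≤ cofinite) (ha : ∀ n, ‖a n‖ ≤ 1) (hgen : Generates P.s a) (x : P.M) :
    PQ P a x := by
  intro ε hε
  obtain ⟨d, hd, h1⟩ := hgen x (ε/4) (by positivity)
  obtain ⟨δ, hδ, h2⟩ := PQ.adjoin hU ha hd (ε/2) (by positivity)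
  refine ⟨δ, hδ, fun c hc c' hc' u hX hu => ?_⟩
  have h3 := h2 c hc c' hc' u hX hu
  have e : P.hom c hc x - u * P.hom c' hc' x * Star.star u =
      (P.hom c hc (x - d) - u * P.hom c' hc' (x - d) * Star.star u) +
      (P.hom c hc d - u * P.hom c' hc' d * Star.star u) := by
    rw [map_sub, map_sub]; noncomm_ring
  rw [e]
  have h4 := un2_add_le (P.hom c hc (x - d) - u * P.hom c' hc' (x - d) * Star.star u)
      (P.hom c hc d - u * P.hom c' hc' d * Star.star u)
  have h5 := un2_sub_le (P.hom c hc (x - d)) (u * P.hom c' hc' (x - d) * Star.star u)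
  rw [conj_un2 hX, P.un2_hom, P.un2_hom] at h5
  linarith

/-- a gap prevents almost conjugacy -/
lemma gap_unitary {c c' : ℕ → Tup R} (hg : EGap t U c c') (hc : MS t U c) (hc' : MS t U c')
    (X : Ultrapower t U) (hX : X ∈ unitary (Ultrapower t U)) :
    ¬ ∀ i, un2 t U (P.hom c hc (P.g i) - X * P.hom c' hc' (P.g i) * star X) < 1 / 8 := by
  intro hall
  obtain ⟨x, rfl⟩ := Ideal.Quotient.mk_surjective X
  have hx1 : (t.ultra U).n2 x = 1 := by
    have := un2_unitary_mul (t := t) (U := U) (u := cls t U x) hX.1 1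
    rw [mul_one, un2_cls] at this
    rw [this, ← map_one (cls t U), un2_cls, PTr.n2_one]
  have h1 : ∀ i, (t.ultra U).n2 (coordSeq c i * x - x * coordSeq c' i) < 1 / 8 := fun i => by
    have h2 := hall i
    rw [P.hom_g c hc i (coordSeq c i) (fun _ => rfl), P.hom_g c' hc' i (coordSeq c' i) (fun _ => rfl),
      ← un2_mul_unitary (u := cls t U x) hX.2] at h2
    have h3 : (cls t U (coordSeq c i) - cls t U x * cls t U (coordSeq c' i) * star (cls t U x)) * cls t U x =
        cls t U (coordSeq c i) * cls t U x - cls t U x * cls t U (coordSeq c' i) := by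
      rw [sub_mul, mul_assoc _ (star (cls t U x)), hX.1, mul_one]
    change un2 t U ((cls t U (coordSeq c i) - cls t U x * cls t U (coordSeq c' i) * star (cls t U x)) * cls t U x) < 1 / 8 at h2
    rw [h3, ← map_mul, ← map_mul, ← map_sub] at h2
    exact h2
  have e1 : ∀ i, ∀ᶠ n in (U : Filter ℕ), t.n2 ((c n).y i * x n - x n * (c' n).y i) < 1 / 8 := fun i =>
    (t.tendsto_n2 U (coordSeq c i * x - x * coordSeq c' i)).eventually_lt_const (h1 i)
  have e2 : ∀ᶠ n in (U : Filter ℕ), 3 / 4 < t.n2 (x n) :=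
    (t.tendsto_n2 U x).eventually_const_lt (by rw [hx1]; norm_num)
  have e3 := hg (StarAlgHom.id ℂ R) (StarAlgHom.id ℂ R) ‖x‖ 1 one_pos
  obtain ⟨n, hn1, hn2, hn3⟩ := ((eventually_all.mpr e1).and (e2.and e3)).exists
  have h4 := hn3 (x n) (x.norm_coe_le_norm n)
  change t.n2 (avgOp (c n).y (c' n).y (x n)) ^ 2 ≤ _ at h4
  have h5 : 16 * t.n2 (x n) ≤ t.n2 (avgOp (c n).y (c' n).y (x n)) + 2 := by
    have e1 : (16 : ℂ) • x n = avgOp (c n).y (c' n).y (x n) + ∑ i, (x n - (c n).y i * x n * (c' n).y i) := by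
      unfold avgOp
      rw [Finset.sum_sub_distrib, Finset.sum_const, Finset.card_univ, Fintype.card_fin,
        add_sub_cancel]
      rw [← Nat.cast_smul_eq_nsmul ℂ]; norm_num
    have e2 : t.n2 (∑ i, (x n - (c n).y i * x n * (c' n).y i)) ≤ ∑ _i : Fin 16, (1/8 : ℝ) := by
      have gen : ∀ s : Finset (Fin 16), t.n2 (∑ i ∈ s, (x n - (c n).y i * x n * (c' n).y i)) ≤
          ∑ _i ∈ s, (1/8 : ℝ) := by
        intro s
        classical
        induction s using Finset.induction_on with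
        | empty => simp
        | insert i s hi ih =>
          rw [Finset.sum_insert hi, Finset.sum_insert hi]
          refine (t.n2_add_le _ _).trans (add_le_add ?_ ih)
          have e3 : x n - (c n).y i * x n * (c' n).y i = -(((c n).y i * x n - x n * (c' n).y i) * (c' n).y i) := by
            rw [sub_mul, mul_assoc (x n), (c' n).sq, mul_one]; abel
          rw [e3, t.n2_neg, t.n2_mul_unitary (by rw [(c' n).sa, (c' n).sq])]
          exact (hn1 i).le
      exact gen _
    have e3 := t.n2_smul (16 : ℂ) (x n)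
    rw [e1] at e3
    have e4 := t.n2_add_le (avgOp (c n).y (c' n).y (x n)) (∑ i, (x n - (c n).y i * x n * (c' n).y i))
    have e5 : ‖(16 : ℂ)‖ = 16 := by norm_num
    rw [e5] at e3
    have e6 : ∑ _i : Fin 16, (1/8 : ℝ) = 2 := by
      rw [Finset.sum_const, Finset.card_univ, Fintype.card_fin, nsmul_eq_mul]; norm_num
    rw [e6] at e2
    linarith
  have h6 := t.n2_nonneg (avgOp (c n).y (c' n).y (x n))
  nlinarith

/-- uniform separation -/
theorem exists_sep (hU : (U : Filter ℕ) ≤ cofinite) (ha : ∀ n, ‖a n‖ ≤ 1) (hgen : Generates P.s a) :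
    ∃ ε₀ : ℝ, 0 < ε₀ ∧ ∀ c hc c' hc', EGap t U c c' → ε₀ ≤ brownDist1 t U a (P.hom c hc) (P.hom c' hc') := by
  choose δ hδ h1 using fun i => PQ.all hU ha hgen (P.g i) (1/8) (by norm_num)
  have h2 : 0 < Finset.univ.inf' Finset.univ_nonempty δ := by
    rw [Finset.lt_inf'_iff]
    exact fun i _ => hδ i
  refine ⟨_, h2, fun c hc c' hc' hg => ?_⟩
  by_contra hcon
  push Not at hcon
  obtain ⟨u, hu⟩ := exists_lt_of_ciInf_lt hcon
  exact gap_unitary hg hc hc' (u : Ultrapower t U) u.2 (fun i => h1 i c hc c' hc' u u.2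
    (lt_of_lt_of_le hu (Finset.inf'_le _ (Finset.mem_univ i))))

end unif

end Pool.Agent.Helper234.Brown
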