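import Pool.Agent.Helper234.BrownZC

open scoped BoundedContinuousFunction ComplexOrder Topology InnerProductSpace
open Filter

namespace Pool.Agent.Helper234.Brown

universe u v w

section

variable {R : Type u} [CStarAlgebra R] {t : PTr R} {U : Ultrafilter ℕ}

lemma brownDist1_le_two (P : MicroAlg t U) {a : ℕ → P.M} (ha : ∀ n, ‖a n‖ ≤ 1) {c c' : ℕ → Tup R}
    (hc : MS t U c) (hc' : MS t U c') : brownDist1 t U a (P.hom c hc) (P.hom c' hc') ≤ 2 := by
  have h1 : brownDist1 t U a (P.hom c hc) (P.hom c' hc') ≤ distAt1 a (P.hom c hc) (P.hom c' hc') 1 := by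
    refine ciInf_le ⟨0, ?_⟩ (1 : unitary (Ultrapower t U))
    rintro _ ⟨v, rfl⟩
    exact Real.sqrt_nonneg _
  refine h1.trans ?_
  have hf0 : ∀ n, 0 ≤ un1 t U (P.hom c hc (a n) - 1 * P.hom c' hc' (a n) * star 1) := fun n => un1_nonneg t U _
  have hf2 : ∀ n, un1 t U (P.hom c hc (a n) - 1 * P.hom c' hc' (a n) * star 1) ≤ 2 := fun n => by
    refine (un1_le_un2 _).trans ((un2_sub_le _ _).trans ?_)
    rw [conj_un2 (one_mem _), P.un2_hom, P.un2_hom]
    have := (P.s.n2_le_norm (a n)).trans (ha n)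
    linarith
  have hs := summable_sq 2 hf0 hf2
  have h2 : ∑' n : ℕ, (1 / 4 : ℝ) ^ (n + 1) * un1 t U (P.hom c hc (a n) - 1 * P.hom c' hc' (a n) * star 1) ^ 2 ≤
      ∑' n : ℕ, (1 / 4 : ℝ) ^ (n + 1) * 2 ^ 2 := by
    refine Summable.tsum_le_tsum (fun n => ?_) hs (summable_w.mul_right _)
    have := hf0 n
    have := hf2 n
    gcongr
  rw [tsum_mul_right, tsum_w] at h2
  unfold distAt1
  rw [Real.sqrt_le_left (by norm_num)]
  linarith

lemma brownDist1_nonneg {M : Type v} [CStarAlgebra M] (a : ℕ → M) (π ρ : UHom M t U) :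
    0 ≤ brownDist1 t U a π ρ := Real.iInf_nonneg (fun _ => Real.sqrt_nonneg _)

/-- along the averaging tree some node is almost as far from the base point as its children -/
lemma exists_good_node {j : ℕ → (Matrix (Fin 2) (Fin 2) ℂ →⋆ₐ[ℂ] R)} {S : R →⋆ₐ[ℂ] R}
    (h : IsShift t j S) (hv : IsVN t) (hU : (U : Filter ℕ) ≤ cofinite) (P : MicroAlg t U)
    {a : ℕ → P.M} (ha : ∀ n, ‖a n‖ ≤ 1) (Λ : Levels t) (x₀ : ℕ → Tup R) (h0 : MS t U x₀) (δ : ℝ) (hδ : 0 < δ) :
    ∃ (L N : ℕ → Tup R) (hL : MS t U L) (hN : MS t U N), EGap t U L N ∧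
      brownDist1 t U a (P.hom x₀ h0) (P.hom L hL) - δ ≤
        brownDist1 t U a (P.hom x₀ h0) (P.hom _ (hL.mid h hv hN)) ∧
      brownDist1 t U a (P.hom x₀ h0) (P.hom N hN) - δ ≤
        brownDist1 t U a (P.hom x₀ h0) (P.hom _ (hL.mid h hv hN)) := by
  by_contra hcon
  push Not at hcon
  have key : ∀ m i, brownDist1 t U a (P.hom x₀ h0) (P.hom _ (node_ms h hv hU Λ m i)) ≤ 2 - m * δ := by
    intro m
    induction m with
    | zero =>
      intro i
      simpa using brownDist1_le_two P ha h0 (node_ms h hv hU Λ 0 i)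
    | succ m ih =>
      intro i
      have h1 := ih (2 * i)
      have h2 := ih (2 * i + 1)
      have hL := node_ms h hv hU Λ m (2 * i)
      have hN := node_ms h hv hU Λ m (2 * i + 1)
      have hg := node_gap h hv hU Λ m (2 * i) (2 * i + 1) (by omega)
      have h3 := hcon _ _ hL hN hg
      have e : brownDist1 t U a (P.hom x₀ h0) (P.hom _ (node_ms h hv hU Λ (m+1) i)) =
        brownDist1 t U a (P.hom x₀ h0) (P.hom _ (hL.mid h hv hN)) := rfl
      rw [e]
      push_cast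
      by_cases h4 : brownDist1 t U a (P.hom x₀ h0) (P.hom _ hL) - δ ≤
        brownDist1 t U a (P.hom x₀ h0) (P.hom _ (hL.mid h hv hN))
      · have h5 := h3 h4
        linarith
      · push Not at h4
        linarith
  obtain ⟨m, hm⟩ := exists_nat_gt (2 / δ)
  have h1 := key m 0
  have h2 := brownDist1_nonneg (t := t) (U := U) a (P.hom x₀ h0) (P.hom _ (node_ms h hv hU Λ m 0))
  rw [div_lt_iff₀ hδ] at hm
  linarith

/-- the main theorem for the 1-norm -/
theorem no_strictly_convex (hR : IsHyperfinite t) (hU : (U : Filter ℕ) ≤ cofinite) (P : MicroAlg t U)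
    (a : ℕ → P.M) (ha : ∀ n, ‖a n‖ ≤ 1) (hgen : Generates P.s a)
    {B : Type w} [NormedAddCommGroup B] [NormedSpace ℝ B] [StrictConvexSpace ℝ B]
    (Φ : (P.M →⋆ₐ[ℂ] Ultrapower t U) → B) (hΦ : IsAffineRep t U Φ)
    (hiso : ∀ σ σ', ‖Φ σ - Φ σ'‖ = brownDist1 t U a σ σ') : False := by
  obtain ⟨j, hj, hd⟩ := hR.matrices
  have hv : IsVN t := hR.toIsVN
  obtain ⟨S, hS1, hS2⟩ := exists_shift j hj hv hd
  have h : IsShift t j S := ⟨hj, hd, hS1, hS2⟩
  obtain ⟨Λ⟩ := exists_levels (t := t) j hj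
  have h0 : MS t U (leaf Λ 0) := leaf_ms hU Λ 0
  obtain ⟨ε₀, hε₀, hsep⟩ := exists_sep (P := P) hU ha hgen
  choose F hF1 hF2 using fun l => P.lift (a l) (ha l)
  choose L N hL hN hg h1 h2 using fun k : ℕ => exists_good_node h hv hU P ha Λ _ h0
    (1 / ((k : ℝ) + 1)) (by positivity)
  obtain ⟨L', N', hL', hN', h3, h4, h5⟩ := saturation h hv hU P hF1 hF2 _ h0 L N hL hN ε₀ h1 h2
    (fun k => hsep _ _ _ _ (hg k))
  have hmid : Φ (P.hom _ (hL'.mid h hv hN')) = (1 / 2 : ℝ) • Φ (P.hom L' hL') + (1 / 2 : ℝ) • Φ (P.hom N' hN') := by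
    have := hΦ 2 ![1/2, 1/2] ![P.hom L' hL', P.hom N' hN'] (P.hom _ (hL'.mid h hv hN'))
      (by rw [hom_mid h hv P hL' hN']; exact midHom_isConvexComb h hv U _ _)
    simpa [Fin.sum_univ_two] using this
  rw [← hiso, ← hiso, hmid] at h3 h4
  rw [← hiso] at h5
  set p := Φ (P.hom _ h0) with hp
  set q := Φ (P.hom L' hL') with hq
  set r := Φ (P.hom N' hN') with hr
  have e1 : p - ((1 / 2 : ℝ) • q + (1 / 2 : ℝ) • r) = (1 / 2 : ℝ) • ((p - q) + (p - r)) := by module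
  rw [e1, norm_smul, Real.norm_of_nonneg (by norm_num)] at h3 h4
  have h6 := norm_add_le (p - q) (p - r)
  have h7 : ‖p - q‖ = ‖p - r‖ := by linarith
  have h8 : ‖(p - q) + (p - r)‖ = ‖p - q‖ + ‖p - r‖ := by linarith
  have h9 : p - q = p - r := eq_of_norm_eq_of_norm_add_eq h7 h8
  have h10 : q = r := by
    have := sub_right_injective h9
    exact this
  rw [h10, sub_self, norm_zero] at h5
  linarith

/-- two homomorphisms at positive distance -/
theorem microAlg_dist_ne (hU : (U : Filter ℕ) ≤ cofinite) (P : MicroAlg t U)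
    (a : ℕ → P.M) (ha : ∀ n, ‖a n‖ ≤ 1) (hgen : Generates P.s a) (Λ : Levels t) :
    brownDist t U a (P.hom _ (leaf_ms hU Λ 0)) (P.hom _ (leaf_ms hU Λ 1)) ≠ 0 := by
  intro h0
  obtain ⟨ u, hu⟩ := exists_unitary ha hgen (P.un2_hom _ _) (P.un2_hom _ _) h0 P.g (1/8) (by norm_num)
  exact gap_unitary (leaf_gap hU Λ 0 1 (by decide)) _ _ (u : Ultrapower t U) u.2 hu

/-- both metrics -/
theorem main1 (hR : IsHyperfinite t) (hU : (U : Filter ℕ) ≤ cofinite) :
    ∃ (M : Type u) (_ : CStarAlgebra M) (s : PTr M), IsIIOneFactor s ∧ IsSep s ∧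
      EmbedsInUltrapower s t U ∧
      ∀ a : ℕ → M, (∀ n, ‖a n‖ ≤ 1) → Generates s a →
        (∀ (B : Type w) (_ : NormedAddCommGroup B) (_ : NormedSpace ℝ B) (Φ : HomSpace M t U → B),
          IsAffine Φ → ¬ IsIsometric a Φ) ∧
        (∀ (B : Type w) (_ : NormedAddCommGroup B) (_ : NormedSpace ℝ B), StrictConvexSpace ℝ B →
          ∀ Φ : HomSpace M t U → B, IsAffine Φ → ¬ IsIsometric1 a Φ) := by
  obtain ⟨j, hj, hd⟩ := hR.matrices
  obtain ⟨Λ⟩ := exists_levels (t := t) j hj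
  obtain ⟨P⟩ := exists_microAlg hR.toIsVN (leaf_ms hU Λ 0)
  refine ⟨P.M, P.inst, P.s, P.factor, P.sep, ⟨P.hom _ (leaf_ms hU Λ 0), P.un2_hom _ _⟩, ?_⟩
  intro a ha hgen
  refine ⟨?_, ?_⟩
  · intro B i2 i3 Φ hΦ hiso
    exact microAlg_dist_ne hU P a ha hgen Λ (dist_eq_zero_of_embedding hR P.s a ha _ _ (P.un2_hom _ _)
      (P.un2_hom _ _) (fun σ => Φ (homClass σ)) hΦ hiso)
  · intro B i2 i3 i4 Φ hΦ hiso
    exact no_strictly_convex hR hU P a ha hgen (fun σ => Φ (homClass σ)) hΦ hiso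

end

end Pool.Agent.Helper234.Brown
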