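import Pool.Agent.Helper234.BrownZD

open scoped BoundedContinuousFunction ComplexOrder Topology InnerProductSpace
open Filter

namespace Pool.Agent.Helper234.Brown

universe u v w

lemma minkowski_half (f g : ℕ → ℝ) (hf0 : ∀ n, 0 ≤ f n) (hg0 : ∀ n, 0 ≤ g n) (hf : ∀ n, f n ≤ 2)
    (hg : ∀ n, g n ≤ 2) (k : ℕ → ℝ) (hk0 : ∀ n, 0 ≤ k n) (hk : ∀ n, k n ≤ (f n + g n) / 2) :
    Real.sqrt (∑' n : ℕ, (1 / 4 : ℝ) ^ (n + 1) * k n ^ 2) ≤
      (Real.sqrt (∑' n : ℕ, (1 / 4 : ℝ) ^ (n + 1) * f n ^ 2) +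
        Real.sqrt (∑' n : ℕ, (1 / 4 : ℝ) ^ (n + 1) * g n ^ 2)) / 2 := by
  have sf := summable_sq 2 hf0 hf
  have sg := summable_sq 2 hg0 hg
  have sk := summable_sq 2 hk0 (fun n => (hk n).trans (by linarith [hf n, hg n]))
  set A := Real.sqrt (∑' n : ℕ, (1 / 4 : ℝ) ^ (n + 1) * f n ^ 2) with hA
  set B := Real.sqrt (∑' n : ℕ, (1 / 4 : ℝ) ^ (n + 1) * g n ^ 2) with hB
  have hA0 : 0 ≤ A := Real.sqrt_nonneg _
  have hB0 : 0 ≤ B := Real.sqrt_nonneg _
  have hA2 : A ^ 2 = ∑' n : ℕ, (1 / 4 : ℝ) ^ (n + 1) * f n ^ 2 :=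
    Real.sq_sqrt (tsum_nonneg (fun n => by have := hf0 n; positivity))
  have hB2 : B ^ 2 = ∑' n : ℕ, (1 / 4 : ℝ) ^ (n + 1) * g n ^ 2 :=
    Real.sq_sqrt (tsum_nonneg (fun n => by have := hg0 n; positivity))
  rw [Real.sqrt_le_left (by positivity)]
  apply le_of_forall_pos_le_add
  intro ε hε
  set η := min (ε / (A + B + 1)) 1 with hη
  have hη0 : 0 < η := lt_min (by positivity) one_pos
  set r := (B + η) / (A + η) with hr
  have hr0 : 0 < r := by positivity
  have key : ∀ n, k n ^ 2 ≤ (1 + r) / 4 * f n ^ 2 + (1 + 1 / r) / 4 * g n ^ 2 := fun n => by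
    have h1 : k n ^ 2 ≤ ((f n + g n) / 2) ^ 2 := by
      have := hk0 n
      have := hk n
      gcongr
    have h2 : 2 * f n * g n ≤ r * f n ^ 2 + 1 / r * g n ^ 2 := by
      have h3 : 0 ≤ (r * f n - g n) ^ 2 / r := by positivity
      have h4 : (r * f n - g n) ^ 2 / r = r * f n ^ 2 + 1 / r * g n ^ 2 - 2 * f n * g n := by
        field_simp; ring
      linarith
    nlinarith
  have h5 : ∑' n : ℕ, (1 / 4 : ℝ) ^ (n + 1) * k n ^ 2 ≤ (1 + r) / 4 * A ^ 2 + (1 + 1 / r) / 4 * B ^ 2 := by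
    rw [hA2, hB2, ← tsum_mul_left, ← tsum_mul_left, ← (sf.mul_left _).tsum_add (sg.mul_left _)]
    refine Summable.tsum_le_tsum (fun n => ?_) sk ((sf.mul_left _).add (sg.mul_left _))
    have h6 := mul_le_mul_of_nonneg_left (key n) (show (0:ℝ) ≤ (1/4)^(n+1) by positivity)
    linarith
  have h7 : r * A ^ 2 ≤ A * (B + η) := by
    rw [hr, div_mul_eq_mul_div, div_le_iff₀ (by positivity)]
    nlinarith [mul_nonneg hA0 (by positivity : 0 ≤ (B + η) * η)]
  have h8 : 1 / r * B ^ 2 ≤ B * (A + η) := by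
    rw [hr, one_div_div, div_mul_eq_mul_div, div_le_iff₀ (by positivity)]
    nlinarith [mul_nonneg hB0 (by positivity : 0 ≤ (A + η) * η)]
  have h9 : η * (A + B) ≤ ε := by
    calc η * (A + B) ≤ ε / (A + B + 1) * (A + B) := by gcongr; exact min_le_left _ _
      _ ≤ ε := by
        rw [div_mul_eq_mul_div, div_le_iff₀ (by positivity)]
        nlinarith
  nlinarith

section

variable {R : Type u} [CStarAlgebra R] {t : PTr R} {j : ℕ → (Matrix (Fin 2) (Fin 2) ℂ →⋆ₐ[ℂ] R)} {S : R →⋆ₐ[ℂ] R}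

lemma n1_corner_le (h : IsShift t j S) (hv : IsVN t) (i : Fin 2) (x : R) :
    t.n1 (h.corner hv i x) ≤ t.n1 x / 2 := by
  apply PTr.n1_le
  intro y hy
  have e1 : h.corner hv i 1 = j 0 (mu i i) := by
    show j 0 (mu i i) * S 1 = _
    rw [map_one, mul_one]
  set e := h.corner hv i 1 with he
  have hee : e * e = e := by rw [he, ← map_mul, mul_one]
  have hes : star e = e := by rw [he, ← map_star, star_one]
  have hen : ‖e‖ ≤ 1 := (show IsStarProjection e from ⟨hee, hes⟩).norm_le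
  have hx : h.corner hv i x = e * h.corner hv i x := by rw [he, ← map_mul, one_mul]
  have hx' : h.corner hv i x = h.corner hv i x * e := by rw [he, ← map_mul, mul_one]
  obtain ⟨y', hy'⟩ := h.corner_surj hv i (e * y * e) (by
    rw [← e1, show e * (e * y * e) * e = (e * e) * y * (e * e) by simp only [mul_assoc], hee])
  replace hy' : h.corner hv i y' = e * y * e := hy'
  have hyn : ‖y'‖ ≤ 1 := by
    rw [← NonUnitalStarAlgHom.norm_map (h.corner hv i) (corner_injective h hv i) y', hy']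
    calc ‖e * y * e‖ ≤ ‖e * y‖ * ‖e‖ := norm_mul_le _ _
      _ ≤ (‖e‖ * ‖y‖) * ‖e‖ := by gcongr; exact norm_mul_le _ _
      _ ≤ (1 * 1) * 1 := by gcongr
      _ = 1 := by norm_num
  have h2 : t.tr (h.corner hv i x * y) = t.tr (x * y') / 2 := by
    rw [← corner_tr h hv i (x * y'), map_mul (h.corner hv i), hy']
    have h5 : h.corner hv i x = e * h.corner hv i x * e := by rw [← hx, ← hx']
    conv_lhs => rw [h5]
    rw [show e * h.corner hv i x * e * y = e * (h.corner hv i x * e * y) by simp only [mul_assoc],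
      t.tr_comm]
    congr 1
    simp only [mul_assoc]
  rw [h2, norm_div]
  have h3 := t.le_n1 x hyn
  have h4 : ‖(2 : ℂ)‖ = 2 := by norm_num
  rw [h4]
  linarith

variable {U : Ultrafilter ℕ}

lemma un1_cornerU_le (h : IsShift t j S) (hv : IsVN t) (hU : (U : Filter ℕ) ≤ cofinite) (i : Fin 2)
    (X : Ultrapower t U) : un1 t U (cornerU h hv U i X) ≤ un1 t U X / 2 := by
  obtain ⟨x, rfl⟩ := Ideal.Quotient.mk_surjective X
  rw [cornerU_cls, un1_cls, un1_cls]
  refine le_of_tendsto_of_tendsto' (tendsto_n1 t U hU _) ((tendsto_n1 t U hU x).div_const 2) (fun n => ?_)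
  exact n1_corner_le h hv i (x n)

lemma un1_add_le (X Y : Ultrapower t U) : un1 t U (X + Y) ≤ un1 t U X + un1 t U Y := by
  obtain ⟨x, rfl⟩ := Ideal.Quotient.mk_surjective X
  obtain ⟨y, rfl⟩ := Ideal.Quotient.mk_surjective Y
  rw [← map_add]
  exact (t.ultra U).n1_add_le x y

/-- For the 1-norm distance the metric axiom of a convex-like structure holds (for means of two). -/
theorem convex_like_axiom (hR : IsHyperfinite t) (hU : (U : Filter ℕ) ≤ cofinite)
    {M : Type v} [CStarAlgebra M] (a : ℕ → M) (ha : ∀ n, ‖a n‖ ≤ 1) (π ρ σ σ' : UHom M t U) :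
    ∃ m m' : UHom M t U, IsConvexComb t U ![1/2, 1/2] ![π, σ] m ∧ IsConvexComb t U ![1/2, 1/2] ![ρ, σ'] m' ∧
      brownDist1 t U a m m' ≤ (brownDist1 t U a π ρ + brownDist1 t U a σ σ') / 2 := by
  obtain ⟨j, hj, hd⟩ := hR.matrices
  have hv : IsVN t := hR.toIsVN
  obtain ⟨S, hS1, hS2⟩ := exists_shift j hj hv hd
  have h : IsShift t j S := ⟨hj, hd, hS1, hS2⟩
  refine ⟨midHom h hv U π σ, midHom h hv U ρ σ', midHom_isConvexComb h hv U _ _,
    midHom_isConvexComb h hv U _ _, ?_⟩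
  have hb : ∀ (α : UHom M t U) n, un2 t U (α (a n)) ≤ 1 := fun α n => by
    have h1 := un2_hom_mul_le α (a n) 1
    have h2 : un2 t U (1 : Ultrapower t U) = 1 := by
      rw [← map_one (cls t U), un2_cls, PTr.n2_one]
    rw [mul_one, h2, mul_one] at h1
    exact h1.trans (ha n)
  have hb2 : ∀ (α β : UHom M t U) (X : Ultrapower t U), X ∈ unitary (Ultrapower t U) → ∀ n,
      un1 t U (α (a n) - X * β (a n) * star X) ≤ 2 := fun α β X hX n => by
    refine (un1_le_un2 _).trans ((un2_sub_le _ _).trans ?_)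
    rw [conj_un2 hX]
    linarith [hb α n, hb β n]
  apply le_of_forall_pos_le_add
  intro ε hε
  obtain ⟨u, hu⟩ := exists_lt_of_ciInf_lt (show brownDist1 t U a π ρ < brownDist1 t U a π ρ + ε by linarith)
  obtain ⟨v, hv'⟩ := exists_lt_of_ciInf_lt (show brownDist1 t U a σ σ' < brownDist1 t U a σ σ' + ε by linarith)
  set W : Ultrapower t U := cornerU h hv U 0 (u : Ultrapower t U) + cornerU h hv U 1 (v : Ultrapower t U) with hW
  have hmul : ∀ X Y X' Y' : Ultrapower t U, (cornerU h hv U 0 X + cornerU h hv U 1 Y) *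
      (cornerU h hv U 0 X' + cornerU h hv U 1 Y') = cornerU h hv U 0 (X * X') + cornerU h hv U 1 (Y * Y') := by
    intro X Y X' Y'
    rw [add_mul, mul_add, mul_add, cornerU_orth h hv U 0 1 (by decide), cornerU_orth h hv U 1 0 (by decide),
      cornerU_mul, cornerU_mul]
    abel
  have hstar : star W = cornerU h hv U 0 (star (u : Ultrapower t U)) + cornerU h hv U 1 (star (v : Ultrapower t U)) := by
    rw [hW, star_add, cornerU_star, cornerU_star]
  have hWu : W ∈ unitary (Ultrapower t U) := by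
    constructor
    · rw [hstar, hW, hmul, u.2.1, v.2.1, cornerU_one]
    · rw [hstar, hW, hmul, u.2.2, v.2.2, cornerU_one]
  have h1 : brownDist1 t U a (midHom h hv U π σ) (midHom h hv U ρ σ') ≤
      distAt1 a (midHom h hv U π σ) (midHom h hv U ρ σ') W := by
    refine ciInf_le ⟨0, ?_⟩ (⟨W, hWu⟩ : unitary (Ultrapower t U))
    rintro _ ⟨v, rfl⟩
    exact Real.sqrt_nonneg _
  have h2 : ∀ n, un1 t U (midHom h hv U π σ (a n) - W * midHom h hv U ρ σ' (a n) * star W) ≤
      (un1 t U (π (a n) - (u : Ultrapower t U) * ρ (a n) * star (u : Ultrapower t U)) +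
        un1 t U (σ (a n) - (v : Ultrapower t U) * σ' (a n) * star (v : Ultrapower t U))) / 2 := by
    intro n
    have e1 : midHom h hv U π σ (a n) - W * midHom h hv U ρ σ' (a n) * star W =
        cornerU h hv U 0 (π (a n) - (u : Ultrapower t U) * ρ (a n) * star (u : Ultrapower t U)) +
        cornerU h hv U 1 (σ (a n) - (v : Ultrapower t U) * σ' (a n) * star (v : Ultrapower t U)) := by
      rw [hstar, hW, midHom_apply, midHom_apply, hmul, hmul]
      have e2 : ∀ i (X Y : Ultrapower t U), cornerU h hv U i (X - Y) = cornerU h hv U i X - cornerU h hv U i Y := by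
        intro i X Y
        rw [sub_eq_add_neg, cornerU_add, ← neg_one_smul ℂ Y, cornerU_smul, neg_one_smul, ← sub_eq_add_neg]
      rw [e2, e2]
      abel
    rw [e1]
    refine (un1_add_le _ _).trans ?_
    have := un1_cornerU_le h hv hU 0 (π (a n) - (u : Ultrapower t U) * ρ (a n) * star (u : Ultrapower t U))
    have := un1_cornerU_le h hv hU 1 (σ (a n) - (v : Ultrapower t U) * σ' (a n) * star (v : Ultrapower t U))
    linarith
  have h3 := minkowski_half _ _ (fun n => un1_nonneg t U _) (fun n => un1_nonneg t U _)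
    (hb2 π ρ u u.2) (hb2 σ σ' v v.2) _ (fun n => un1_nonneg t U _) h2
  unfold distAt1 at h1
  linarith

end

end Pool.Agent.Helper234.Brown
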